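import Mathlib

set_option autoImplicit false

/-!
# Covers with small `s`-dimensional sums
-/

open Filter Topology Set MeasureTheory MeasureTheory.Measure
open scoped ENNReal NNReal

namespace Pool.Agent.Q187.Exp

/-- `A` has a countable cover with `s`-dimensional sum at most `ε` -/
def Cov (s : ℝ) (A : Set ℝ) (ε : ℝ≥0∞) : Prop :=
  ∃ (ι : Type) (_ : Countable ι) (t : ι → Set ℝ), A ⊆ ⋃ i, t i ∧ ∑' i, Metric.ediam (t i) ^ s ≤ ε

lemma Cov.mono {s : ℝ} {A B : Set ℝ} {ε ε' : ℝ≥0∞} (h : Cov s B ε) (hA : A ⊆ B) (hε : ε ≤ ε') :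
    Cov s A ε' := by
  obtain ⟨ι, hι, t, h1, h2⟩ := h
  exact ⟨ι, hι, t, hA.trans h1, h2.trans hε⟩

lemma cov_single (s : ℝ) (A : Set ℝ) : Cov s A (Metric.ediam A ^ s) :=
  ⟨Unit, inferInstance, fun _ => A, fun _ hx => mem_iUnion.2 ⟨(), hx⟩, by simp⟩

lemma cov_iUnion {s : ℝ} {κ : Type} [Countable κ] {A : κ → Set ℝ} {ε : κ → ℝ≥0∞}
    (h : ∀ i, Cov s (A i) (ε i)) : Cov s (⋃ i, A i) (∑' i, ε i) := by
  choose ι hι t h1 h2 using h
  refine ⟨(i : κ) × ι i, inferInstance, fun p => t p.1 p.2, ?_, ?_⟩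
  · intro x hx
    obtain ⟨i, hi⟩ := mem_iUnion.1 hx
    obtain ⟨j, hj⟩ := mem_iUnion.1 (h1 i hi)
    exact mem_iUnion.2 ⟨⟨i, j⟩, hj⟩
  · rw [ENNReal.tsum_sigma']
    exact ENNReal.tsum_le_tsum fun i => h2 i

lemma cov_union {s : ℝ} {A B : Set ℝ} {ε δ : ℝ≥0∞} (hA : Cov s A ε) (hB : Cov s B δ) :
    Cov s (A ∪ B) (ε + δ) := by
  have h := cov_iUnion (s := s) (κ := Bool) (A := fun b => if b then A else B)
    (ε := fun b => if b then ε else δ) (by
      intro b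
      cases b
      · simpa using hB
      · simpa using hA)
  refine h.mono ?_ ?_
  · intro x hx
    rcases hx with hx | hx
    · exact mem_iUnion.2 ⟨true, by simpa using hx⟩
    · exact mem_iUnion.2 ⟨false, by simpa using hx⟩
  · rw [tsum_bool]
    simp [add_comm]

theorem dimH_le_of_cov {s : ℝ} (hs : 0 < s) {A : Set ℝ} (h : ∀ ε : ℝ≥0∞, 0 < ε → Cov s A ε) :
    dimH A ≤ ENNReal.ofReal s := by
  have hpos : ∀ n : ℕ, (0 : ℝ≥0∞) < ((n : ℝ≥0∞) + 1)⁻¹ := fun n =>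
    ENNReal.inv_pos.2 (by simp)
  choose ι hι t h1 h2 using fun n : ℕ => h _ (hpos n)
  have hlim : Tendsto (fun n : ℕ => ((n : ℝ≥0∞) + 1)⁻¹) atTop (𝓝 0) := by
    have := ENNReal.tendsto_inv_nat_nhds_zero
    have h3 := (tendsto_add_atTop_iff_nat 1).2 this
    refine h3.congr fun n => ?_
    push_cast
    rfl
  have hr : Tendsto (fun n : ℕ => (((n : ℝ≥0∞) + 1)⁻¹) ^ (1 / s)) atTop (𝓝 0) := by
    have h4 := (ENNReal.continuous_rpow_const (y := 1 / s)).tendsto 0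
    rw [ENNReal.zero_rpow_of_pos (by positivity)] at h4
    exact h4.comp hlim
  have h5 := hausdorffMeasure_le_liminf_tsum (ι := ι) s A (l := atTop)
    (fun n : ℕ => (((n : ℝ≥0∞) + 1)⁻¹) ^ (1 / s)) hr t
    (Eventually.of_forall fun n i => by
      have h6 : Metric.ediam (t n i) ^ s ≤ ((n : ℝ≥0∞) + 1)⁻¹ := (ENNReal.le_tsum i).trans (h2 n)
      have h7 := ENNReal.rpow_le_rpow h6 (show 0 ≤ 1 / s by positivity)
      rwa [← ENNReal.rpow_mul, mul_one_div_cancel hs.ne', ENNReal.rpow_one] at h7)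
    (Eventually.of_forall fun n => h1 n)
  have h8 : liminf (fun n => ∑' i, Metric.ediam (t n i) ^ s) atTop ≤ 0 := by
    rw [← hlim.liminf_eq]
    exact liminf_le_liminf (Eventually.of_forall h2)
  have h9 : μH[((s.toNNReal : ℝ≥0) : ℝ)] A ≠ ⊤ := by
    rw [Real.coe_toNNReal _ hs.le]
    exact ne_top_of_le_ne_top ENNReal.zero_ne_top (h5.trans h8)
  exact dimH_le_of_hausdorffMeasure_ne_top h9

end Pool.Agent.Q187.Exp
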