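import Mathlib
import Pool.Agent.Q187.Code

set_option autoImplicit false

/-!
# Expanding maps of the unit interval with countably many full branches

A common frame for the Gauss map and the Lüroth map: inverse branches `φ n`, `n ≥ 1`, which map
`[0, 1]` onto `[1 / (n + 1), 1 / n]`.
-/

open Filter Topology Set Pool.Agent.Q187.Code

namespace Pool.Agent.Q187.Exp

/-- composition of inverse branches; the first element of the list is applied first -/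
def V (φ : ℕ → ℝ → ℝ) : List ℕ → ℝ → ℝ
  | [], y => y
  | n :: h, y => V φ h (φ n y)

/-- an expanding map with full branches -/
structure Sys where
  /-- the map -/
  T : ℝ → ℝ
  /-- the inverse branches -/
  φ : ℕ → ℝ → ℝ
  /-- the first digit -/
  D : ℝ → ℕ
  /-- a constant -/
  C : ℝ
  mem : ∀ n : ℕ, 1 ≤ n → ∀ y ∈ Icc (0 : ℝ) 1, φ n y ∈ Icc (1 / ((n : ℝ) + 1)) (1 / (n : ℝ))
  low : ∀ n : ℕ, 1 ≤ n → ∀ y ∈ Icc (0 : ℝ) 1, ∀ y' ∈ Icc (0 : ℝ) 1,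
    |y - y'| / ((n : ℝ) + 1) ^ 2 ≤ |φ n y - φ n y'|
  upp : ∀ n : ℕ, 1 ≤ n → ∀ y ∈ Icc (0 : ℝ) 1, ∀ y' ∈ Icc (0 : ℝ) 1, |φ n y - φ n y'| ≤ |y - y'|
  one : ∀ y ∈ Ioo (0 : ℝ) 1, φ 1 y < 1
  inv : ∀ n : ℕ, 1 ≤ n → ∀ y ∈ Ioo (0 : ℝ) 1, T (φ n y) = y
  sepa : ∀ p q : ℕ, 1 ≤ p → p < q → ∀ δ : ℝ, 0 ≤ δ → ∀ y ∈ Icc δ 1, ∀ y' ∈ Icc δ 1,
    δ / ((p : ℝ) + 2) ^ 2 ≤ |φ p y - φ q y'|
  dig : ∀ x ∈ Ioo (0 : ℝ) 1, 1 ≤ D x ∧ φ (D x) (T x) = x ∧ T x ∈ Ico (0 : ℝ) 1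
  zero : T 0 = 0
  close : ∀ K : ℕ, ∃ ε > 0, ∀ x ∈ Ico (0 : ℝ) 1, ∀ y ∈ Ioo (0 : ℝ) 1, |x - y| < ε →
    |T x - T y| < ε → (x ≠ 0 ∧ D y = D x) ∨ K ≤ D y
  hC : 0 < C
  contr : ∀ h : List ℕ, (∀ n ∈ h, 1 ≤ n) → ∀ y ∈ Icc (0 : ℝ) 1, ∀ y' ∈ Icc (0 : ℝ) 1,
    |V φ h y - V φ h y'| ≤ C * (h.map fun n : ℕ => 2 / ((n : ℝ) + 1) ^ 2).prod
  dist : ∀ h : List ℕ, (∀ n ∈ h, 1 ≤ n) → ∀ y ∈ Icc (0 : ℝ) 1, ∀ y' ∈ Icc (0 : ℝ) 1,
    |V φ h 0 - V φ h 1| / 2 * |y - y'| ≤ |V φ h y - V φ h y'|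
  sum : ∀ h : List ℕ, (∀ n ∈ h, 1 ≤ n) → ∀ B : ℕ, (1 - 2 / ((B : ℝ) + 1)) * |V φ h 0 - V φ h 1| ≤
    ∑ i ∈ Finset.range B, |V φ ((i + 1) :: h) 0 - V φ ((i + 1) :: h) 1|

/-- shift of a sequence -/
def sh (a : ℕ → ℕ) (n : ℕ) : ℕ → ℕ := fun j => a (n + j)

lemma hist_pos {a : ℕ → ℕ} (ha : ∀ n, 1 ≤ a n) (n : ℕ) : ∀ m ∈ hist a n, 1 ≤ m := by
  induction n with
  | zero => simp [hist]
  | succ n ih =>
    intro m hm
    simp only [hist, List.mem_cons] at hm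
    rcases hm with rfl | hm
    · exact ha n
    · exact ih m hm

lemma hist_length (a : ℕ → ℕ) (n : ℕ) : (hist a n).length = n := by
  induction n with
  | zero => rfl
  | succ n ih => simp [hist, ih]

lemma V_hist_add (φ : ℕ → ℝ → ℝ) (a : ℕ → ℕ) (n k : ℕ) (y : ℝ) :
    V φ (hist a (n + k)) y = V φ (hist a n) (V φ (hist (sh a n) k) y) := by
  induction k generalizing y with
  | zero => rfl
  | succ k ih =>
    rw [← add_assoc]
    show V φ (hist a (n + k)) (φ (a (n + k)) y) = _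
    rw [ih]
    rfl

lemma prod_le {h : List ℕ} (hh : ∀ n ∈ h, 1 ≤ n) :
    0 < (h.map fun n : ℕ => 2 / ((n : ℝ) + 1) ^ 2).prod ∧
      (h.map fun n : ℕ => 2 / ((n : ℝ) + 1) ^ 2).prod ≤ (1 / 2) ^ h.length := by
  induction h with
  | nil => simp
  | cons n h ih =>
    obtain ⟨h1, h2⟩ := ih fun m hm => hh m (List.mem_cons_of_mem _ hm)
    have hn : (1 : ℝ) ≤ n := by exact_mod_cast hh n List.mem_cons_self
    rw [List.map_cons, List.prod_cons, List.length_cons, pow_succ' (1 / 2 : ℝ)]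
    refine ⟨by positivity, ?_⟩
    have h3 : 2 / ((n : ℝ) + 1) ^ 2 ≤ 1 / 2 := by
      rw [div_le_div_iff₀ (by positivity) (by norm_num)]
      nlinarith
    exact mul_le_mul h3 h2 h1.le (by norm_num)

namespace Sys

variable (S : Sys)

/-- length of a cylinder -/
noncomputable def len (h : List ℕ) : ℝ := |V S.φ h 0 - V S.φ h 1|

lemma mem01 {n : ℕ} (hn : 1 ≤ n) {y : ℝ} (hy : y ∈ Icc (0 : ℝ) 1) : S.φ n y ∈ Icc (0 : ℝ) 1 := by
  obtain ⟨h1, h2⟩ := S.mem n hn y hy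
  have hn' : (1 : ℝ) ≤ n := by exact_mod_cast hn
  refine ⟨le_trans (by positivity) h1, h2.trans ?_⟩
  rw [div_le_one (by linarith)]
  exact hn'

lemma V_mem {h : List ℕ} (hh : ∀ n ∈ h, 1 ≤ n) {y : ℝ} (hy : y ∈ Icc (0 : ℝ) 1) :
    V S.φ h y ∈ Icc (0 : ℝ) 1 := by
  induction h generalizing y with
  | nil => exact hy
  | cons n h ih =>
    exact ih (fun m hm => hh m (List.mem_cons_of_mem _ hm)) (S.mem01 (hh n List.mem_cons_self) hy)

lemma V_lip {h : List ℕ} (hh : ∀ n ∈ h, 1 ≤ n) {y y' : ℝ} (hy : y ∈ Icc (0 : ℝ) 1)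
    (hy' : y' ∈ Icc (0 : ℝ) 1) : |V S.φ h y - V S.φ h y'| ≤ |y - y'| := by
  induction h generalizing y y' with
  | nil => exact le_refl _
  | cons n h ih =>
    have hn := hh n List.mem_cons_self
    exact (ih (fun m hm => hh m (List.mem_cons_of_mem _ hm)) (S.mem01 hn hy) (S.mem01 hn hy')).trans
      (S.upp n hn y hy y' hy')

lemma V_low {h : List ℕ} (hh : ∀ n ∈ h, 1 ≤ n) {y y' : ℝ} (hy : y ∈ Icc (0 : ℝ) 1)
    (hy' : y' ∈ Icc (0 : ℝ) 1) :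
    |y - y'| / (h.map fun n : ℕ => ((n : ℝ) + 1) ^ 2).prod ≤ |V S.φ h y - V S.φ h y'| := by
  induction h generalizing y y' with
  | nil => simp [V]
  | cons n h ih =>
    have hn := hh n List.mem_cons_self
    have h1 := ih (fun m hm => hh m (List.mem_cons_of_mem _ hm)) (S.mem01 hn hy) (S.mem01 hn hy')
    have h2 := S.low n hn y hy y' hy'
    have hpos : 0 < (h.map fun n : ℕ => ((n : ℝ) + 1) ^ 2).prod := by
      apply List.prod_pos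
      intro a ha
      obtain ⟨m, -, rfl⟩ := List.mem_map.1 ha
      positivity
    refine le_trans ?_ h1
    rw [List.map_cons, List.prod_cons, ← div_div]
    gcongr

lemma zero_mem : (0 : ℝ) ∈ Icc (0 : ℝ) 1 := ⟨le_refl _, zero_le_one⟩

lemma one_mem : (1 : ℝ) ∈ Icc (0 : ℝ) 1 := ⟨zero_le_one, le_refl _⟩

lemma len_le {h : List ℕ} (hh : ∀ n ∈ h, 1 ≤ n) : S.len h ≤ S.C * (1 / 2) ^ h.length :=
  (S.contr h hh 0 zero_mem 1 one_mem).trans (mul_le_mul_of_nonneg_left (prod_le hh).2 S.hC.le)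

lemma len_pos {h : List ℕ} (hh : ∀ n ∈ h, 1 ≤ n) : 0 < S.len h := by
  have h1 := S.V_low hh zero_mem one_mem
  refine lt_of_lt_of_le ?_ h1
  have hpos : 0 < (h.map fun n : ℕ => ((n : ℝ) + 1) ^ 2).prod := by
    apply List.prod_pos
    intro a ha
    obtain ⟨m, -, rfl⟩ := List.mem_map.1 ha
    positivity
  rw [zero_sub, abs_neg, abs_one]
  positivity

lemma len_cons {n : ℕ} (hn : 1 ≤ n) {h : List ℕ} (hh : ∀ n ∈ h, 1 ≤ n) :
    S.len h ≤ 2 * ((n : ℝ) + 1) ^ 2 * S.len (n :: h) := by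
  have h1 := S.dist h hh _ (S.mem01 hn zero_mem) _ (S.mem01 hn one_mem)
  have h2 := S.low n hn 0 zero_mem 1 one_mem
  rw [zero_sub, abs_neg, abs_one] at h2
  have h3 : S.len h / 2 * (1 / ((n : ℝ) + 1) ^ 2) ≤ S.len (n :: h) :=
    (mul_le_mul_of_nonneg_left h2 (by have := (S.len_pos hh).le; positivity)).trans h1
  have h4 : (0 : ℝ) < ((n : ℝ) + 1) ^ 2 := by positivity
  calc S.len h = 2 * ((n : ℝ) + 1) ^ 2 * (S.len h / 2 * (1 / ((n : ℝ) + 1) ^ 2)) := by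
        field_simp
    _ ≤ _ := by gcongr

variable {S}

/-- the point with given digits -/
noncomputable def pt (S : Sys) (a : ℕ → ℕ) : ℝ := limUnder atTop fun n => V S.φ (hist a n) 0

lemma pt_tendsto {a : ℕ → ℕ} (ha : ∀ n, 1 ≤ a n) :
    Tendsto (fun n => V S.φ (hist a n) 0) atTop (𝓝 (S.pt a)) := by
  have : CauchySeq fun n => V S.φ (hist a n) 0 := by
    refine cauchySeq_of_le_geometric (1 / 2) S.C (by norm_num) fun n => ?_
    rw [Real.dist_eq]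
    show |V S.φ (hist a n) 0 - V S.φ (hist a n) (S.φ (a n) 0)| ≤ _
    refine (S.contr _ (hist_pos ha n) 0 zero_mem _ (S.mem01 (ha n) zero_mem)).trans ?_
    have := (prod_le (hist_pos ha n)).2
    rw [hist_length] at this
    exact mul_le_mul_of_nonneg_left this S.hC.le
  exact this.tendsto_limUnder

lemma pt_mem {a : ℕ → ℕ} (ha : ∀ n, 1 ≤ a n) : S.pt a ∈ Icc (0 : ℝ) 1 := by
  have h := pt_tendsto (S := S) ha
  exact ⟨ge_of_tendsto' h fun n => (S.V_mem (hist_pos ha n) zero_mem).1,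
    le_of_tendsto' h fun n => (S.V_mem (hist_pos ha n) zero_mem).2⟩

lemma sh_pos {a : ℕ → ℕ} (ha : ∀ n, 1 ≤ a n) (n : ℕ) : ∀ j, 1 ≤ sh a n j := fun j => ha _

lemma pt_eq {a : ℕ → ℕ} (ha : ∀ n, 1 ≤ a n) (n : ℕ) :
    S.pt a = V S.φ (hist a n) (S.pt (sh a n)) := by
  have h1 := pt_tendsto (S := S) ha
  have h2 : Tendsto (fun k => V S.φ (hist a (n + k)) 0) atTop (𝓝 (S.pt a)) := by
    have h3 : Tendsto (fun k : ℕ => n + k) atTop atTop := by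
      simpa [add_comm] using tendsto_add_atTop_nat n
    exact h1.comp h3
  have h3 := pt_tendsto (S := S) (sh_pos ha n)
  have h4 : Tendsto (fun k => V S.φ (hist a (n + k)) 0) atTop
      (𝓝 (V S.φ (hist a n) (S.pt (sh a n)))) := by
    rw [tendsto_iff_dist_tendsto_zero] at h3 ⊢
    refine squeeze_zero (fun _ => dist_nonneg) (fun k => ?_) h3
    rw [V_hist_add, Real.dist_eq, Real.dist_eq]
    exact S.V_lip (hist_pos ha n) (S.V_mem (hist_pos (sh_pos ha n) k) zero_mem)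
      (pt_mem (sh_pos ha n))
  exact tendsto_nhds_unique h2 h4

lemma pt_rec {a : ℕ → ℕ} (ha : ∀ n, 1 ≤ a n) : S.pt a = S.φ (a 0) (S.pt (sh a 1)) := pt_eq ha 1

lemma pt_ge {a : ℕ → ℕ} (ha : ∀ n, 1 ≤ a n) : 1 / ((a 0 : ℝ) + 1) ≤ S.pt a := by
  rw [pt_rec ha]
  exact (S.mem _ (ha 0) _ (pt_mem (sh_pos ha 1))).1

lemma pt_le {a : ℕ → ℕ} (ha : ∀ n, 1 ≤ a n) : S.pt a ≤ 1 / (a 0 : ℝ) := by
  rw [pt_rec ha]
  exact (S.mem _ (ha 0) _ (pt_mem (sh_pos ha 1))).2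

lemma pt_pos {a : ℕ → ℕ} (ha : ∀ n, 1 ≤ a n) : 0 < S.pt a :=
  lt_of_lt_of_le (by positivity) (pt_ge ha)

lemma sh_sh (a : ℕ → ℕ) (n k : ℕ) : sh (sh a n) k = sh a (n + k) := by
  funext j
  simp [sh, add_assoc]

/-- if some digit is at least two then the point is smaller than one -/
lemma pt_lt_one (j : ℕ) : ∀ {a : ℕ → ℕ}, (∀ n, 1 ≤ a n) → 2 ≤ a j → S.pt a < 1 := by
  induction j with
  | zero =>
    intro a ha hj
    refine (pt_le ha).trans_lt ?_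
    have : (2 : ℝ) ≤ a 0 := by exact_mod_cast hj
    rw [div_lt_one (by linarith)]
    linarith
  | succ j ih =>
    intro a ha hj
    have h1 : S.pt (sh a 1) < 1 := ih (sh_pos ha 1) (by simpa [sh, add_comm] using hj)
    rcases Nat.lt_or_ge (a 0) 2 with h | h
    · have h0 : a 0 = 1 := by have := ha 0; omega
      rw [pt_rec ha, h0]
      exact S.one _ ⟨pt_pos (sh_pos ha 1), h1⟩
    · refine (pt_le ha).trans_lt ?_
      have : (2 : ℝ) ≤ a 0 := by exact_mod_cast h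
      rw [div_lt_one (by linarith)]
      linarith

/-- iterates of the map on coded points -/
lemma iter_pt {a : ℕ → ℕ} (ha : ∀ n, 1 ≤ a n) (hinf : ∀ n, ∃ j, 2 ≤ a (n + j)) (n : ℕ) :
    S.T^[n] (S.pt a) = S.pt (sh a n) := by
  induction n with
  | zero =>
    show S.pt a = S.pt (sh a 0)
    congr 1
    funext j
    simp [sh]
  | succ n ih =>
    rw [Function.iterate_succ', Function.comp_apply, ih, pt_rec (sh_pos ha n)]
    obtain ⟨j, hj⟩ := hinf (n + 1)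
    have h1 : S.pt (sh (sh a n) 1) < 1 := by
      rw [sh_sh]
      exact pt_lt_one j (sh_pos ha _) hj
    rw [S.inv (sh a n 0) (ha _) _ ⟨pt_pos (sh_pos (sh_pos ha n) 1), h1⟩, sh_sh]

/-- lower bound for the distance of coded points -/
lemma dist_pt {a b : ℕ → ℕ} (ha : ∀ n, 1 ≤ a n) (hb : ∀ n, 1 ≤ b n) {n : ℕ}
    (hne : a n ≠ b n) {δ : ℝ} (hδ : 0 ≤ δ)
    (h1 : δ ≤ S.pt (sh a (n + 1))) (h2 : δ ≤ S.pt (sh b (n + 1))) {M : ℝ} (hM1 : (a n : ℝ) ≤ M)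
    (hM2 : (b n : ℝ) ≤ M) :
    δ / (M + 2) ^ 2 ≤ |S.pt (sh a n) - S.pt (sh b n)| := by
  have e1 : S.pt (sh a n) = S.φ (a n) (S.pt (sh a (n + 1))) := by
    rw [pt_rec (sh_pos ha n), sh_sh]; rfl
  have e2 : S.pt (sh b n) = S.φ (b n) (S.pt (sh b (n + 1))) := by
    rw [pt_rec (sh_pos hb n), sh_sh]; rfl
  have m1 := pt_mem (S := S) (sh_pos ha (n + 1))
  have m2 := pt_mem (S := S) (sh_pos hb (n + 1))
  rw [e1, e2]
  rcases lt_or_gt_of_ne hne with h | h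
  · refine le_trans ?_ (S.sepa _ _ (ha n) h δ hδ _ ⟨h1, m1.2⟩ _ ⟨h2, m2.2⟩)
    gcongr
  · rw [abs_sub_comm]
    refine le_trans ?_ (S.sepa _ _ (hb n) h δ hδ _ ⟨h2, m2.2⟩ _ ⟨h1, m1.2⟩)
    gcongr

end Sys

end Pool.Agent.Q187.Exp
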