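import Mathlib
import Pool.Agent.Q187.Exp.Sys

set_option autoImplicit false

/-!
# Asymptotic sets have Hausdorff dimension at most one half
-/

open Filter Topology Set Pool.Agent.Q187.Code MeasureTheory MeasureTheory.Measure
open scoped ENNReal

namespace Pool.Agent.Q187.Exp

/-- the asymptotic set of `x` for a self map `T` of `X ⊆ ℝ` -/
def AS (T : ℝ → ℝ) (X : Set ℝ) (x : ℝ) : Set ℝ :=
  {y ∈ X | Tendsto (fun n : ℕ => |T^[n] x - T^[n] y|) atTop (𝓝 0)}

/-- words of length `n` -/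
def idx : ℕ → Type
  | 0 => Unit
  | n + 1 => ℕ × idx n

instance idx_countable : ∀ n, Countable (idx n)
  | 0 => inferInstanceAs (Countable Unit)
  | n + 1 => by
    have := idx_countable n
    exact inferInstanceAs (Countable (ℕ × idx n))

/-- list of digits of a word -/
def H (g : ℕ → ℕ → ℕ) : (n : ℕ) → idx n → List ℕ
  | 0, _ => []
  | n + 1, w => g n w.1 :: H g n w.2

/-- weight of a digit -/
noncomputable def F (n : ℕ) : ℝ≥0∞ := ENNReal.ofReal (2 / ((n : ℝ) + 1) ^ 2)

lemma F_le {n : ℕ} (hn : 1 ≤ n) : F n ≤ 1 / 2 := by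
  unfold F
  have hn' : (1 : ℝ) ≤ n := by exact_mod_cast hn
  have h : 2 / ((n : ℝ) + 1) ^ 2 ≤ 1 / 2 := by
    rw [div_le_div_iff₀ (by positivity) (by norm_num)]
    nlinarith
  refine (ENNReal.ofReal_le_ofReal h).trans (le_of_eq ?_)
  rw [ENNReal.ofReal_div_of_pos (by norm_num)]
  norm_num

/-- weight of a list -/
noncomputable def P (h : List ℕ) : ℝ≥0∞ := (h.map F).prod

lemma P_eq (h : List ℕ) :
    P h = ENNReal.ofReal (h.map fun n : ℕ => 2 / ((n : ℝ) + 1) ^ 2).prod := by
  induction h with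
  | nil => simp [P]
  | cons n h ih =>
    show F n * P h = _
    rw [ih, List.map_cons, List.prod_cons, ENNReal.ofReal_mul (by positivity)]
    rfl

lemma H_pos {g : ℕ → ℕ → ℕ} (hg : ∀ i j, 1 ≤ g i j) (n : ℕ) (w : idx n) : ∀ m ∈ H g n w, 1 ≤ m := by
  induction n with
  | zero => simp [H]
  | succ n ih =>
    intro m hm
    simp only [H, List.mem_cons] at hm
    rcases hm with rfl | hm
    · exact hg _ _
    · exact ih w.2 m hm

lemma P_le {g : ℕ → ℕ → ℕ} (hg : ∀ i j, 1 ≤ g i j) (n : ℕ) (w : idx n) :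
    P (H g n w) ≤ (1 / 2) ^ n := by
  induction n with
  | zero => simp [H, P]
  | succ n ih =>
    show F (g n w.1) * P (H g n w.2) ≤ _
    rw [pow_succ']
    exact mul_le_mul' (F_le (hg _ _)) (ih w.2)

lemma sum_P {g : ℕ → ℕ → ℕ} {s : ℝ} (hs : 0 ≤ s) {θ : ℝ≥0∞} (hθ : ∀ i, ∑' j, F (g i j) ^ s ≤ θ)
    (n : ℕ) : ∑' w : idx n, P (H g n w) ^ s ≤ θ ^ n := by
  induction n with
  | zero =>
    show ∑' w : Unit, P (H g 0 w) ^ s ≤ θ ^ 0
    simp [H, P]
  | succ n ih =>
    have h1 : ∑' w : idx (n + 1), P (H g (n + 1) w) ^ s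
        = ∑' (a : ℕ) (b : idx n), F (g n a) ^ s * P (H g n b) ^ s := by
      rw [← ENNReal.tsum_prod (f := fun a b => F (g n a) ^ s * P (H g n b) ^ s)]
      exact tsum_congr fun w : ℕ × idx n => ENNReal.mul_rpow_of_nonneg _ _ hs
    rw [h1]
    simp_rw [ENNReal.tsum_mul_left]
    rw [ENNReal.tsum_mul_right, pow_succ']
    exact mul_le_mul' (hθ n) ih

/-- points whose digits are taken from given lists -/
def EE (S : Sys) (g : ℕ → ℕ → ℕ) : Set ℝ :=
  {z | ∃ d : ℕ → ℕ, (∀ i, ∃ j, d i = g i j) ∧ ∀ m, z ∈ V S.φ (hist d m) '' Icc 0 1}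

lemma exists_word {g : ℕ → ℕ → ℕ} {d : ℕ → ℕ} (hd : ∀ i, ∃ j, d i = g i j) (m : ℕ) :
    ∃ w : idx m, H g m w = hist d m := by
  induction m with
  | zero => exact ⟨(), rfl⟩
  | succ m ih =>
    obtain ⟨w, hw⟩ := ih
    obtain ⟨j, hj⟩ := hd m
    refine ⟨(j, w), ?_⟩
    show g m j :: H g m w = d m :: hist d m
    rw [hw, hj]

lemma EE_null (S : Sys) {g : ℕ → ℕ → ℕ} (hg : ∀ i j, 1 ≤ g i j) {s : ℝ} (hs : 0 < s) {θ : ℝ≥0∞}
    (hθ1 : θ < 1) (hθ : ∀ i, ∑' j, F (g i j) ^ s ≤ θ) : μH[s] (EE S g) = 0 := by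
  set c : ℝ≥0∞ := ENNReal.ofReal S.C with hc
  have hct : c ≠ ⊤ := ENNReal.ofReal_ne_top
  have hdiam : ∀ m (w : idx m), Metric.ediam (V S.φ (H g m w) '' Icc 0 1) ≤ c * P (H g m w) := by
    intro m w
    rw [P_eq, hc, ← ENNReal.ofReal_mul S.hC.le]
    apply Metric.ediam_le
    rintro _ ⟨y, hy, rfl⟩ _ ⟨y', hy', rfl⟩
    rw [edist_dist, Real.dist_eq]
    exact ENNReal.ofReal_le_ofReal (S.contr _ (H_pos hg m w) y hy y' hy')
  have hhalf : (1 / 2 : ℝ≥0∞) < 1 := by
    rw [one_div]; exact ENNReal.inv_lt_one.2 (by norm_num)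
  have h1 := hausdorffMeasure_le_liminf_tsum (ι := idx) s (EE S g) (l := atTop)
    (fun m => c * (1 / 2) ^ m) (by
      have := ENNReal.Tendsto.const_mul (a := c)
        (ENNReal.tendsto_pow_atTop_nhds_zero_of_lt_one hhalf) (Or.inr hct)
      simpa using this)
    (fun m w => V S.φ (H g m w) '' Icc 0 1)
    (Eventually.of_forall fun m w => (hdiam m w).trans (by
      gcongr
      exact P_le hg m w))
    (Eventually.of_forall fun m z hz => by
      obtain ⟨d, hd, hz⟩ := hz
      obtain ⟨w, hw⟩ := exists_word hd m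
      rw [mem_iUnion]
      exact ⟨w, by rw [hw]; exact hz m⟩)
  have h2 : ∀ m, ∑' w : idx m, Metric.ediam (V S.φ (H g m w) '' Icc 0 1) ^ s ≤ c ^ s * θ ^ m := by
    intro m
    calc ∑' w : idx m, Metric.ediam (V S.φ (H g m w) '' Icc 0 1) ^ s
        ≤ ∑' w : idx m, c ^ s * P (H g m w) ^ s := by
          apply ENNReal.tsum_le_tsum
          intro w
          rw [← ENNReal.mul_rpow_of_nonneg _ _ hs.le]
          exact ENNReal.rpow_le_rpow (hdiam m w) hs.le
      _ = c ^ s * ∑' w : idx m, P (H g m w) ^ s := ENNReal.tsum_mul_left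
      _ ≤ c ^ s * θ ^ m := by
          gcongr
          exact sum_P hs.le hθ m
  have h3 : Tendsto (fun m => c ^ s * θ ^ m) atTop (𝓝 0) := by
    have := ENNReal.Tendsto.const_mul (a := c ^ s)
      (ENNReal.tendsto_pow_atTop_nhds_zero_of_lt_one hθ1)
      (Or.inr (ENNReal.rpow_ne_top_of_nonneg hs.le hct))
    simpa using this
  have h4 : liminf (fun m => ∑' w : idx m, Metric.ediam (V S.φ (H g m w) '' Icc 0 1) ^ s) atTop ≤ 0 := by
    rw [← h3.liminf_eq]
    exact liminf_le_liminf (Eventually.of_forall h2)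
  exact le_antisymm (h1.trans h4) bot_le

lemma sum_F {s : ℝ} (hs : 1 / 2 < s) : ∑' n : ℕ, F n ^ s ≠ ⊤ := by
  have h1 : Summable fun n : ℕ => (2 / ((n : ℝ) + 1) ^ 2) ^ s := by
    have h2 : Summable fun n : ℕ => (1 / ((n : ℝ)) ^ (2 * s)) :=
      Real.summable_one_div_nat_rpow.2 (by linarith)
    have h3 := ((summable_nat_add_iff 1).2 h2).mul_left ((2 : ℝ) ^ s)
    refine h3.congr fun n => ?_
    push_cast
    rw [Real.div_rpow (by norm_num) (by positivity), ← Real.rpow_natCast, ← Real.rpow_mul (by positivity)]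
    push_cast
    ring
  have h4 : ∀ n : ℕ, F n ^ s = ENNReal.ofReal ((2 / ((n : ℝ) + 1) ^ 2) ^ s) := by
    intro n
    unfold F
    rw [ENNReal.ofReal_rpow_of_nonneg (by positivity) (by linarith)]
  simp only [h4]
  exact h1.tsum_ofReal_ne_top

lemma EE_null_of_large (S : Sys) {s : ℝ} (hs : 1 / 2 < s) : ∃ K : ℕ, 1 ≤ K ∧
    ∀ a : ℕ → ℕ, (∀ i, 1 ≤ a i) →
      μH[s] (EE S fun i j => if j = 0 then a i else K + (j - 1)) = 0 := by
  have hs0 : 0 < s := by linarith
  set κ : ℝ≥0∞ := (1 / 2) ^ s with hκ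
  have hκ1 : κ < 1 := by
    rw [hκ]
    apply ENNReal.rpow_lt_one _ hs0
    rw [one_div]; exact ENNReal.inv_lt_one.2 (by norm_num)
  obtain ⟨θ, hθ1, hθ2⟩ := exists_between hκ1
  have hδ : 0 < θ - κ := tsub_pos_of_lt hθ1
  have h1 := ENNReal.tendsto_sum_nat_add _ (sum_F hs)
  have h2 := (ENNReal.tendsto_nhds_zero.1 h1) _ hδ
  obtain ⟨K, hK, hK1⟩ := (h2.and (eventually_ge_atTop 1)).exists
  refine ⟨K, hK1, fun a ha => ?_⟩
  have hg : ∀ i j, 1 ≤ (if j = 0 then a i else K + (j - 1)) := by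
    intro i j
    split_ifs
    · exact ha i
    · omega
  apply EE_null S hg hs0 hθ2
  intro i
  rw [tsum_eq_zero_add' ENNReal.summable]
  have h3 : ∀ j : ℕ, F (if j + 1 = 0 then a i else K + (j + 1 - 1)) ^ s = F (j + K) ^ s := by
    intro j
    rw [if_neg (by omega), Nat.add_sub_cancel, add_comm]
  simp only [h3, if_true]
  have h4 : F (a i) ^ s ≤ κ := ENNReal.rpow_le_rpow (F_le (ha i)) hs0.le
  calc F (a i) ^ s + ∑' j, F (j + K) ^ s ≤ κ + (θ - κ) := add_le_add h4 hK
    _ = θ := add_tsub_cancel_of_le hθ1.le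

section orbit

variable (S : Sys)

lemma T_mem {x : ℝ} (hx : x ∈ Ico (0 : ℝ) 1) : S.T x ∈ Ico (0 : ℝ) 1 := by
  rcases hx.1.lt_or_eq with h | h
  · exact (S.dig x ⟨h, hx.2⟩).2.2
  · rw [← h, S.zero]; exact ⟨le_refl _, zero_lt_one⟩

lemma iter_mem {x : ℝ} (hx : x ∈ Ico (0 : ℝ) 1) (n : ℕ) : S.T^[n] x ∈ Ico (0 : ℝ) 1 := by
  induction n with
  | zero => exact hx
  | succ n ih =>
    rw [Function.iterate_succ', Function.comp_apply]
    exact T_mem S ih

/-- digits of `z` -/
noncomputable def digs (z : ℝ) (i : ℕ) : ℕ := S.D (S.T^[i] z)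

lemma decode {z : ℝ} (m : ℕ) (hz : ∀ i < m, S.T^[i] z ∈ Ioo (0 : ℝ) 1) :
    V S.φ (hist (digs S z) m) (S.T^[m] z) = z := by
  induction m with
  | zero => rfl
  | succ m ih =>
    have h1 := (S.dig _ (hz m (Nat.lt_succ_self m))).2.1
    show V S.φ (hist (digs S z) m) (S.φ (digs S z m) (S.T^[m + 1] z)) = z
    rw [Function.iterate_succ', Function.comp_apply]
    show V S.φ (hist (digs S z) m) (S.φ (S.D (S.T^[m] z)) (S.T (S.T^[m] z))) = z
    rw [h1]
    exact ih fun i hi => hz i (by omega)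

/-- **Asymptotic sets have dimension at most one half.** -/
theorem dimH_AS_le {x : ℝ} (hx : x ∈ Ico (0 : ℝ) 1) {X : Set ℝ} (hX : X ⊆ Icc 0 1) :
    dimH (AS S.T X x) ≤ 1 / 2 := by
  have hmain : ∀ s : NNReal, (1 / 2 : NNReal) < s → dimH (AS S.T X x) ≤ s := by
    intro s hs
    have hs' : (1 / 2 : ℝ) < s := by
      have : ((1 / 2 : NNReal) : ℝ) < s := hs
      simpa using this
    obtain ⟨K, hK1, hK⟩ := EE_null_of_large S hs'
    obtain ⟨ε, hε, hclose⟩ := S.close K
    -- reference digits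
    let a : ℕ → ℕ := fun n => max 1 (digs S x n)
    let E : ℕ → Set ℝ := fun N => EE S fun i j => if j = 0 then a (N + i) else K + (j - 1)
    have hE : ∀ N, dimH (E N) ≤ s := by
      intro N
      apply dimH_le_of_hausdorffMeasure_ne_top
      rw [hK _ fun i => le_max_left _ _]
      exact ENNReal.zero_ne_top
    let Z : Set ℝ := range fun h : List ℕ => V S.φ h 0
    have hZ : Z.Countable := countable_range _
    let W : ℕ × {h : List ℕ // ∀ n ∈ h, 1 ≤ n} → Set ℝ := fun p => V S.φ p.2.1 '' (E p.1 ∩ Icc 0 1)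
    have hcover : AS S.T X x ⊆ ({1} ∪ Z) ∪ ⋃ p, W p := by
      rintro y ⟨hyX, hy⟩
      have hyI := hX hyX
      rcases hyI.2.lt_or_eq with hy1 | hy1
      swap
      · exact Or.inl (Or.inl hy1)
      have hyI' : y ∈ Ico (0 : ℝ) 1 := ⟨hyI.1, hy1⟩
      by_cases hz : ∃ n, S.T^[n] y = 0
      · left; right
        refine ⟨hist (digs S y) (Nat.find hz), ?_⟩
        have h1 := Nat.find_spec hz
        have h2 := decode S (z := y) (Nat.find hz) fun i hi => by
          have h3 := Nat.find_min hz hi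
          have h4 := iter_mem S hyI' i
          exact ⟨lt_of_le_of_ne h4.1 (Ne.symm h3), h4.2⟩
        rw [h1] at h2
        exact h2
      · push Not at hz
        right
        have hy0 : ∀ n, S.T^[n] y ∈ Ioo (0 : ℝ) 1 := fun n => by
          have h4 := iter_mem S hyI' n
          exact ⟨lt_of_le_of_ne h4.1 (Ne.symm (hz n)), h4.2⟩
        have h1 := hy.eventually (gt_mem_nhds hε)
        obtain ⟨N, hN⟩ := eventually_atTop.1 h1
        rw [mem_iUnion]
        have hdpos : ∀ z : ℝ, (∀ n, S.T^[n] z ∈ Ioo (0 : ℝ) 1) → ∀ n, 1 ≤ digs S z n :=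
          fun z hz n => (S.dig _ (hz n)).1
        refine ⟨(N, ⟨hist (digs S y) N, hist_pos (hdpos y hy0) N⟩), S.T^[N] y, ⟨?_, ?_⟩,
          decode S N fun i _ => hy0 i⟩
        · refine ⟨digs S (S.T^[N] y), fun i => ?_, fun m => ?_⟩
          · have e1 : digs S (S.T^[N] y) i = digs S y (N + i) := by
              unfold digs
              rw [← Function.iterate_add_apply, add_comm]
            have h2 := hN (N + i) (by omega)
            have h3 := hN (N + i + 1) (by omega)
            rw [Function.iterate_succ', Function.comp_apply, Function.comp_apply] at h3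
            rcases hclose _ (iter_mem S hx (N + i)) _ (hy0 (N + i)) h2 h3 with ⟨h4, h5⟩ | h4
            · refine ⟨0, ?_⟩
              show digs S (S.T^[N] y) i = max 1 (S.D (S.T^[N + i] x))
              rw [e1, ← h5, max_eq_right]
              · rfl
              · exact hdpos y hy0 (N + i)
            · refine ⟨digs S y (N + i) - K + 1, ?_⟩
              have h5 : K ≤ digs S y (N + i) := h4
              show digs S (S.T^[N] y) i = if digs S y (N + i) - K + 1 = 0 then a (N + i)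
                else K + (digs S y (N + i) - K + 1 - 1)
              rw [if_neg (by omega), e1]
              omega
          · refine ⟨S.T^[m] (S.T^[N] y), ?_, decode S m fun i _ => ?_⟩
            · rw [← Function.iterate_add_apply]
              exact ⟨(hy0 _).1.le, (hy0 _).2.le⟩
            · rw [← Function.iterate_add_apply]
              exact hy0 _
        · exact ⟨(hy0 N).1.le, (hy0 N).2.le⟩
    refine (dimH_mono hcover).trans ?_
    rw [dimH_union, dimH_iUnion]
    apply max_le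
    · rw [((countable_singleton 1).union hZ).dimH_zero]
      exact bot_le
    · apply iSup_le
      rintro ⟨N, h, hh⟩
      have hlip : LipschitzOnWith 1 (V S.φ h) (E N ∩ Icc 0 1) := by
        refine LipschitzOnWith.of_dist_le_mul fun y hy y' hy' => ?_
        rw [NNReal.coe_one, one_mul, Real.dist_eq, Real.dist_eq]
        exact S.V_lip hh hy.2 hy'.2
      exact hlip.dimH_image_le.trans ((dimH_mono inter_subset_left).trans (hE N))
  refine le_of_forall_gt_imp_ge_of_dense fun t ht => ?_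
  rcases eq_or_ne t ⊤ with h | h
  · rw [h]; exact le_top
  · lift t to NNReal using h
    apply hmain
    have e : (1 / 2 : ℝ≥0∞) = ((1 / 2 : NNReal) : ℝ≥0∞) := by
      rw [ENNReal.coe_div (by norm_num)]
      simp
    rw [e] at ht
    exact_mod_cast ht

end orbit

end Pool.Agent.Q187.Exp
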