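import Mathlib
import Pool.Agent.Q187.Exp.Upper

set_option autoImplicit false

/-!
# Points whose asymptotic set has Hausdorff dimension exactly one half
-/

open Filter Topology Set Pool.Agent.Q187.Code MeasureTheory MeasureTheory.Measure
open scoped ENNReal

namespace Pool.Agent.Q187.Exp

/-- `n` is the square of a positive integer -/
def Sq (n : ℕ) : Prop := 1 ≤ n ∧ Nat.sqrt n * Nat.sqrt n = n

instance : DecidablePred Sq := fun n => inferInstanceAs (Decidable (_ ∧ _))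

lemma sq_sq {m : ℕ} (hm : 1 ≤ m) : Sq (m * m) := by
  refine ⟨by nlinarith, ?_⟩
  rw [Nat.sqrt_eq]

lemma not_sq_between {m j : ℕ} (h1 : m * m < j) (h2 : j < (m + 1) * (m + 1)) : ¬ Sq j := by
  rintro ⟨-, h⟩
  have h3 : Nat.sqrt j = m := by
    rw [Nat.eq_sqrt.2 ⟨h1.le, h2⟩]
  rw [h3] at h
  omega

lemma not_sq_succ {n : ℕ} (h : Sq n) : ¬ Sq (n + 1) := by
  obtain ⟨h1, h2⟩ := h
  have hm : 1 ≤ Nat.sqrt n := by
    by_contra hcon
    have : Nat.sqrt n = 0 := by omega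
    rw [this] at h2
    omega
  apply not_sq_between (m := Nat.sqrt n)
  · omega
  · nlinarith

/-- sum of the positions of the squares below `n` -/
def Q (n : ℕ) : ℕ := ∑ j ∈ Finset.range n, if Sq j then j else 0

lemma Q_mono : Monotone Q := by
  apply monotone_nat_of_le_succ
  intro n
  unfold Q
  rw [Finset.sum_range_succ]
  exact Nat.le_add_right _ _

lemma Q_sq {r : ℕ} (hr : 1 ≤ r) : Q (r * r + 1) = Q (r * r) + r * r := by
  unfold Q
  rw [Finset.sum_range_succ, if_pos (sq_sq hr)]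

lemma Q_large (J : ℕ) : ∃ c : ℕ, ∀ n, J * n ≤ Q n + c := by
  set R : ℕ := 2 * J + 1 with hR
  set c : ℕ := J * ((R + 1) * (R + 1)) with hc
  have hblock : ∀ k, J * ((R + k + 1) * (R + k + 1)) ≤ Q ((R + k) * (R + k) + 1) + c := by
    intro k
    induction k with
    | zero => exact Nat.le_add_left _ _
    | succ k ih =>
      have h1 : Q ((R + k) * (R + k) + 1) ≤ Q ((R + (k + 1)) * (R + (k + 1))) := by
        apply Q_mono
        nlinarith
      rw [Q_sq (by omega)]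
      have h2 : J * ((R + (k + 1) + 1) * (R + (k + 1) + 1))
          ≤ J * ((R + k + 1) * (R + k + 1)) + (R + (k + 1)) * (R + (k + 1)) := by
        have h3 : (R + (k + 1) + 1) * (R + (k + 1) + 1)
            = (R + k + 1) * (R + k + 1) + (2 * (R + k + 1) + 1) := by ring
        rw [h3, mul_add]
        have h4 : J * (2 * (R + k + 1) + 1) ≤ (R + (k + 1)) * (R + (k + 1)) := by
          have h5 : 2 * J + 1 ≤ R + k + 1 := by omega
          nlinarith
        omega
      omega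
  refine ⟨c, fun n => ?_⟩
  rcases Nat.lt_or_ge ((R + 1) * (R + 1)) n with h | h
  swap
  · calc J * n ≤ J * ((R + 1) * (R + 1)) := Nat.mul_le_mul_left _ h
      _ ≤ Q n + c := Nat.le_add_left _ _
  · set r := Nat.sqrt (n - 1) with hr
    have h1 : r * r ≤ n - 1 := Nat.sqrt_le _
    have h2 : n - 1 < (r + 1) * (r + 1) := Nat.lt_succ_sqrt (n - 1)
    have h3 : R ≤ r := by
      by_contra hcon
      have h4 : r + 1 ≤ R := by omega
      have h5 := Nat.mul_le_mul h4 h4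
      have h6 : R * R + 1 ≤ (R + 1) * (R + 1) := by nlinarith
      omega
    obtain ⟨k, hk⟩ := Nat.exists_eq_add_of_le h3
    have h4 := hblock k
    rw [← hk] at h4
    have h5 : Q (r * r + 1) ≤ Q n := Q_mono (by omega)
    have h6 : J * n ≤ J * ((r + 1) * (r + 1)) := Nat.mul_le_mul_left _ (by omega)
    omega

/-- digit sequences with large digits at the squares -/
structure Good (B : ℕ) (a : ℕ → ℕ) : Prop where
  pos : ∀ n, 1 ≤ a n
  bdd : ∀ n, ¬ Sq n → a n ≤ B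
  large : ∀ n, Sq n → a n = Nat.sqrt n + 1

section lower

variable {B : ℕ} {a : ℕ → ℕ}

/-- number of admissible digits -/
def KK (h : List ℕ) : ℕ := if Sq h.length then 2 ^ h.length else 1

/-- new digits -/
def dec (a c : ℕ → ℕ) (n : ℕ) : ℕ := if Sq n then 2 ^ n + c n else a n

lemma adm_iff (c : ℕ → ℕ) : Adm KK c ↔ ∀ n, c n < if Sq n then 2 ^ n else 1 := by
  unfold Adm KK
  simp only [hist_length]

lemma dec_pos (ha : Good B a) (c : ℕ → ℕ) (n : ℕ) : 1 ≤ dec a c n := by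
  unfold dec
  split_ifs
  · have := Nat.one_le_two_pow (n := n)
    omega
  · exact ha.pos n

lemma exists_sq (n : ℕ) : ∃ j, Sq (n + j) := by
  refine ⟨(n + 1) * (n + 1) - n, ?_⟩
  have : n + ((n + 1) * (n + 1) - n) = (n + 1) * (n + 1) := by
    have : n ≤ (n + 1) * (n + 1) := by nlinarith
    omega
  rw [this]
  exact sq_sq (by omega)

lemma sqrt_pos_of_sq {n : ℕ} (h : Sq n) : 1 ≤ Nat.sqrt n := by
  by_contra hcon
  have : Nat.sqrt n = 0 := by omega
  have h2 := h.2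
  rw [this] at h2
  have := h.1
  omega

lemma inf_a (ha : Good B a) (n : ℕ) : ∃ j, 2 ≤ a (n + j) := by
  obtain ⟨j, hj⟩ := exists_sq n
  refine ⟨j, ?_⟩
  rw [ha.large _ hj]
  have := sqrt_pos_of_sq hj
  omega

lemma inf_dec (c : ℕ → ℕ) (n : ℕ) : ∃ j, 2 ≤ dec a c (n + j) := by
  obtain ⟨j, hj⟩ := exists_sq n
  refine ⟨j, ?_⟩
  unfold dec
  rw [if_pos hj]
  have h1 : 2 ^ 1 ≤ 2 ^ (n + j) := Nat.pow_le_pow_right (by norm_num) hj.1
  omega

lemma tendsto_sqrt : Tendsto (fun n : ℕ => 1 / ((Nat.sqrt n : ℝ) + 1)) atTop (𝓝 0) := by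
  have h1 : Tendsto (fun n : ℕ => Nat.sqrt n) atTop atTop := by
    apply tendsto_atTop_mono' _ _ (tendsto_atTop_atTop_of_monotone (fun _ _ h => Nat.sqrt_le_sqrt h)
      fun b => ⟨b * b, by rw [Nat.sqrt_eq]⟩)
    exact Eventually.of_forall fun n => le_refl _
  exact (tendsto_one_div_add_atTop_nhds_zero_nat (𝕜 := ℝ)).comp h1

variable (S : Sys)

lemma mem_AS (ha : Good B a) (c : ℕ → ℕ) {X : Set ℝ} (hX : Ioo 0 1 ⊆ X) :
    S.pt (dec a c) ∈ AS S.T X (S.pt a) := by
  have hdp := dec_pos ha c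
  have hd1 : S.pt (dec a c) < 1 := by
    obtain ⟨j, hj⟩ := inf_dec (a := a) c 0
    rw [Nat.zero_add] at hj
    exact Sys.pt_lt_one j hdp hj
  refine ⟨hX ⟨Sys.pt_pos hdp, hd1⟩, ?_⟩
  refine squeeze_zero' (Eventually.of_forall fun n => abs_nonneg _) ?_ tendsto_sqrt
  filter_upwards [eventually_ge_atTop 1] with n hn
  rw [Sys.iter_pt ha.pos (inf_a ha) n, Sys.iter_pt hdp (inf_dec c) n]
  -- the next square
  set r := Nat.sqrt (n - 1) with hr
  have h1 : r * r ≤ n - 1 := Nat.sqrt_le _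
  have h2 : n - 1 < (r + 1) * (r + 1) := Nat.lt_succ_sqrt (n - 1)
  set m := r + 1 with hm
  obtain ⟨k, hk⟩ := Nat.exists_eq_add_of_le (show n ≤ m * m by omega)
  have hagree : hist (sh a n) k = hist (sh (dec a c) n) k := by
    apply hist_congr
    intro j hj
    show a (n + j) = dec a c (n + j)
    unfold dec
    rw [if_neg]
    apply not_sq_between (m := r)
    · omega
    · rw [← hm, hk]; omega
  have e1 := Sys.pt_eq (S := S) (Sys.sh_pos ha.pos n) k
  have e2 := Sys.pt_eq (S := S) (Sys.sh_pos hdp n) k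
  rw [Sys.sh_sh, ← hk] at e1 e2
  rw [e1, e2, ← hagree]
  refine (S.V_lip (hist_pos (Sys.sh_pos ha.pos n) k) (Sys.pt_mem (Sys.sh_pos ha.pos _))
    (Sys.pt_mem (Sys.sh_pos hdp _))).trans ?_
  have hsq : Sq (m * m) := sq_sq (by omega)
  have b1 := Sys.pt_le (S := S) (Sys.sh_pos ha.pos (m * m))
  have b2 := Sys.pt_le (S := S) (Sys.sh_pos hdp (m * m))
  have c1 : sh a (m * m) 0 = m + 1 := by
    show a (m * m + 0) = m + 1
    rw [add_zero, ha.large _ hsq, Nat.sqrt_eq]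
  have c2 : m + 1 ≤ sh (dec a c) (m * m) 0 := by
    show m + 1 ≤ dec a c (m * m + 0)
    rw [add_zero]
    unfold dec
    rw [if_pos hsq]
    have h3 : m * m < 2 ^ (m * m) := Nat.lt_two_pow_self
    nlinarith
  have hm1 : Nat.sqrt n ≤ m := by
    have : n ≤ m * m := by omega
    calc Nat.sqrt n ≤ Nat.sqrt (m * m) := Nat.sqrt_le_sqrt this
      _ = m := Nat.sqrt_eq m
  have hm1' : ((Nat.sqrt n : ℕ) : ℝ) ≤ m := by exact_mod_cast hm1
  have d1 : S.pt (sh a (m * m)) ≤ 1 / ((Nat.sqrt n : ℝ) + 1) := by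
    refine b1.trans ?_
    rw [c1]
    push_cast
    gcongr
  have d2 : S.pt (sh (dec a c) (m * m)) ≤ 1 / ((Nat.sqrt n : ℝ) + 1) := by
    refine b2.trans ?_
    have : ((m : ℝ) + 1) ≤ (sh (dec a c) (m * m) 0 : ℕ) := by exact_mod_cast c2
    apply one_div_le_one_div_of_le (by positivity)
    linarith
  have p1 := Sys.pt_pos (S := S) (Sys.sh_pos ha.pos (m * m))
  have p2 := Sys.pt_pos (S := S) (Sys.sh_pos hdp (m * m))
  rw [abs_le]
  constructor <;> linarith

lemma wt_eq (c : ℕ → ℕ) (n : ℕ) : wt (fun h _ => 1 / (KK h : ℝ)) c n = 1 / 2 ^ Q n := by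
  induction n with
  | zero => simp [wt, Q]
  | succ n ih =>
    rw [wt_succ, ih]
    unfold Q KK
    rw [Finset.sum_range_succ, hist_length]
    split_ifs with h
    · push_cast
      rw [pow_add, one_div_mul_one_div]
    · simp

lemma prod_bound (ha : Good B a) {β : ℕ} (hβ : B + 1 ≤ 2 ^ β) {c : ℕ → ℕ} (hc : Adm KK c) (n : ℕ) :
    ((hist (dec a c) n).map fun m : ℕ => ((m : ℝ) + 1) ^ 2).prod ≤ 2 ^ (2 * Q n + (2 * β + 2) * n) := by
  rw [adm_iff] at hc
  induction n with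
  | zero => simp [hist, Q]
  | succ n ih =>
    show ((dec a c n : ℝ) + 1) ^ 2 * ((hist (dec a c) n).map fun m : ℕ => ((m : ℝ) + 1) ^ 2).prod ≤ _
    have hpos : 0 ≤ ((hist (dec a c) n).map fun m : ℕ => ((m : ℝ) + 1) ^ 2).prod := by
      apply List.prod_nonneg
      intro x hx
      obtain ⟨m, -, rfl⟩ := List.mem_map.1 hx
      positivity
    have hQ : Q (n + 1) = Q n + if Sq n then n else 0 := by
      unfold Q; rw [Finset.sum_range_succ]
    have hcn := hc n
    by_cases h : Sq n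
    · rw [if_pos h] at hcn hQ
      have h1 : dec a c n + 1 ≤ 2 ^ (n + 1) := by
        unfold dec
        rw [if_pos h, pow_succ]
        omega
      have h2 : ((dec a c n : ℝ) + 1) ^ 2 ≤ 2 ^ (2 * n + 2) := by
        have : ((dec a c n : ℝ) + 1) ≤ 2 ^ (n + 1) := by exact_mod_cast h1
        calc ((dec a c n : ℝ) + 1) ^ 2 ≤ (2 ^ (n + 1)) ^ 2 := by gcongr
          _ = 2 ^ (2 * n + 2) := by rw [← pow_mul]; congr 1; ring
      calc _ ≤ (2 : ℝ) ^ (2 * n + 2) * 2 ^ (2 * Q n + (2 * β + 2) * n) := by gcongr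
        _ = 2 ^ (2 * n + 2 + (2 * Q n + (2 * β + 2) * n)) := (pow_add _ _ _).symm
        _ ≤ 2 ^ (2 * Q (n + 1) + (2 * β + 2) * (n + 1)) := by
            apply pow_le_pow_right₀ (by norm_num)
            rw [hQ]
            nlinarith
    · rw [if_neg h] at hcn hQ
      have h1 : dec a c n + 1 ≤ 2 ^ β := by
        unfold dec
        rw [if_neg h]
        have := ha.bdd n h
        omega
      have h2 : ((dec a c n : ℝ) + 1) ^ 2 ≤ 2 ^ (2 * β) := by
        have : ((dec a c n : ℝ) + 1) ≤ 2 ^ β := by exact_mod_cast h1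
        calc ((dec a c n : ℝ) + 1) ^ 2 ≤ (2 ^ β) ^ 2 := by gcongr
          _ = 2 ^ (2 * β) := by rw [← pow_mul]; congr 1; ring
      calc _ ≤ (2 : ℝ) ^ (2 * β) * 2 ^ (2 * Q n + (2 * β + 2) * n) := by gcongr
        _ = 2 ^ (2 * β + (2 * Q n + (2 * β + 2) * n)) := (pow_add _ _ _).symm
        _ ≤ 2 ^ (2 * Q (n + 1) + (2 * β + 2) * (n + 1)) := by
            apply pow_le_pow_right₀ (by norm_num)
            rw [hQ]
            nlinarith

lemma dist_bound (ha : Good B a) {β : ℕ} (hβ : B + 1 ≤ 2 ^ β) {c c' : ℕ → ℕ} (hc : Adm KK c)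
    (hc' : Adm KK c') {n : ℕ} (heq : ∀ j < n, c j = c' j) (hne : c n ≠ c' n) :
    1 / 2 ^ (2 * Q n + (2 * β + 4) * n + (β + 4)) ≤ |S.pt (dec a c) - S.pt (dec a c')| := by
  have hsq : Sq n := by
    by_contra h
    have h1 := (adm_iff c).1 hc n
    have h2 := (adm_iff c').1 hc' n
    rw [if_neg h] at h1 h2
    omega
  have hp := dec_pos ha c
  have hp' := dec_pos ha c'
  have hhist : hist (dec a c) n = hist (dec a c') n := by
    apply hist_congr
    intro j hj
    unfold dec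
    rw [heq j hj]
  have hns := not_sq_succ hsq
  have hB1 : (0 : ℝ) < (B : ℝ) + 1 := by positivity
  have hδ : ∀ c : ℕ → ℕ, 1 / ((B : ℝ) + 1) ≤ S.pt (sh (dec a c) (n + 1)) := by
    intro c
    refine le_trans ?_ (Sys.pt_ge (Sys.sh_pos (dec_pos ha c) (n + 1)))
    have : dec a c (n + 1) ≤ B := by
      unfold dec
      rw [if_neg hns]
      exact ha.bdd _ hns
    have h3 : ((sh (dec a c) (n + 1) 0 : ℕ) : ℝ) ≤ B := by exact_mod_cast this
    gcongr
  have hM : ∀ c : ℕ → ℕ, Adm KK c → (dec a c n : ℝ) ≤ 2 ^ (n + 1) := by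
    intro c hc
    have h1 := (adm_iff c).1 hc n
    rw [if_pos hsq] at h1
    have : dec a c n ≤ 2 ^ (n + 1) := by
      unfold dec
      rw [if_pos hsq, pow_succ]
      omega
    exact_mod_cast this
  have hne' : dec a c n ≠ dec a c' n := by
    unfold dec
    rw [if_pos hsq, if_pos hsq]
    omega
  have h1 := Sys.dist_pt (S := S) hp hp' hne' (by positivity : (0 : ℝ) ≤ 1 / ((B : ℝ) + 1)) (hδ c)
    (hδ c') (hM c hc) (hM c' hc')
  have h2 := S.V_low (hist_pos hp n) (Sys.pt_mem (S := S) (Sys.sh_pos hp n))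
    (Sys.pt_mem (S := S) (Sys.sh_pos hp' n))
  rw [Sys.pt_eq hp n, Sys.pt_eq hp' n, ← hhist]
  refine le_trans ?_ h2
  have h3 := prod_bound ha hβ hc n
  have hpos : 0 < ((hist (dec a c) n).map fun m : ℕ => ((m : ℝ) + 1) ^ 2).prod := by
    apply List.prod_pos
    intro x hx
    obtain ⟨m, -, rfl⟩ := List.mem_map.1 hx
    positivity
  rw [div_le_div_iff₀ (by positivity) hpos, one_mul]
  have h4 : (1 : ℝ) / 2 ^ (2 * n + (β + 4)) ≤ |S.pt (sh (dec a c) n) - S.pt (sh (dec a c') n)| := by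
    refine le_trans ?_ h1
    rw [div_div]
    have h5 : ((B : ℝ) + 1) ≤ 2 ^ β := by exact_mod_cast hβ
    have h6 : ((2 : ℝ) ^ (n + 1) + 2) ^ 2 ≤ 2 ^ (2 * n + 4) := by
      have h7 : (2 : ℝ) ^ (n + 1) + 2 ≤ 2 ^ (n + 2) := by
        have : (2 : ℝ) ≤ 2 ^ (n + 1) := by
          calc (2 : ℝ) = 2 ^ 1 := by norm_num
            _ ≤ 2 ^ (n + 1) := pow_le_pow_right₀ (by norm_num) (by omega)
        rw [pow_succ (2 : ℝ) (n + 1)]
        linarith
      calc ((2 : ℝ) ^ (n + 1) + 2) ^ 2 ≤ (2 ^ (n + 2)) ^ 2 := by gcongr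
        _ = 2 ^ (2 * n + 4) := by rw [← pow_mul]; congr 1; ring
    apply one_div_le_one_div_of_le (by positivity)
    calc ((B : ℝ) + 1) * (2 ^ (n + 1) + 2) ^ 2 ≤ 2 ^ β * 2 ^ (2 * n + 4) := by gcongr
      _ = 2 ^ (2 * n + (β + 4)) := by rw [← pow_add]; congr 1; ring
  calc _ ≤ (2 : ℝ) ^ (2 * Q n + (2 * β + 2) * n) := h3
    _ = 1 / 2 ^ (2 * n + (β + 4)) * 2 ^ (2 * Q n + (2 * β + 4) * n + (β + 4)) := by
        rw [one_div, inv_mul_eq_div, eq_div_iff (by positivity), ← pow_add]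
        congr 1
        ring
    _ ≤ _ := by gcongr

theorem le_dimH_AS (ha : Good B a) {X : Set ℝ} (hX : Ioo 0 1 ⊆ X) :
    1 / 2 ≤ dimH (AS S.T X (S.pt a)) := by
  have hmain : ∀ σ : NNReal, 0 < σ → σ < 1 / 2 → (σ : ℝ≥0∞) ≤ dimH (AS S.T X (S.pt a)) := by
    intro σ hσ0 hσ
    have hσ0' : (0 : ℝ) < σ := hσ0
    have hσ' : (σ : ℝ) < 1 / 2 := by
      have : (σ : ℝ) < ((1 / 2 : NNReal) : ℝ) := hσ
      simpa using this
    obtain ⟨β, hβ⟩ : ∃ β : ℕ, B + 1 ≤ 2 ^ β := ⟨B + 1, (Nat.lt_two_pow_self).le⟩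
    set A : ℕ := 2 * β + 4 with hA
    obtain ⟨J, hJ⟩ := exists_nat_gt ((σ : ℝ) * A / (1 - 2 * (σ : ℝ)))
    have h12 : (0 : ℝ) < 1 - 2 * σ := by linarith
    rw [div_lt_iff₀ h12] at hJ
    obtain ⟨c₀, hc₀⟩ := Q_large J
    set CC : NNReal := Real.toNNReal ((2 : ℝ) ^ ((σ : ℝ) * A + (1 - 2 * σ) * c₀)) with hCC
    have hCC' : (CC : ℝ) = (2 : ℝ) ^ ((σ : ℝ) * A + (1 - 2 * σ) * c₀) :=
      Real.coe_toNNReal _ (by positivity)
    refine le_trans ?_ (dimH_mono (s := (fun c => S.pt (dec a c)) '' {c | Adm KK c}) ?_)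
    swap
    · rintro _ ⟨c, -, rfl⟩
      exact mem_AS S ha c hX
    refine dim_ge (w := fun h _ => 1 / (KK h : ℝ)) (K := KK) (fun h i hi => ?_) (fun h => ?_)
      (fun c => S.pt (dec a c)) σ hσ0 CC (fun c hc => ?_) (fun c c' hc hc' n heq hne => ?_)
    · have : 0 < KK h := by omega
      positivity
    · unfold PS
      rw [Finset.sum_const, Finset.card_range, nsmul_eq_mul]
      have : 0 < KK h := by
        unfold KK
        split_ifs <;> positivity
      field_simp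
    · simp only [wt_eq]
      have h1 : Tendsto (fun n => Q n) atTop atTop := by
        obtain ⟨c, hc⟩ := Q_large 1
        refine tendsto_atTop.2 fun b => ?_
        filter_upwards [eventually_ge_atTop (b + c)] with n hn
        have := hc n
        omega
      have h2 := (tendsto_pow_atTop_nhds_zero_of_lt_one (r := (1 / 2 : ℝ)) (by norm_num)
        (by norm_num)).comp h1
      refine h2.congr fun n => ?_
      simp
    · rw [wt_eq, Real.dist_eq]
      have h1 := dist_bound S ha hβ hc hc' heq hne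
      have h2 : (1 / 2 ^ (2 * Q n + A * n + (β + 4)) : ℝ) ^ (σ : ℝ)
          ≤ |S.pt (dec a c) - S.pt (dec a c')| ^ (σ : ℝ) :=
        Real.rpow_le_rpow (by positivity) h1 hσ0'.le
      refine le_trans ?_ (mul_le_mul_of_nonneg_left h2 (by positivity))
      rw [hCC']
      have e1 : (1 / 2 ^ Q n : ℝ) = 2 ^ (-(Q n : ℝ)) := by
        rw [Real.rpow_neg (by norm_num), Real.rpow_natCast, one_div]
      have e2 : (1 / 2 ^ (2 * Q n + A * n + (β + 4)) : ℝ) ^ (σ : ℝ)
          = 2 ^ (-((σ : ℝ) * (2 * Q n + A * n + (β + 4)))) := by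
        rw [Real.div_rpow (by norm_num) (by positivity), Real.one_rpow, ← Real.rpow_natCast,
          ← Real.rpow_mul (by norm_num), one_div, ← Real.rpow_neg (by norm_num)]
        congr 1
        push_cast
        ring
      rw [e1, e2, ← Real.rpow_add (by norm_num)]
      apply Real.rpow_le_rpow_of_exponent_le (by norm_num)
      have h3 : (J : ℝ) * n ≤ Q n + c₀ := by exact_mod_cast hc₀ n
      have hn : (0 : ℝ) ≤ n := by positivity
      have h4 : (σ : ℝ) * A * n ≤ (1 - 2 * σ) * (Q n + c₀) := by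
        calc (σ : ℝ) * A * n ≤ (J * (1 - 2 * σ)) * n := by gcongr
          _ = (1 - 2 * σ) * (J * n) := by ring
          _ ≤ _ := by gcongr
      have hA' : ((β : ℝ) + 4) ≤ A := by
        rw [hA]; push_cast; nlinarith [(Nat.cast_nonneg β : (0 : ℝ) ≤ β)]
      nlinarith
  refine le_of_forall_lt_imp_le_of_dense fun t ht => ?_
  have htt : t ≠ ⊤ := (ht.trans_le le_top).ne
  lift t to NNReal using htt
  have e : (1 / 2 : ℝ≥0∞) = ((1 / 2 : NNReal) : ℝ≥0∞) := by
    rw [ENNReal.coe_div (by norm_num)]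
    simp
  rw [e] at ht
  have ht' : t < 1 / 2 := by exact_mod_cast ht
  rcases eq_or_ne t 0 with h | h
  · rw [h]; exact bot_le
  · exact hmain t (pos_iff_ne_zero.2 h) ht'

/-- **The asymptotic set has dimension exactly one half.** -/
theorem dimH_AS_eq (ha : Good B a) {X : Set ℝ} (hX : Ioo 0 1 ⊆ X) (hX' : X ⊆ Icc 0 1) :
    dimH (AS S.T X (S.pt a)) = 1 / 2 := by
  refine le_antisymm (dimH_AS_le S ⟨(Sys.pt_pos ha.pos).le, ?_⟩ hX') (le_dimH_AS S ha hX)
  obtain ⟨j, hj⟩ := inf_a ha 0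
  rw [Nat.zero_add] at hj
  exact Sys.pt_lt_one j ha.pos hj

end lower

end Pool.Agent.Q187.Exp
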