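import Mathlib
import Pool.Agent.Q187.Exp.Lower

set_option autoImplicit false

/-!
# The points with large digits at the squares have full Hausdorff dimension
-/

open Filter Topology Set Pool.Agent.Q187.Code MeasureTheory MeasureTheory.Measure
open scoped ENNReal

namespace Pool.Agent.Q187.Exp

/-- counting exponent -/
def Phi (n : ℕ) : ℕ := ∑ j ∈ Finset.range n, if Sq j then 2 * Nat.sqrt j - 1 else 0

lemma Phi_succ (n : ℕ) : Phi (n + 1) = Nat.sqrt n * Nat.sqrt n := by
  induction n with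
  | zero => decide
  | succ n ih =>
    have h1 : Phi (n + 1 + 1) = Phi (n + 1) + if Sq (n + 1) then 2 * Nat.sqrt (n + 1) - 1 else 0 := by
      unfold Phi
      rw [Finset.sum_range_succ _ (n + 1)]
    rw [h1, ih]
    set r := Nat.sqrt n with hr
    have h2 : r * r ≤ n := Nat.sqrt_le _
    have h3 : n < (r + 1) * (r + 1) := Nat.lt_succ_sqrt n
    rcases Nat.lt_or_ge (n + 1) ((r + 1) * (r + 1)) with h | h
    · have h4 : Nat.sqrt (n + 1) = r := by
        rw [Nat.eq_sqrt.2 ⟨by omega, h⟩]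
      rw [if_neg (not_sq_between (m := r) (by omega) h), h4, add_zero]
    · have h5 : n + 1 = (r + 1) * (r + 1) := by omega
      have h4 : Nat.sqrt (n + 1) = r + 1 := by rw [h5, Nat.sqrt_eq]
      have h6 : Sq (n + 1) := by rw [h5]; exact sq_sq (by omega)
      rw [if_pos h6, h4]
      have : 2 * (r + 1) - 1 = 2 * r + 1 := by omega
      rw [this]
      ring

lemma Phi_le (n : ℕ) : Phi n ≤ n := by
  cases n with
  | zero => simp [Phi]
  | succ n =>
    rw [Phi_succ]
    have := Nat.sqrt_le n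
    omega

/-- product of the losses at the squares -/
noncomputable def RR (n : ℕ) : ℝ :=
  ∏ j ∈ Finset.range n, if Sq j then 2 * ((Nat.sqrt j : ℝ) + 2) ^ 2 else 1

lemma RR_succ (n : ℕ) : RR (n + 1) = RR n * if Sq n then 2 * ((Nat.sqrt n : ℝ) + 2) ^ 2 else 1 := by
  unfold RR
  rw [Finset.prod_range_succ]

lemma RR_pos (n : ℕ) : 0 < RR n := by
  unfold RR
  apply Finset.prod_pos
  intro j _
  split_ifs <;> positivity

lemma factor_ge (j : ℕ) : (1 : ℝ) ≤ if Sq j then 2 * ((Nat.sqrt j : ℝ) + 2) ^ 2 else 1 := by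
  split_ifs
  · have : (0 : ℝ) ≤ (Nat.sqrt j : ℝ) := by positivity
    nlinarith
  · exact le_refl _

lemma RR_bound (η : ℝ) (h0 : 0 < η) (h1 : η < 1) : ∃ C : ℝ, 0 < C ∧ ∀ n, RR n * η ^ n ≤ C := by
  -- the factor at the square of `i` is at most `η ^ (1 - 2 i)` for large `i`
  have hlim : Tendsto (fun i : ℕ => (i : ℝ) ^ 2 * (η ^ 2) ^ i) atTop (𝓝 0) := by
    apply tendsto_pow_const_mul_const_pow_of_abs_lt_one
    rw [abs_of_pos (by positivity)]
    nlinarith
  have hev := (hlim.eventually (gt_mem_nhds (show (0 : ℝ) < η / 18 by positivity))).and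
    (eventually_ge_atTop 1)
  obtain ⟨i₀, hi₀⟩ := eventually_atTop.1 hev
  have hfac : ∀ j, i₀ * i₀ ≤ j → (if Sq j then 2 * ((Nat.sqrt j : ℝ) + 2) ^ 2 else 1)
      ≤ (1 / η) ^ (if Sq j then 2 * Nat.sqrt j - 1 else 0) := by
    intro j hj
    split_ifs with h
    · have h2 : i₀ ≤ Nat.sqrt j := by
        rw [Nat.le_sqrt]; exact hj
      obtain ⟨h3, h4⟩ := hi₀ _ h2
      set i := Nat.sqrt j with hi
      have hi1 : (1 : ℝ) ≤ i := by exact_mod_cast h4
      have h5 : (1 / η) ^ (2 * i - 1) = η / (η ^ 2) ^ i := by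
        rw [one_div, inv_pow, ← pow_mul]
        have : η ^ (2 * i) = η ^ (2 * i - 1) * η := by
          rw [← pow_succ]; congr 1; omega
        rw [this]
        field_simp
      rw [h5, le_div_iff₀ (by positivity)]
      have h6 : 2 * ((i : ℝ) + 2) ^ 2 ≤ 18 * (i : ℝ) ^ 2 := by nlinarith
      calc 2 * ((i : ℝ) + 2) ^ 2 * (η ^ 2) ^ i ≤ 18 * (i : ℝ) ^ 2 * (η ^ 2) ^ i := by gcongr
        _ = 18 * ((i : ℝ) ^ 2 * (η ^ 2) ^ i) := by ring
        _ ≤ 18 * (η / 18) := by gcongr
        _ = η := by ring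
    · simp
  have hη1 : 1 ≤ 1 / η := by rw [le_div_iff₀ h0]; linarith
  have hbound : ∀ n, RR n ≤ RR (i₀ * i₀) * (1 / η) ^ Phi n := by
    intro n
    rcases le_total n (i₀ * i₀) with hn | hn
    · have h2 : RR n ≤ RR (i₀ * i₀) := by
        obtain ⟨k, hk⟩ := Nat.exists_eq_add_of_le hn
        rw [hk]
        clear hk
        induction k with
        | zero => exact le_refl _
        | succ k ih =>
          rw [← add_assoc, RR_succ]
          have := factor_ge (n + k)
          nlinarith [RR_pos (n + k)]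
      calc RR n ≤ RR (i₀ * i₀) * 1 := by rw [mul_one]; exact h2
        _ ≤ _ := mul_le_mul_of_nonneg_left (one_le_pow₀ hη1) (RR_pos _).le
    · obtain ⟨k, hk⟩ := Nat.exists_eq_add_of_le hn
      rw [hk]
      clear hk hn
      induction k with
      | zero =>
        rw [add_zero]
        calc RR (i₀ * i₀) = RR (i₀ * i₀) * 1 := (mul_one _).symm
          _ ≤ _ := mul_le_mul_of_nonneg_left (one_le_pow₀ hη1) (RR_pos _).le
      | succ k ih =>
        rw [← add_assoc, RR_succ]
        have h2 : Phi (i₀ * i₀ + k + 1) = Phi (i₀ * i₀ + k)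
            + if Sq (i₀ * i₀ + k) then 2 * Nat.sqrt (i₀ * i₀ + k) - 1 else 0 := by
          unfold Phi
          rw [Finset.sum_range_succ]
        rw [h2, pow_add, ← mul_assoc]
        exact mul_le_mul ih (hfac _ (by omega)) (zero_le_one.trans (factor_ge _))
          (mul_nonneg (RR_pos _).le (by positivity))
  refine ⟨RR (i₀ * i₀), RR_pos _, fun n => ?_⟩
  calc RR n * η ^ n ≤ RR (i₀ * i₀) * (1 / η) ^ Phi n * η ^ n := by
        gcongr; exact hbound n
    _ ≤ RR (i₀ * i₀) * (1 / η) ^ n * η ^ n := by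
        have := RR_pos (i₀ * i₀)
        gcongr
        exact Phi_le n
    _ = RR (i₀ * i₀) := by
        rw [mul_assoc, ← mul_pow, one_div, inv_mul_cancel₀ h0.ne', one_pow, mul_one]

section full

variable (S : Sys) (B : ℕ)

/-- digits from codes -/
def dd (c : ℕ → ℕ) (n : ℕ) : ℕ := if Sq n then Nat.sqrt n + 1 else c n + 1

/-- list of digits from list of codes -/
def Hd : List ℕ → List ℕ
  | [] => []
  | i :: h => (if Sq h.length then Nat.sqrt h.length + 1 else i + 1) :: Hd h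

lemma Hd_hist (c : ℕ → ℕ) (n : ℕ) : Hd (hist c n) = hist (dd c) n := by
  induction n with
  | zero => rfl
  | succ n ih =>
    show (if Sq (hist c n).length then Nat.sqrt (hist c n).length + 1 else c n + 1) :: Hd (hist c n)
      = dd c n :: hist (dd c) n
    rw [ih, hist_length]
    rfl

lemma Hd_pos (h : List ℕ) : ∀ m ∈ Hd h, 1 ≤ m := by
  induction h with
  | nil => simp [Hd]
  | cons i h ih =>
    intro m hm
    simp only [Hd, List.mem_cons] at hm
    rcases hm with rfl | hm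
    · split_ifs <;> omega
    · exact ih m hm

/-- number of codes -/
def KB (h : List ℕ) : ℕ := if Sq h.length then 1 else B

/-- weights -/
noncomputable def wB (h : List ℕ) (i : ℕ) : ℝ :=
  if Sq h.length then 1 else S.len ((i + 1) :: Hd h) / ∑ j ∈ Finset.range B, S.len ((j + 1) :: Hd h)

lemma dd_pos (c : ℕ → ℕ) (n : ℕ) : 1 ≤ dd c n := by
  unfold dd; split_ifs <;> omega

variable {B}

lemma sum_pos (hB : 1 ≤ B) (h : List ℕ) :
    0 < ∑ j ∈ Finset.range B, S.len ((j + 1) :: Hd h) := by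
  apply Finset.sum_pos
  · intro j _
    apply S.len_pos
    intro m hm
    rcases List.mem_cons.1 hm with rfl | hm
    · omega
    · exact Hd_pos h m hm
  · exact ⟨0, Finset.mem_range.2 (by omega)⟩

lemma wB_pos (hB : 1 ≤ B) (h : List ℕ) (i : ℕ) : 0 < wB S B h i := by
  unfold wB
  split_ifs
  · exact one_pos
  · apply div_pos _ (sum_pos S hB h)
    apply S.len_pos
    intro m hm
    rcases List.mem_cons.1 hm with rfl | hm
    · omega
    · exact Hd_pos h m hm

lemma wB_sum (hB : 1 ≤ B) (h : List ℕ) : PS (wB S B) h (KB B h) = 1 := by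
  unfold PS KB wB
  split_ifs
  · simp
  · rw [← Finset.sum_div, div_self (sum_pos S hB h).ne']

lemma wt_bound (hB : 2 ≤ B) (c : ℕ → ℕ) (n : ℕ) :
    wt (wB S B) c n * (1 - 2 / ((B : ℝ) + 1)) ^ n ≤ S.len (hist (dd c) n) * RR n := by
  have hB' : (2 : ℝ) ≤ B := by exact_mod_cast hB
  set κ : ℝ := 1 - 2 / ((B : ℝ) + 1) with hκ
  have hκ0 : 0 < κ := by
    have : 2 / ((B : ℝ) + 1) < 1 := by rw [div_lt_one (by linarith)]; linarith
    linarith
  have hκ1 : κ ≤ 1 := by
    have : 0 < 2 / ((B : ℝ) + 1) := by positivity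
    linarith
  induction n with
  | zero =>
    have : S.len (hist (dd c) 0) = 1 := by
      show |(0 : ℝ) - 1| = 1
      norm_num
    rw [this]
    simp [wt, RR]
  | succ n ih =>
    have hpos := hist_pos (dd_pos c) n
    have hlen := S.len_pos hpos
    have hlen' := S.len_pos (hist_pos (dd_pos c) (n + 1))
    rw [wt_succ, RR_succ]
    have hwt : 0 ≤ wt (wB S B) c n := Finset.prod_nonneg fun j _ => (wB_pos S (by omega) _ _).le
    by_cases h : Sq n
    · have h1 : wB S B (hist c n) (c n) = 1 := by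
        unfold wB
        rw [hist_length, if_pos h]
      rw [h1, mul_one, if_pos h, pow_succ]
      have h2 := S.len_cons (n := Nat.sqrt n + 1) (by omega) hpos
      have h3 : hist (dd c) (n + 1) = (Nat.sqrt n + 1) :: hist (dd c) n := by
        show dd c n :: hist (dd c) n = _
        unfold dd
        rw [if_pos h]
      rw [h3]
      push_cast at h2
      have h4 : (Nat.sqrt n : ℝ) + 1 + 1 = Nat.sqrt n + 2 := by ring
      rw [h4] at h2
      calc wt (wB S B) c n * (κ ^ n * κ) = (wt (wB S B) c n * κ ^ n) * κ := by ring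
        _ ≤ (wt (wB S B) c n * κ ^ n) * 1 := by gcongr
        _ ≤ S.len (hist (dd c) n) * RR n := by rw [mul_one]; exact ih
        _ ≤ (2 * ((Nat.sqrt n : ℝ) + 2) ^ 2 * S.len ((Nat.sqrt n + 1) :: hist (dd c) n)) * RR n := by
            have := (RR_pos n).le
            gcongr
        _ = _ := by ring
    · have h1 : wB S B (hist c n) (c n) = S.len (hist (dd c) (n + 1))
          / ∑ j ∈ Finset.range B, S.len ((j + 1) :: hist (dd c) n) := by
        unfold wB
        rw [hist_length, if_neg h, Hd_hist]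
        congr 2
        show (c n + 1) :: hist (dd c) n = dd c n :: hist (dd c) n
        unfold dd
        rw [if_neg h]
      rw [h1, if_neg h, mul_one, pow_succ]
      have h2 : κ * S.len (hist (dd c) n) ≤ ∑ j ∈ Finset.range B, S.len ((j + 1) :: hist (dd c) n) :=
        S.sum _ hpos B
      set SS := ∑ j ∈ Finset.range B, S.len ((j + 1) :: hist (dd c) n) with hSS
      have h3 : 0 < SS := lt_of_lt_of_le (by positivity) h2
      calc wt (wB S B) c n * (S.len (hist (dd c) (n + 1)) / SS) * (κ ^ n * κ)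
          = (wt (wB S B) c n * κ ^ n) * (κ / SS) * S.len (hist (dd c) (n + 1)) := by ring
        _ ≤ (S.len (hist (dd c) n) * RR n) * (κ / SS) * S.len (hist (dd c) (n + 1)) := by gcongr
        _ = (κ * S.len (hist (dd c) n) / SS) * (S.len (hist (dd c) (n + 1)) * RR n) := by ring
        _ ≤ 1 * (S.len (hist (dd c) (n + 1)) * RR n) := by
            have h4 : κ * S.len (hist (dd c) n) / SS ≤ 1 := by rw [div_le_one h3]; exact h2
            have := (RR_pos n).le
            gcongr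
        _ = _ := one_mul _

lemma dist_low {c c' : ℕ → ℕ} (hc : Adm (KB B) c) (hc' : Adm (KB B) c') {n : ℕ}
    (heq : ∀ j < n, c j = c' j) (hne : c n ≠ c' n) :
    S.len (hist (dd c) n) / (2 * ((B : ℝ) + 2) ^ 2 * ((B : ℝ) + n + 3)) ≤
      |S.pt (dd c) - S.pt (dd c')| := by
  have hadm : ∀ c, Adm (KB B) c → ∀ n, c n < if Sq n then 1 else B := by
    intro c hc n
    have := hc n
    unfold KB at this
    rwa [hist_length] at this
  have h1 := hadm c hc
  have h2 := hadm c' hc'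
  have hsq : ¬ Sq n := by
    intro h
    have h3 := h1 n
    have h4 := h2 n
    rw [if_pos h] at h3 h4
    omega
  have hhist : hist (dd c) n = hist (dd c') n := by
    apply hist_congr
    intro j hj
    unfold dd
    rw [heq j hj]
  have hδ : ∀ c, Adm (KB B) c → 1 / ((B : ℝ) + n + 3) ≤ S.pt (sh (dd c) (n + 1)) := by
    intro c hc
    refine le_trans ?_ (Sys.pt_ge (Sys.sh_pos (dd_pos c) (n + 1)))
    have h3 : dd c (n + 1) ≤ B + n + 2 := by
      unfold dd
      split_ifs with h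
      · have := Nat.sqrt_le_self (n + 1)
        omega
      · have := hadm c hc (n + 1)
        rw [if_neg h] at this
        omega
    have h4 : ((sh (dd c) (n + 1) 0 : ℕ) : ℝ) ≤ B + n + 2 := by exact_mod_cast h3
    apply one_div_le_one_div_of_le (by positivity)
    linarith
  have hM : ∀ c, Adm (KB B) c → (dd c n : ℝ) ≤ B := by
    intro c hc
    have h3 := hadm c hc n
    rw [if_neg hsq] at h3
    have : dd c n ≤ B := by
      unfold dd
      rw [if_neg hsq]
      omega
    exact_mod_cast this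
  have hne' : dd c n ≠ dd c' n := by
    unfold dd
    rw [if_neg hsq, if_neg hsq]
    omega
  have h3 := Sys.dist_pt (S := S) (dd_pos c) (dd_pos c') hne'
    (by positivity : (0 : ℝ) ≤ 1 / ((B : ℝ) + n + 3)) (hδ c hc) (hδ c' hc') (hM c hc) (hM c' hc')
  have h4 := S.dist _ (hist_pos (dd_pos c) n) _ (Sys.pt_mem (S := S) (Sys.sh_pos (dd_pos c) n)) _
    (Sys.pt_mem (S := S) (Sys.sh_pos (dd_pos c') n))
  rw [Sys.pt_eq (dd_pos c) n, Sys.pt_eq (dd_pos c') n, ← hhist]
  refine le_trans ?_ h4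
  have h5 := (S.len_pos (hist_pos (dd_pos c) n)).le
  calc S.len (hist (dd c) n) / (2 * ((B : ℝ) + 2) ^ 2 * ((B : ℝ) + n + 3))
      = S.len (hist (dd c) n) / 2 * (1 / ((B : ℝ) + n + 3) / ((B : ℝ) + 2) ^ 2) := by
        field_simp
    _ ≤ S.len (hist (dd c) n) / 2 * |S.pt (sh (dd c) n) - S.pt (sh (dd c') n)| := by gcongr
    _ = _ := rfl

lemma dd_good {c : ℕ → ℕ} (hc : Adm (KB B) c) : Good B (dd c) where
  pos := dd_pos c
  bdd := fun n h => by
    have := hc n
    unfold KB at this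
    rw [hist_length, if_neg h] at this
    unfold dd
    rw [if_neg h]
    omega
  large := fun n h => by
    unfold dd
    rw [if_pos h]

theorem le_dimH_good (σ : NNReal) (h0 : 0 < σ) (h1 : σ < 1) :
    ∃ B : ℕ, (σ : ℝ≥0∞) ≤ dimH {x | ∃ a, Good B a ∧ x = S.pt a} := by
  have h0' : (0 : ℝ) < σ := h0
  have h1' : (σ : ℝ) < 1 := h1
  set q : ℝ := (1 / 2) ^ (1 - (σ : ℝ)) with hq
  have hq0 : 0 < q := by positivity
  have hq1 : q < 1 := Real.rpow_lt_one (by norm_num) (by norm_num) (by linarith)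
  -- choice of `B`
  obtain ⟨B, hB2, hBq⟩ : ∃ B : ℕ, 2 ≤ B ∧ q < 1 - 2 / ((B : ℝ) + 1) := by
    obtain ⟨B, hB⟩ := exists_nat_gt (max 2 (2 / (1 - q)))
    have hb1 := (le_max_left _ _).trans_lt hB
    have hb2 := (le_max_right _ _).trans_lt hB
    refine ⟨B, by exact_mod_cast hb1.le, ?_⟩
    rw [div_lt_iff₀ (by linarith)] at hb2
    have : 2 / ((B : ℝ) + 1) < 1 - q := by
      rw [div_lt_iff₀ (by positivity)]
      nlinarith
    linarith
  set κ : ℝ := 1 - 2 / ((B : ℝ) + 1) with hκ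
  have hκ0 : 0 < κ := hq0.trans hBq
  set ϑ : ℝ := q / κ with hϑ
  have hϑ0 : 0 < ϑ := by positivity
  have hϑ1 : ϑ < 1 := (div_lt_one hκ0).2 hBq
  set η : ℝ := Real.sqrt ϑ with hη
  have hη0 : 0 < η := Real.sqrt_pos.2 hϑ0
  have hη1 : η < 1 := by
    rw [hη, Real.sqrt_lt' one_pos]
    simpa using hϑ1
  have hηsq : η * η = ϑ := Real.mul_self_sqrt hϑ0.le
  obtain ⟨C₁, hC₁, hR⟩ := RR_bound η hη0 hη1
  -- the linear factor
  obtain ⟨C₂, hC₂⟩ : ∃ C₂ : ℝ, ∀ n : ℕ, ((B : ℝ) + n + 3) * η ^ n ≤ C₂ := by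
    have hl : Tendsto (fun n : ℕ => ((B : ℝ) + 3) * η ^ n + (n : ℝ) * η ^ n) atTop
        (𝓝 (((B : ℝ) + 3) * 0 + 0)) :=
      ((tendsto_pow_atTop_nhds_zero_of_lt_one hη0.le hη1).const_mul _).add
        (tendsto_self_mul_const_pow_of_lt_one hη0.le hη1)
    obtain ⟨C₂, hC₂⟩ := hl.bddAbove_range
    refine ⟨C₂, fun n => ?_⟩
    have := hC₂ (mem_range_self n)
    have e : ((B : ℝ) + n + 3) * η ^ n = ((B : ℝ) + 3) * η ^ n + (n : ℝ) * η ^ n := by ring
    rw [e]; exact this
  have hC₂0 : 0 < C₂ := lt_of_lt_of_le (by positivity) (hC₂ 0)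
  set CC : ℝ := S.C ^ (1 - (σ : ℝ)) * C₁ * (2 * ((B : ℝ) + 2) ^ 2) * C₂ with hCC
  have hCC0 : 0 ≤ CC := by
    have := S.hC.le
    positivity
  have hS := S.hC
  -- main estimate
  have hmain : ∀ (c : ℕ → ℕ) (n : ℕ), wt (wB S B) c n ≤ CC *
      (S.len (hist (dd c) n) / (2 * ((B : ℝ) + 2) ^ 2 * ((B : ℝ) + n + 3))) ^ (σ : ℝ) := by
    intro c n
    have hpos := hist_pos (dd_pos c) n
    have hlen := S.len_pos hpos
    have hb := wt_bound S hB2 c n
    rw [← hκ] at hb
    have hκn : 0 < κ ^ n := by positivity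
    have h2 : wt (wB S B) c n ≤ S.len (hist (dd c) n) * RR n / κ ^ n := by
      rw [le_div_iff₀ hκn]; exact hb
    have h3 : S.len (hist (dd c) n) = S.len (hist (dd c) n) ^ (σ : ℝ)
        * S.len (hist (dd c) n) ^ (1 - (σ : ℝ)) := by
      rw [← Real.rpow_add hlen]
      simp
    have h4 : S.len (hist (dd c) n) ^ (1 - (σ : ℝ)) ≤ S.C ^ (1 - (σ : ℝ)) * q ^ n := by
      have h5 := S.len_le hpos
      rw [hist_length] at h5
      calc S.len (hist (dd c) n) ^ (1 - (σ : ℝ)) ≤ (S.C * (1 / 2) ^ n) ^ (1 - (σ : ℝ)) :=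
            Real.rpow_le_rpow hlen.le h5 (by linarith)
        _ = S.C ^ (1 - (σ : ℝ)) * q ^ n := by
            rw [Real.mul_rpow hS.le (by positivity), ← Real.rpow_natCast,
              ← Real.rpow_mul (by norm_num), mul_comm (n : ℝ), Real.rpow_mul (by norm_num),
              Real.rpow_natCast]
    have hbig : (1 : ℝ) ≤ 2 * ((B : ℝ) + 2) ^ 2 * ((B : ℝ) + n + 3) := by
      have : (0 : ℝ) ≤ B := by positivity
      have : (0 : ℝ) ≤ n := by positivity
      nlinarith [sq_nonneg (B : ℝ), mul_nonneg (sq_nonneg ((B : ℝ) + 2)) (by positivity : (0 : ℝ) ≤ (B : ℝ) + n)]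
    have h6 : (S.len (hist (dd c) n) / (2 * ((B : ℝ) + 2) ^ 2 * ((B : ℝ) + n + 3))) ^ (σ : ℝ)
        ≥ S.len (hist (dd c) n) ^ (σ : ℝ) / (2 * ((B : ℝ) + 2) ^ 2 * ((B : ℝ) + n + 3)) := by
      rw [Real.div_rpow hlen.le (by positivity)]
      apply div_le_div_of_nonneg_left (by positivity) (by positivity)
      calc (2 * ((B : ℝ) + 2) ^ 2 * ((B : ℝ) + n + 3)) ^ (σ : ℝ)
          ≤ (2 * ((B : ℝ) + 2) ^ 2 * ((B : ℝ) + n + 3)) ^ (1 : ℝ) :=
            Real.rpow_le_rpow_of_exponent_le hbig h1'.le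
        _ = _ := Real.rpow_one _
    refine h2.trans (le_trans ?_ (mul_le_mul_of_nonneg_left h6 hCC0))
    have hL := Real.rpow_pos_of_pos hlen (σ : ℝ)
    have hRp := RR_pos n
    have hqκ : q ^ n / κ ^ n = η ^ n * η ^ n := by
      rw [← div_pow, ← mul_pow, hηsq]
    have key : RR n * (q ^ n / κ ^ n) * ((B : ℝ) + n + 3) ≤ C₁ * C₂ := by
      rw [hqκ]
      calc RR n * (η ^ n * η ^ n) * ((B : ℝ) + n + 3)
          = (RR n * η ^ n) * (((B : ℝ) + n + 3) * η ^ n) := by ring
        _ ≤ C₁ * C₂ := mul_le_mul (hR n) (hC₂ n) (by positivity) hC₁.le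
    calc S.len (hist (dd c) n) * RR n / κ ^ n
        = S.len (hist (dd c) n) ^ (σ : ℝ) * S.len (hist (dd c) n) ^ (1 - (σ : ℝ)) * RR n / κ ^ n := by
          rw [← h3]
      _ ≤ S.len (hist (dd c) n) ^ (σ : ℝ) * (S.C ^ (1 - (σ : ℝ)) * q ^ n) * RR n / κ ^ n := by
          gcongr
      _ = S.len (hist (dd c) n) ^ (σ : ℝ) * S.C ^ (1 - (σ : ℝ))
          * (RR n * (q ^ n / κ ^ n) * ((B : ℝ) + n + 3)) / ((B : ℝ) + n + 3) := by
          field_simp
      _ ≤ S.len (hist (dd c) n) ^ (σ : ℝ) * S.C ^ (1 - (σ : ℝ)) * (C₁ * C₂) / ((B : ℝ) + n + 3) := by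
          gcongr
      _ = _ := by
          rw [hCC]
          field_simp
  refine ⟨B, le_trans (dim_ge (w := wB S B) (K := KB B) (fun h i _ => wB_pos S (by omega) h i)
    (fun h => wB_sum S (by omega) h) (fun c => S.pt (dd c)) σ h0 CC.toNNReal
    (fun c _ => ?_) (fun c c' hc hc' n heq hne => ?_)) (dimH_mono ?_)⟩
  · -- weights tend to zero
    have hpos := fun n => hist_pos (dd_pos c) n
    have hlim : Tendsto (fun n : ℕ => CC * (S.C ^ (σ : ℝ) * ((1 / 2 : ℝ) ^ (σ : ℝ)) ^ n)) atTop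
        (𝓝 (CC * (S.C ^ (σ : ℝ) * 0))) :=
      ((tendsto_pow_atTop_nhds_zero_of_lt_one (by positivity)
        (Real.rpow_lt_one (by norm_num) (by norm_num) h0')).const_mul _).const_mul _
    rw [mul_zero, mul_zero] at hlim
    refine squeeze_zero (fun n => Finset.prod_nonneg fun j _ => (wB_pos S (by omega) _ _).le)
      (fun n => (hmain c n).trans ?_) hlim
    have hlen := S.len_pos (hpos n)
    have h5 := S.len_le (hpos n)
    rw [hist_length] at h5
    have hbig : (1 : ℝ) ≤ 2 * ((B : ℝ) + 2) ^ 2 * ((B : ℝ) + n + 3) := by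
      have : (0 : ℝ) ≤ B := by positivity
      have : (0 : ℝ) ≤ n := by positivity
      nlinarith [sq_nonneg (B : ℝ), mul_nonneg (sq_nonneg ((B : ℝ) + 2)) (by positivity : (0 : ℝ) ≤ (B : ℝ) + n)]
    gcongr
    calc (S.len (hist (dd c) n) / (2 * ((B : ℝ) + 2) ^ 2 * ((B : ℝ) + n + 3))) ^ (σ : ℝ)
        ≤ (S.C * (1 / 2) ^ n) ^ (σ : ℝ) := by
          apply Real.rpow_le_rpow (by positivity) _ h0'.le
          exact (div_le_self hlen.le hbig).trans h5
      _ = S.C ^ (σ : ℝ) * ((1 / 2 : ℝ) ^ (σ : ℝ)) ^ n := by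
          rw [Real.mul_rpow hS.le (by positivity), ← Real.rpow_natCast,
            ← Real.rpow_mul (by norm_num), mul_comm (n : ℝ), Real.rpow_mul (by norm_num),
            Real.rpow_natCast]
  · rw [Real.coe_toNNReal _ hCC0, Real.dist_eq]
    refine (hmain c n).trans (mul_le_mul_of_nonneg_left ?_ hCC0)
    apply Real.rpow_le_rpow _ (dist_low S hc hc' heq hne) h0'.le
    have := (S.len_pos (hist_pos (dd_pos c) n)).le
    positivity
  · rintro _ ⟨c, hc, rfl⟩
    exact ⟨dd c, dd_good hc, rfl⟩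

/-- **Full dimension.** The set of points of `X` whose asymptotic set has Hausdorff dimension `1 / 2`
has Hausdorff dimension one. -/
theorem dimH_level {X : Set ℝ} (hX : Ioo 0 1 ⊆ X) (hX' : X ⊆ Icc 0 1) :
    dimH {x ∈ X | dimH (AS S.T X x) = 1 / 2} = 1 := by
  apply le_antisymm
  · rw [← Real.dimH_univ]
    exact dimH_mono (subset_univ _)
  · refine le_of_forall_lt_imp_le_of_dense fun t ht => ?_
    have htt : t ≠ ⊤ := (ht.trans_le le_top).ne
    lift t to NNReal using htt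
    have ht' : t < 1 := by exact_mod_cast ht
    rcases eq_or_ne t 0 with h | h
    · rw [h]; exact bot_le
    · obtain ⟨B, hB⟩ := le_dimH_good S t (pos_iff_ne_zero.2 h) ht'
      refine hB.trans (dimH_mono ?_)
      rintro _ ⟨a, ha, rfl⟩
      refine ⟨hX ⟨Sys.pt_pos ha.pos, ?_⟩, dimH_AS_eq S ha hX hX'⟩
      obtain ⟨j, hj⟩ := inf_a ha 0
      rw [Nat.zero_add] at hj
      exact Sys.pt_lt_one j ha.pos hj

end full

end Pool.Agent.Q187.Exp
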