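import Mathlib
import Pool.Agent.Q187.Exp.Full

set_option autoImplicit false

/-!
# The Gauss map as a system with full branches
-/

open Filter Topology Set Pool.Agent.Q187.Code

namespace Pool.Agent.Q187.Exp.Gauss

/-- the Gauss map -/
noncomputable def G (x : ℝ) : ℝ := 1 / x - (⌊1 / x⌋ : ℝ)

/-- inverse branches -/
noncomputable def φ (n : ℕ) (y : ℝ) : ℝ := 1 / ((n : ℝ) + y)

/-- numerators and denominators -/
def PQ : List ℕ → (ℝ × ℝ) × (ℝ × ℝ)
  | [] => ((0, 1), (1, 0))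
  | n :: h => (((PQ h).1.1 * n + (PQ h).1.2, (PQ h).1.1), ((PQ h).2.1 * n + (PQ h).2.2, (PQ h).2.1))

/-- numerator -/
def P (h : List ℕ) : ℝ := (PQ h).1.1
/-- numerator -/
def P' (h : List ℕ) : ℝ := (PQ h).1.2
/-- denominator -/
def Q (h : List ℕ) : ℝ := (PQ h).2.1
/-- denominator -/
def Q' (h : List ℕ) : ℝ := (PQ h).2.2

lemma P_cons (n : ℕ) (h : List ℕ) : P (n :: h) = P h * n + P' h := rfl
lemma P'_cons (n : ℕ) (h : List ℕ) : P' (n :: h) = P h := rfl
lemma Q_cons (n : ℕ) (h : List ℕ) : Q (n :: h) = Q h * n + Q' h := rfl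
lemma Q'_cons (n : ℕ) (h : List ℕ) : Q' (n :: h) = Q h := rfl

lemma Q_facts {h : List ℕ} (hh : ∀ n ∈ h, 1 ≤ n) : 1 ≤ Q h ∧ 0 ≤ Q' h ∧ Q' h ≤ Q h := by
  induction h with
  | nil => simp [Q, Q', PQ]
  | cons n h ih =>
    obtain ⟨h1, h2, h3⟩ := ih fun m hm => hh m (List.mem_cons_of_mem _ hm)
    have hn : (1 : ℝ) ≤ n := by exact_mod_cast hh n List.mem_cons_self
    rw [Q_cons, Q'_cons]
    refine ⟨?_, ?_, ?_⟩ <;> nlinarith

lemma det (h : List ℕ) : |P' h * Q h - P h * Q' h| = 1 := by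
  induction h with
  | nil => simp [P, P', Q, Q', PQ]
  | cons n h ih =>
    rw [P_cons, P'_cons, Q_cons, Q'_cons, ← ih, ← abs_neg]
    congr 1
    ring

lemma V_eq {h : List ℕ} (hh : ∀ n ∈ h, 1 ≤ n) {y : ℝ} (hy : 0 ≤ y) :
    V φ h y = (P h + P' h * y) / (Q h + Q' h * y) := by
  induction h generalizing y with
  | nil => simp [V, P, P', Q, Q', PQ]
  | cons n h ih =>
    have hn : (1 : ℝ) ≤ n := by exact_mod_cast hh n List.mem_cons_self
    have hh' : ∀ n ∈ h, 1 ≤ n := fun m hm => hh m (List.mem_cons_of_mem _ hm)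
    obtain ⟨h1, h2, h3⟩ := Q_facts hh'
    show V φ h (φ n y) = _
    have h4 : 0 ≤ φ n y := by unfold φ; positivity
    rw [ih hh' h4, P_cons, P'_cons, Q_cons, Q'_cons]
    have h5 : 0 < Q h + Q' h * φ n y := by
      have := mul_nonneg h2 h4
      linarith
    have h6 : 0 < Q h * n + Q' h + Q h * y := by
      have := mul_nonneg (by linarith : 0 ≤ Q h) hy
      nlinarith
    rw [div_eq_div_iff h5.ne' h6.ne']
    unfold φ
    have : (n : ℝ) + y ≠ 0 := by positivity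
    field_simp
    ring

lemma V_sub {h : List ℕ} (hh : ∀ n ∈ h, 1 ≤ n) {y y' : ℝ} (hy : 0 ≤ y) (hy' : 0 ≤ y') :
    |V φ h y - V φ h y'| = |y - y'| / ((Q h + Q' h * y) * (Q h + Q' h * y')) := by
  obtain ⟨h1, h2, h3⟩ := Q_facts hh
  have h5 : 0 < Q h + Q' h * y := by
    have := mul_nonneg h2 hy
    linarith
  have h6 : 0 < Q h + Q' h * y' := by
    have := mul_nonneg h2 hy'
    linarith
  rw [V_eq hh hy, V_eq hh hy', div_sub_div _ _ h5.ne' h6.ne', abs_div, abs_of_pos (mul_pos h5 h6)]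
  congr 1
  have : (P h + P' h * y) * (Q h + Q' h * y') - (Q h + Q' h * y) * (P h + P' h * y')
      = (P' h * Q h - P h * Q' h) * (y - y') := by ring
  rw [this, abs_mul, det, one_mul]

lemma Q_sq {h : List ℕ} (hh : ∀ n ∈ h, 1 ≤ n) :
    1 ≤ (Q h ^ 2 + Q' h ^ 2) * (h.map fun n : ℕ => 2 / ((n : ℝ) + 1) ^ 2).prod := by
  induction h with
  | nil => simp [Q, Q', PQ]
  | cons n h ih =>
    have hn : (1 : ℝ) ≤ n := by exact_mod_cast hh n List.mem_cons_self
    have hh' : ∀ n ∈ h, 1 ≤ n := fun m hm => hh m (List.mem_cons_of_mem _ hm)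
    obtain ⟨h1, h2, h3⟩ := Q_facts hh'
    rw [Q_cons, Q'_cons, List.map_cons, List.prod_cons]
    have h4 : (Q h ^ 2 + Q' h ^ 2) ≤ ((Q h * n + Q' h) ^ 2 + Q h ^ 2) * (2 / ((n : ℝ) + 1) ^ 2) := by
      rw [← mul_div_assoc, le_div_iff₀ (by positivity)]
      have e1 : Q' h ^ 2 ≤ Q h ^ 2 := by nlinarith
      have e2 : Q' h ^ 2 ≤ Q h * Q' h := by nlinarith
      have e3 : (0 : ℝ) ≤ ((n : ℝ) - 1) ^ 2 := sq_nonneg _
      nlinarith [mul_le_mul_of_nonneg_left e1 e3, mul_le_mul_of_nonneg_left e2 (by linarith : (0 : ℝ) ≤ 4 * (n : ℝ)),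
        sq_nonneg (Q' h)]
    have hpos : 0 < (h.map fun n : ℕ => 2 / ((n : ℝ) + 1) ^ 2).prod := (prod_le hh').1
    calc (1 : ℝ) ≤ (Q h ^ 2 + Q' h ^ 2) * (h.map fun n : ℕ => 2 / ((n : ℝ) + 1) ^ 2).prod := ih hh'
      _ ≤ (((Q h * n + Q' h) ^ 2 + Q h ^ 2) * (2 / ((n : ℝ) + 1) ^ 2)) *
          (h.map fun n : ℕ => 2 / ((n : ℝ) + 1) ^ 2).prod := mul_le_mul_of_nonneg_right h4 hpos.le
      _ = _ := by ring

lemma gap {p q : ℕ} (hp : 1 ≤ p) (hpq : p < q) {u v : ℝ} (hu : u ∈ Icc (0 : ℝ) 1)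
    (hv : v ∈ Icc (0 : ℝ) 1) :
    (1 + v - u) / (((q : ℝ) + 1) ^ 2) ≤ φ p u - φ q v := by
  have hp' : (1 : ℝ) ≤ p := by exact_mod_cast hp
  have hq' : (p : ℝ) + 1 ≤ q := by exact_mod_cast hpq
  obtain ⟨hu0, hu1⟩ := hu
  obtain ⟨hv0, hv1⟩ := hv
  have h1 : φ p u - φ q v = (q + v - p - u) / ((p + u) * (q + v)) := by
    unfold φ
    have : (p : ℝ) + u ≠ 0 := by positivity
    have : (q : ℝ) + v ≠ 0 := (by linarith : (0 : ℝ) < q + v).ne'
    field_simp
    ring
  rw [h1]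
  apply div_le_div₀ (by linarith) (by linarith)
  · apply mul_pos <;> linarith
  · nlinarith

lemma dig_spec {x : ℝ} (hx : x ∈ Ioo (0 : ℝ) 1) :
    1 ≤ ⌊1 / x⌋₊ ∧ φ ⌊1 / x⌋₊ (G x) = x ∧ G x ∈ Ico (0 : ℝ) 1 := by
  obtain ⟨hx0, hx1⟩ := hx
  have h1 : 1 < 1 / x := by rw [lt_div_iff₀ hx0]; linarith
  have h2 : ((⌊1 / x⌋₊ : ℕ) : ℝ) = (⌊1 / x⌋ : ℝ) := by
    rw [← natCast_floor_eq_intCast_floor (by positivity)]
  refine ⟨?_, ?_, ?_, ?_⟩
  · exact Nat.le_floor (by simpa using h1.le)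
  · unfold φ G
    rw [h2]
    field_simp
    ring
  · unfold G
    have := Int.floor_le (1 / x)
    linarith
  · unfold G
    have := Int.lt_floor_add_one (1 / x)
    linarith

lemma G_mem (x : ℝ) : G x ∈ Ico (0 : ℝ) 1 := by
  unfold G
  have h1 := Int.floor_le (1 / x)
  have h2 := Int.lt_floor_add_one (1 / x)
  constructor <;> linarith

lemma close_spec (K : ℕ) : ∃ ε > 0, ∀ x ∈ Ico (0 : ℝ) 1, ∀ y ∈ Ioo (0 : ℝ) 1, |x - y| < ε →
    |G x - G y| < ε → (x ≠ 0 ∧ ⌊1 / y⌋₊ = ⌊1 / x⌋₊) ∨ K ≤ ⌊1 / y⌋₊ := by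
  have hK : (0 : ℝ) ≤ K := by positivity
  refine ⟨1 / (16 * ((K : ℝ) + 1) ^ 2), by positivity, fun x hx y hy hxy hT => ?_⟩
  set ε : ℝ := 1 / (16 * ((K : ℝ) + 1) ^ 2) with hε
  have hε0 : 0 < ε := by positivity
  have hε1 : ε * (16 * ((K : ℝ) + 1) ^ 2) = 1 := by rw [hε]; field_simp
  by_contra hcon
  push Not at hcon
  obtain ⟨hne, hDK⟩ := hcon
  obtain ⟨hy1, hy2, hy3⟩ := dig_spec hy
  set m := ⌊1 / y⌋₊ with hm
  have hm1 : (1 : ℝ) ≤ m := by exact_mod_cast hy1
  have hmK : (m : ℝ) + 1 ≤ K := by exact_mod_cast hDK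
  have hK1 : (1 : ℝ) ≤ K := by linarith
  have hyK' : 1 ≤ y * K := by
    have h1 := Nat.lt_floor_add_one (1 / y)
    rw [← hm, div_lt_iff₀ hy.1] at h1
    have := mul_le_mul_of_nonneg_right hmK hy.1.le
    linarith
  have hεK : ε * (2 * K) ≤ 1 := by
    calc ε * (2 * K) ≤ ε * (16 * ((K : ℝ) + 1) ^ 2) := by
          apply mul_le_mul_of_nonneg_left _ hε0.le
          nlinarith
      _ = 1 := hε1
  have hxK : 1 ≤ x * (2 * K) := by
    have h1 := (abs_lt.1 hxy).1
    have : (y - ε) * (2 * K) ≤ x * (2 * K) := by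
      apply mul_le_mul_of_nonneg_right _ (by positivity)
      linarith
    nlinarith
  have hx0 : 0 < x := by
    by_contra h
    push Not at h
    have : x * (2 * K) ≤ 0 := mul_nonpos_of_nonpos_of_nonneg h (by positivity)
    linarith
  have hxx : x ∈ Ioo (0 : ℝ) 1 := ⟨hx0, hx.2⟩
  obtain ⟨hx1, hx2, hx3⟩ := dig_spec hxx
  have hne' := hne hx0.ne'
  set n := ⌊1 / x⌋₊ with hn
  have hn1 : (1 : ℝ) ≤ n := by exact_mod_cast hx1
  have hnK : (n : ℝ) ≤ 2 * K := by
    have h1 := Nat.floor_le (a := 1 / x) (by positivity)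
    rw [← hn, le_div_iff₀ hx0] at h1
    by_contra h
    push Not at h
    nlinarith
  obtain ⟨hT1, hT2⟩ := abs_lt.1 hT
  obtain ⟨hd1, hd2⟩ := abs_lt.1 hxy
  have key : ∀ q : ℝ, 1 ≤ q → q ≤ 2 * K → ∀ t : ℝ, 1 - ε ≤ t → t / ((q + 1) ^ 2) < ε → False := by
    intro q hq1 hq2 t ht h
    rw [div_lt_iff₀ (by positivity)] at h
    have h1 : ε * ((q + 1) ^ 2) ≤ ε * (4 * ((K : ℝ) + 1) ^ 2) := by
      apply mul_le_mul_of_nonneg_left _ hε0.le
      nlinarith
    have h2 : ε * (4 * ((K : ℝ) + 1) ^ 2) = 1 / 4 := by linarith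
    have h3 : ε ≤ 1 / 2 := by nlinarith
    linarith
  have iy := Ico_subset_Icc_self hy3
  have ix := Ico_subset_Icc_self hx3
  rcases lt_or_gt_of_ne hne' with h | h
  · -- `m < n`
    have h1 := gap (u := G y) (v := G x) hy1 h iy ix
    rw [hy2, hx2] at h1
    exact key n hn1 hnK (1 + G x - G y) (by linarith) (by linarith)
  · have h1 := gap (u := G x) (v := G y) hx1 h ix iy
    rw [hy2, hx2] at h1
    exact key m hm1 (by linarith) (1 + G y - G x) (by linarith) (by linarith)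

/-- the Gauss map -/
noncomputable def sys : Sys where
  T := G
  φ := φ
  D := fun x => ⌊1 / x⌋₊
  C := 2
  mem := by
    intro n hn y hy
    have hn' : (1 : ℝ) ≤ n := by exact_mod_cast hn
    obtain ⟨h1, h2⟩ := hy
    unfold φ
    constructor
    · apply one_div_le_one_div_of_le <;> linarith
    · apply one_div_le_one_div_of_le <;> linarith
  low := by
    intro n hn y hy y' hy'
    have hn' : (1 : ℝ) ≤ n := by exact_mod_cast hn
    obtain ⟨h1, h2⟩ := hy
    obtain ⟨h1', h2'⟩ := hy'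
    have e : φ n y - φ n y' = (y' - y) / ((n + y) * (n + y')) := by
      unfold φ
      have : (n : ℝ) + y ≠ 0 := by positivity
      have : (n : ℝ) + y' ≠ 0 := by positivity
      field_simp
      ring
    have hpos : 0 < ((n : ℝ) + y) * (n + y') := by positivity
    rw [e, abs_div, abs_of_pos hpos, abs_sub_comm]
    apply div_le_div_of_nonneg_left (abs_nonneg _) hpos
    nlinarith
  upp := by
    intro n hn y hy y' hy'
    have hn' : (1 : ℝ) ≤ n := by exact_mod_cast hn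
    obtain ⟨h1, h2⟩ := hy
    obtain ⟨h1', h2'⟩ := hy'
    have e : φ n y - φ n y' = (y' - y) / ((n + y) * (n + y')) := by
      unfold φ
      have : (n : ℝ) + y ≠ 0 := by positivity
      have : (n : ℝ) + y' ≠ 0 := by positivity
      field_simp
      ring
    have hpos : 0 < ((n : ℝ) + y) * (n + y') := by positivity
    rw [e, abs_div, abs_of_pos hpos, abs_sub_comm]
    apply div_le_self (abs_nonneg _)
    nlinarith
  one := by
    intro y hy
    unfold φ
    have := hy.1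
    rw [div_lt_one (by push_cast; linarith)]
    push_cast
    linarith
  inv := by
    intro n hn y hy
    show G (φ n y) = y
    have hn' : (1 : ℝ) ≤ n := by exact_mod_cast hn
    have h1 : 1 / φ n y = n + y := by unfold φ; rw [one_div_one_div]
    unfold G
    rw [h1]
    have h2 : ⌊(n : ℝ) + y⌋ = n := by
      rw [Int.floor_eq_iff]
      push_cast
      constructor <;> linarith [hy.1, hy.2]
    rw [h2]
    push_cast
    ring
  sepa := by
    intro p q hp hpq δ hδ y hy y' hy'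
    have hp' : (1 : ℝ) ≤ p := by exact_mod_cast hp
    have hq' : (p : ℝ) + 1 ≤ q := by exact_mod_cast hpq
    have hδ1 : δ ≤ 1 := hy.1.trans hy.2
    have h1 : 1 / ((p : ℝ) + 1) ≤ φ p y := by
      unfold φ
      apply one_div_le_one_div_of_le
      · linarith [hy.1]
      · linarith [hy.2]
    have h2 : φ q y' ≤ 1 / ((p : ℝ) + 1 + δ) := by
      unfold φ
      apply one_div_le_one_div_of_le (by positivity)
      linarith [hy'.1]
    have h3 : 1 / ((p : ℝ) + 1) - 1 / ((p : ℝ) + 1 + δ) = δ / ((p + 1) * (p + 1 + δ)) := by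
      field_simp
      ring
    have h4 : δ / ((p : ℝ) + 2) ^ 2 ≤ δ / ((p + 1) * (p + 1 + δ)) := by
      apply div_le_div_of_nonneg_left hδ (by positivity)
      nlinarith
    refine le_trans ?_ (le_abs_self _)
    linarith
  dig := fun x hx => dig_spec hx
  zero := by simp [G]
  close := close_spec
  hC := two_pos
  contr := by
    intro h hh y hy y' hy'
    rw [V_sub hh hy.1 hy'.1]
    obtain ⟨h1, h2, h3⟩ := Q_facts hh
    have h4 := Q_sq hh
    have hpos : 0 < (h.map fun n : ℕ => 2 / ((n : ℝ) + 1) ^ 2).prod := (prod_le hh).1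
    set R := (h.map fun n : ℕ => 2 / ((n : ℝ) + 1) ^ 2).prod
    have h5 : |y - y'| ≤ 1 := by
      rw [abs_le]; constructor <;> linarith [hy.1, hy.2, hy'.1, hy'.2]
    have h6 : Q h ^ 2 ≤ (Q h + Q' h * y) * (Q h + Q' h * y') := by
      have e1 := mul_nonneg h2 hy.1
      have e2 := mul_nonneg h2 hy'.1
      nlinarith
    have h7 : 1 ≤ 2 * Q h ^ 2 * R := by
      refine h4.trans (mul_le_mul_of_nonneg_right ?_ hpos.le)
      nlinarith
    calc |y - y'| / ((Q h + Q' h * y) * (Q h + Q' h * y')) ≤ 1 / Q h ^ 2 := by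
          apply div_le_div₀ zero_le_one h5 (by positivity) h6
      _ ≤ 2 * R := by
          rw [div_le_iff₀ (by positivity)]
          linarith
  dist := by
    intro h hh y hy y' hy'
    obtain ⟨h1, h2, h3⟩ := Q_facts hh
    rw [V_sub hh hy.1 hy'.1, V_sub hh (le_refl _) zero_le_one, zero_sub, abs_neg, abs_one, mul_zero,
      add_zero, mul_one]
    have e1 := mul_nonneg h2 hy.1
    have e2 := mul_nonneg h2 hy'.1
    have e3 : Q' h * y ≤ Q' h := mul_le_of_le_one_right h2 hy.2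
    have e4 : Q' h * y' ≤ Q' h := mul_le_of_le_one_right h2 hy'.2
    have h5 : (Q h + Q' h * y) * (Q h + Q' h * y') ≤ 2 * (Q h * (Q h + Q' h)) := by
      have : (Q h + Q' h * y) * (Q h + Q' h * y') ≤ (Q h + Q' h) * (Q h + Q' h) := by gcongr
      nlinarith
    have h6 : 1 / (Q h * (Q h + Q' h)) / 2 * |y - y'| = |y - y'| / (2 * (Q h * (Q h + Q' h))) := by
      field_simp
    rw [h6]
    apply div_le_div_of_nonneg_left (abs_nonneg _) (by positivity) h5
  sum := by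
    intro h hh B
    obtain ⟨h1, h2, h3⟩ := Q_facts hh
    have e : ∀ B : ℕ, |V φ h 1 - V φ h (1 / ((B : ℝ) + 1))| ≤
        ∑ i ∈ Finset.range B, |V φ ((i + 1) :: h) 0 - V φ ((i + 1) :: h) 1| := by
      intro B
      induction B with
      | zero => simp
      | succ B ih =>
        rw [Finset.sum_range_succ]
        have : |V φ h 1 - V φ h (1 / (((B + 1 : ℕ) : ℝ) + 1))| ≤ |V φ h 1 - V φ h (1 / ((B : ℝ) + 1))|
            + |V φ h (1 / ((B : ℝ) + 1)) - V φ h (1 / (((B + 1 : ℕ) : ℝ) + 1))| := abs_sub_le _ _ _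
        refine this.trans (add_le_add ih (le_of_eq ?_))
        show _ = |V φ h (φ (B + 1) 0) - V φ h (φ (B + 1) 1)|
        unfold φ
        push_cast
        rw [add_zero]
    refine le_trans ?_ (e B)
    rw [V_sub hh zero_le_one (by positivity), V_sub hh (le_refl _) zero_le_one, zero_sub, abs_neg,
      abs_one, mul_zero, add_zero, mul_one]
    have hB : (0 : ℝ) ≤ B := by positivity
    have h4 : 1 - 1 / ((B : ℝ) + 1) = B / (B + 1) := by field_simp; ring
    have h5 : |1 - 1 / ((B : ℝ) + 1)| = B / (B + 1) := by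
      rw [h4, abs_of_nonneg (by positivity)]
    have h6 : 1 - 2 / ((B : ℝ) + 1) = (B - 1) / (B + 1) := by field_simp; ring
    rw [h5, h6]
    rw [← mul_div_assoc, mul_one, div_div, div_div, div_le_div_iff₀ (by positivity) (by positivity)]
    have h7 : Q' h * (1 / ((B : ℝ) + 1)) * (B + 1) = Q' h := by field_simp
    have key : ((B : ℝ) - 1) * (Q h + Q' h * (1 / ((B : ℝ) + 1))) ≤ B * Q h := by
      have h8 : 0 ≤ Q' h * (1 / ((B : ℝ) + 1)) := by positivity
      have h9 : (B : ℝ) * (Q' h * (1 / ((B : ℝ) + 1))) ≤ Q' h := by nlinarith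
      nlinarith
    calc ((B : ℝ) - 1) * ((B + 1) * ((Q h + Q' h) * (Q h + Q' h * (1 / ((B : ℝ) + 1)))))
        = (((B : ℝ) - 1) * (Q h + Q' h * (1 / ((B : ℝ) + 1)))) * ((B + 1) * (Q h + Q' h)) := by ring
      _ ≤ (B * Q h) * ((B + 1) * (Q h + Q' h)) := by gcongr
      _ = _ := by ring

end Pool.Agent.Q187.Exp.Gauss
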