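import Mathlib
import Pool.Agent.Q187.Exp.Lower
import Pool.Agent.Q187.Exp.Cov

set_option autoImplicit false

/-!
# Upper bounds for the dimension of asymptotic sets: sparse free positions
-/

open Filter Topology Set Pool.Agent.Q187.Code MeasureTheory MeasureTheory.Measure
open scoped ENNReal

namespace Pool.Agent.Q187.Exp

/-- product weight -/
noncomputable def Wt (h : List ℕ) : ℝ := (h.map fun n : ℕ => 2 / ((n : ℝ) + 1) ^ 2).prod

/-- additional properties of a system -/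
structure Sys.Fine (S : Sys) : Prop where
  lip : ∀ h : List ℕ, (∀ n ∈ h, 1 ≤ n) → ∀ y ∈ Icc (0 : ℝ) 1, ∀ y' ∈ Icc (0 : ℝ) 1,
    |V S.φ h y - V S.φ h y'| ≤ S.C * Wt h * |y - y'|
  sepb : ∀ p q : ℕ, 1 ≤ p → p < q → ∀ δ : ℝ, 0 ≤ δ → ∀ y ∈ Icc δ 1, ∀ y' ∈ Icc δ 1,
    δ * ((q : ℝ) - p) / (2 * (p + 1) * (q + 1)) ≤ |S.φ p y - S.φ q y'|

lemma Wt_pos {h : List ℕ} (hh : ∀ n ∈ h, 1 ≤ n) : 0 < Wt h := (prod_le hh).1

lemma Wt_cons (n : ℕ) (h : List ℕ) : Wt (n :: h) = 2 / ((n : ℝ) + 1) ^ 2 * Wt h := by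
  unfold Wt
  rw [List.map_cons, List.prod_cons]

lemma Wt_cons_le {n : ℕ} (hn : 1 ≤ n) {h : List ℕ} (hh : ∀ n ∈ h, 1 ≤ n) :
    Wt (n :: h) ≤ 1 / 2 * Wt h := by
  rw [Wt_cons]
  apply mul_le_mul_of_nonneg_right _ (Wt_pos hh).le
  have hn' : (1 : ℝ) ≤ n := by exact_mod_cast hn
  rw [div_le_div_iff₀ (by positivity) (by norm_num)]
  nlinarith

/-- tail sets: the digits agree with those of `a` off the free positions -/
def TR (S : Sys) (a : ℕ → ℕ) (P : Set ℕ) (m : ℕ) : Set ℝ :=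
  {z | ∃ d : ℕ → ℕ, (∀ i, 1 ≤ d i) ∧ (∀ i, m + i ∉ P → d i = a (m + i)) ∧ z = S.pt d}

/-- uniform covers of the tail sets -/
def CR (S : Sys) (a : ℕ → ℕ) (P : Set ℕ) (s : ℝ) (m : ℕ) (γ : ℝ) : Prop :=
  0 ≤ γ ∧ ∀ h : List ℕ, (∀ n ∈ h, 1 ≤ n) →
    Cov s (V S.φ h '' TR S a P m) (ENNReal.ofReal (γ * (S.C * Wt h) ^ s))

section upper

variable {S : Sys} {a : ℕ → ℕ} {P : Set ℕ} {s : ℝ}

lemma CR.mono {m : ℕ} {γ γ' : ℝ} (h : CR S a P s m γ) (hγ : γ ≤ γ') : CR S a P s m γ' := by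
  refine ⟨h.1.trans hγ, fun l hl => (h.2 l hl).mono (subset_refl _) (ENNReal.ofReal_le_ofReal ?_)⟩
  have := S.hC
  have := Wt_pos hl
  exact mul_le_mul_of_nonneg_right hγ (by positivity)

lemma ediam_V_le (hF : S.Fine) {h : List ℕ} (hh : ∀ n ∈ h, 1 ≤ n) {A : Set ℝ} {δ : ℝ}
    (hA : A ⊆ Icc 0 δ) (hδ : δ ≤ 1) :
    Metric.ediam (V S.φ h '' A) ≤ ENNReal.ofReal (S.C * Wt h * δ) := by
  apply Metric.ediam_le
  rintro _ ⟨y, hy, rfl⟩ _ ⟨y', hy', rfl⟩
  rw [edist_dist, Real.dist_eq]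
  apply ENNReal.ofReal_le_ofReal
  have h1 := hA hy
  have h2 := hA hy'
  have hC := S.hC
  have hW := Wt_pos hh
  refine (hF.lip h hh y ⟨h1.1, h1.2.trans hδ⟩ y' ⟨h2.1, h2.2.trans hδ⟩).trans
    (mul_le_mul_of_nonneg_left ?_ (by positivity))
  rw [abs_le]
  constructor <;> linarith [h1.1, h1.2, h2.1, h2.2]

lemma TR_sub (m : ℕ) : TR S a P m ⊆ Icc 0 1 := by
  rintro z ⟨d, hd, _, rfl⟩
  exact Sys.pt_mem hd

lemma CR_one (hF : S.Fine) (hs : 0 < s) (m : ℕ) : CR S a P s m 1 := by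
  refine ⟨zero_le_one, fun h hh => ?_⟩
  have h1 := ediam_V_le hF hh (TR_sub (S := S) (a := a) (P := P) m) le_rfl
  refine (cov_single s _).mono (subset_refl _) ?_
  refine (ENNReal.rpow_le_rpow h1 hs.le).trans (le_of_eq ?_)
  have hC := S.hC
  have hW := Wt_pos hh
  rw [ENNReal.ofReal_rpow_of_nonneg (by positivity) hs.le, one_mul, mul_one]

lemma V_cons_TR (m : ℕ) {h : List ℕ} {d : ℕ → ℕ} (hd : ∀ i, 1 ≤ d i)
    (hd' : ∀ i, m + i ∉ P → d i = a (m + i)) :
    V S.φ h (S.pt d) ∈ V S.φ (d 0 :: h) '' TR S a P (m + 1) := by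
  refine ⟨S.pt (sh d 1), ⟨sh d 1, Sys.sh_pos hd 1, fun i hi => ?_, rfl⟩, ?_⟩
  · show d (1 + i) = a (m + 1 + i)
    have := hd' (1 + i) (by rwa [← add_assoc])
    rw [this, add_assoc]
  · show V S.φ h (S.φ (d 0) (S.pt (sh d 1))) = _
    rw [← Sys.pt_rec hd]

lemma CR_fixed (ha : ∀ n, 1 ≤ a n) (hs : 0 < s) {m : ℕ} (hm : m ∉ P) {γ : ℝ}
    (h : CR S a P s (m + 1) γ) : CR S a P s m (γ * (1 / 2) ^ s) := by
  have hγ := h.1
  refine ⟨by positivity, fun l hl => ?_⟩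
  have hl' : ∀ n ∈ a m :: l, 1 ≤ n := by
    intro n hn
    rcases List.mem_cons.1 hn with rfl | hn
    · exact ha _
    · exact hl n hn
  refine (h.2 (a m :: l) hl').mono ?_ (ENNReal.ofReal_le_ofReal ?_)
  · rintro _ ⟨_, ⟨d, hd, hd', rfl⟩, rfl⟩
    have h1 := hd' 0 (by simpa using hm)
    rw [add_zero] at h1
    rw [← h1]
    exact V_cons_TR m hd hd'
  · have hC := S.hC
    have hW := Wt_pos hl
    have hW' := Wt_pos hl'
    have h2 := Wt_cons_le (ha m) hl
    calc γ * (S.C * Wt (a m :: l)) ^ s ≤ γ * (1 / 2 * (S.C * Wt l)) ^ s := by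
          apply mul_le_mul_of_nonneg_left _ hγ
          apply Real.rpow_le_rpow (by positivity) _ hs.le
          nlinarith
      _ = γ * (1 / 2) ^ s * (S.C * Wt l) ^ s := by
          rw [Real.mul_rpow (by norm_num) (by positivity)]
          ring

lemma CR_fixed_iter (ha : ∀ n, 1 ≤ a n) (hs : 0 < s) (g : ℕ) : ∀ {m : ℕ},
    (∀ j < g, m + j ∉ P) → ∀ {γ : ℝ}, CR S a P s (m + g) γ →
    CR S a P s m (γ * ((1 / 2) ^ s) ^ g) := by
  induction g with
  | zero =>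
    intro m _ γ h
    simpa using h
  | succ g ih =>
    intro m hm γ h
    have h1 : CR S a P s (m + 1) (γ * ((1 / 2) ^ s) ^ g) := by
      apply ih (m := m + 1)
      · intro j hj
        have := hm (j + 1) (by omega)
        rwa [add_assoc, add_comm 1 j]
      · rwa [add_assoc, add_comm 1 g]
    have h2 := CR_fixed ha hs (by simpa using hm 0 (by omega)) h1
    rw [pow_succ, ← mul_assoc]
    exact h2

lemma sum_rpow_le {p : ℝ} (hp0 : 0 < p) (hp1 : p ≤ 1) (D : ℕ) :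
    ∑ d ∈ Finset.range D, ((d : ℝ) + 1) ^ (p - 1) ≤ (D : ℝ) ^ p / p := by
  induction D with
  | zero => simp [Real.zero_rpow hp0.ne']
  | succ D ih =>
    rw [Finset.sum_range_succ]
    have hD : (0 : ℝ) < (D : ℝ) + 1 := by positivity
    have h1 : (D : ℝ) ^ p ≤ ((D : ℝ) + 1) ^ p * (1 - p / (D + 1)) := by
      have h2 := rpow_one_add_le_one_add_mul_self (s := -1 / ((D : ℝ) + 1)) (p := p)
        (by rw [le_div_iff₀ hD]; linarith) hp0.le hp1
      have h3 : 1 + -1 / ((D : ℝ) + 1) = D / (D + 1) := by field_simp; ring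
      rw [h3, Real.div_rpow (by positivity) hD.le, div_le_iff₀ (by positivity)] at h2
      calc (D : ℝ) ^ p ≤ (1 + p * (-1 / ((D : ℝ) + 1))) * ((D : ℝ) + 1) ^ p := h2
        _ = _ := by ring
    have h4 : ((D : ℝ) + 1) ^ p * (p / (D + 1)) = p * ((D : ℝ) + 1) ^ (p - 1) := by
      rw [Real.rpow_sub_one hD.ne']
      ring
    push_cast
    have h5 : ((D : ℝ) + 1) ^ (p - 1) = (((D : ℝ) + 1) ^ p * (p / (D + 1))) / p := by
      rw [h4]; field_simp
    have h6 : (D : ℝ) ^ p / p ≤ (((D : ℝ) + 1) ^ p * (1 - p / (D + 1))) / p :=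
      div_le_div_of_nonneg_right h1 hp0.le
    calc _ ≤ (D : ℝ) ^ p / p + ((D : ℝ) + 1) ^ (p - 1) := by gcongr
      _ ≤ (((D : ℝ) + 1) ^ p * (1 - p / (D + 1))) / p + (((D : ℝ) + 1) ^ p * (p / (D + 1))) / p := by
          rw [← h5]; gcongr
      _ = ((D : ℝ) + 1) ^ p / p := by ring

lemma CR_free (hF : S.Fine) (hs : 0 < s) (hs2 : s < 1 / 2) {m : ℕ} {γ : ℝ}
    (h : CR S a P s (m + 1) γ) {D : ℕ} (hD : 1 ≤ D) :
    CR S a P s m ((D : ℝ) ^ (-s) + 2 ^ s / (1 - 2 * s) * (D : ℝ) ^ (1 - 2 * s) * γ) := by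
  have hγ := h.1
  have h12 : 0 < 1 - 2 * s := by linarith
  refine ⟨by positivity, fun l hl => ?_⟩
  have hC := S.hC
  have hW := Wt_pos hl
  have hD' : (1 : ℝ) ≤ D := by exact_mod_cast hD
  have hl' : ∀ d : Fin D, ∀ n ∈ ((d : ℕ) + 1) :: l, 1 ≤ n := by
    intro d n hn
    rcases List.mem_cons.1 hn with rfl | hn
    · omega
    · exact hl n hn
  have h1 := cov_iUnion (s := s) (κ := Fin D)
    (A := fun d => V S.φ (((d : ℕ) + 1) :: l) '' TR S a P (m + 1))
    (ε := fun d => ENNReal.ofReal (γ * (S.C * Wt (((d : ℕ) + 1) :: l)) ^ s))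
    (fun d => h.2 _ (hl' d))
  have h2 := cov_single s (V S.φ l '' Icc 0 (1 / (D : ℝ)))
  refine (cov_union h1 h2).mono ?_ ?_
  · rintro _ ⟨_, ⟨d, hd, hd', rfl⟩, rfl⟩
    rcases Nat.lt_or_ge D (d 0) with h3 | h3
    · right
      refine ⟨S.pt d, ⟨(Sys.pt_pos hd).le, (Sys.pt_le hd).trans ?_⟩, rfl⟩
      apply one_div_le_one_div_of_le (by linarith)
      exact_mod_cast h3.le
    · left
      have h4 := hd 0
      refine mem_iUnion.2 ⟨⟨d 0 - 1, by omega⟩, ?_⟩
      have h5 := V_cons_TR (S := S) (a := a) (P := P) m (h := l) hd hd'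
      have h6 : d 0 - 1 + 1 = d 0 := by omega
      simp only [h6]
      exact h5
  · have h3 : Metric.ediam (V S.φ l '' Icc 0 (1 / (D : ℝ))) ^ s ≤
        ENNReal.ofReal ((D : ℝ) ^ (-s) * (S.C * Wt l) ^ s) := by
      have h4 := ediam_V_le hF hl (A := Icc 0 (1 / (D : ℝ))) (subset_refl _)
        (by rw [div_le_one (by linarith)]; exact hD')
      refine (ENNReal.rpow_le_rpow h4 hs.le).trans (le_of_eq ?_)
      rw [ENNReal.ofReal_rpow_of_nonneg (by positivity) hs.le, Real.mul_rpow (by positivity)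
        (by positivity), mul_comm, one_div, Real.inv_rpow (by positivity), Real.rpow_neg (by positivity)]
    have h5 : ∑' d : Fin D, ENNReal.ofReal (γ * (S.C * Wt (((d : ℕ) + 1) :: l)) ^ s) ≤
        ENNReal.ofReal (2 ^ s / (1 - 2 * s) * (D : ℝ) ^ (1 - 2 * s) * γ * (S.C * Wt l) ^ s) := by
      rw [tsum_fintype, ← ENNReal.ofReal_sum_of_nonneg fun d _ => by
        have := Wt_pos (hl' d)
        positivity]
      apply ENNReal.ofReal_le_ofReal
      rw [← Finset.sum_range (fun d : ℕ => γ * (S.C * Wt ((d + 1) :: l)) ^ s)]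
      calc ∑ d ∈ Finset.range D, γ * (S.C * Wt ((d + 1) :: l)) ^ s
          ≤ ∑ d ∈ Finset.range D, γ * (S.C * Wt l) ^ s * (2 ^ s * ((d : ℝ) + 1) ^ ((1 - 2 * s) - 1)) := by
            refine Finset.sum_le_sum fun d _ => ?_
            rw [Wt_cons]
            push_cast
            have h6 : S.C * (2 / ((d : ℝ) + 1 + 1) ^ 2 * Wt l) ≤
                (S.C * Wt l) * (2 * (((d : ℝ) + 1) ^ 2)⁻¹) := by
              rw [← div_eq_mul_inv]
              have h7 : 2 / ((d : ℝ) + 1 + 1) ^ 2 ≤ 2 / ((d : ℝ) + 1) ^ 2 := by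
                apply div_le_div_of_nonneg_left (by norm_num) (by positivity)
                nlinarith [(Nat.cast_nonneg d : (0 : ℝ) ≤ d)]
              calc S.C * (2 / ((d : ℝ) + 1 + 1) ^ 2 * Wt l) ≤ S.C * (2 / ((d : ℝ) + 1) ^ 2 * Wt l) := by
                    gcongr
                _ = _ := by ring
            calc γ * (S.C * (2 / ((d : ℝ) + 1 + 1) ^ 2 * Wt l)) ^ s
                ≤ γ * ((S.C * Wt l) * (2 * (((d : ℝ) + 1) ^ 2)⁻¹)) ^ s := by
                  apply mul_le_mul_of_nonneg_left _ hγ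
                  exact Real.rpow_le_rpow (by positivity) h6 hs.le
              _ = _ := by
                  rw [Real.mul_rpow (x := S.C * Wt l) (by positivity) (by positivity),
                    Real.mul_rpow (x := 2) (by positivity) (by positivity), Real.inv_rpow (by positivity),
                    ← Real.rpow_natCast, ← Real.rpow_mul (by positivity), ← Real.rpow_neg (by positivity)]
                  have e : -(((2 : ℕ) : ℝ) * s) = 1 - 2 * s - 1 := by push_cast; ring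
                  rw [e]
                  ring
        _ = γ * (S.C * Wt l) ^ s * 2 ^ s * ∑ d ∈ Finset.range D, ((d : ℝ) + 1) ^ ((1 - 2 * s) - 1) := by
            rw [Finset.mul_sum]
            refine Finset.sum_congr rfl fun d _ => ?_
            ring
        _ ≤ γ * (S.C * Wt l) ^ s * 2 ^ s * ((D : ℝ) ^ (1 - 2 * s) / (1 - 2 * s)) := by
            apply mul_le_mul_of_nonneg_left _ (by positivity)
            exact sum_rpow_le h12 (by linarith) D
        _ = _ := by ring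
    refine (add_le_add h5 h3).trans ?_
    rw [← ENNReal.ofReal_add (by positivity) (by positivity)]
    apply ENNReal.ofReal_le_ofReal
    exact le_of_eq (by ring)

end upper

end Pool.Agent.Q187.Exp
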