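import Mathlib
import Pool.Agent.Q187.Exp.InterU

set_option autoImplicit false

/-!
# Upper bounds for the dimension of asymptotic sets: the main estimate
-/

open Filter Topology Set Pool.Agent.Q187.Code MeasureTheory MeasureTheory.Measure
open scoped ENNReal

namespace Pool.Agent.Q187.Exp

/-- the constant of a block -/
noncomputable def Kc (s : ℝ) : ℝ := 2 ^ s / (1 - 2 * s) * 2 * 2 ^ s

section upper

variable {S : Sys} {a : ℕ → ℕ} {P : Set ℕ} {s : ℝ}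

lemma Kc_pos (hs2 : s < 1 / 2) : 0 < Kc s := by
  have : 0 < 1 - 2 * s := by linarith
  unfold Kc
  positivity

lemma CR_block (hF : S.Fine) (ha : ∀ n, 1 ≤ a n) (hs : 0 < s) (hs2 : s < 1 / 2) {m m' : ℕ}
    (hmm : m < m') (hgap : ∀ j, m < j → j < m' → j ∉ P) {γ : ℝ} (h : CR S a P s m' γ) {b : ℝ}
    (hb : 0 ≤ b) :
    CR S a P s m (2 ^ (-(s * b)) + Kc s * 2 ^ ((1 - 2 * s) * b) * 2 ^ (-(s * ((m' : ℝ) - m))) * γ) := by
  have h12 : 0 < 1 - 2 * s := by linarith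
  obtain ⟨g, rfl⟩ := Nat.exists_eq_add_of_lt hmm
  have hγ := h.1
  have h1 : CR S a P s (m + 1) (γ * ((1 / 2) ^ s) ^ g) := by
    apply CR_fixed_iter ha hs g (m := m + 1)
    · intro j hj
      exact hgap _ (by omega) (by omega)
    · have e : m + 1 + g = m + g + 1 := by omega
      rw [e]
      exact h
  have hD1 : (1 : ℝ) ≤ 2 ^ b := Real.one_le_rpow (by norm_num) hb
  set D : ℕ := ⌈(2 : ℝ) ^ b⌉₊ with hD
  have hDge : (2 : ℝ) ^ b ≤ D := Nat.le_ceil _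
  have hDlt : (D : ℝ) ≤ 2 * 2 ^ b := by
    have := Nat.ceil_lt_add_one (show (0 : ℝ) ≤ 2 ^ b by positivity)
    rw [← hD] at this
    linarith
  have hD1' : 1 ≤ D := by exact_mod_cast hD1.trans hDge
  refine (CR_free hF hs hs2 h1 hD1').mono (add_le_add ?_ ?_)
  · calc (D : ℝ) ^ (-s) ≤ ((2 : ℝ) ^ b) ^ (-s) :=
          Real.rpow_le_rpow_of_nonpos (by positivity) hDge (by linarith)
      _ = 2 ^ (-(s * b)) := by
          rw [← Real.rpow_mul (by norm_num)]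
          congr 1
          ring
  · have h2 : (D : ℝ) ^ (1 - 2 * s) ≤ 2 * 2 ^ ((1 - 2 * s) * b) := by
      calc (D : ℝ) ^ (1 - 2 * s) ≤ (2 * 2 ^ b) ^ (1 - 2 * s) :=
            Real.rpow_le_rpow (by positivity) hDlt h12.le
        _ = 2 ^ (1 - 2 * s) * 2 ^ ((1 - 2 * s) * b) := by
            rw [Real.mul_rpow (by norm_num) (by positivity), ← Real.rpow_mul (by norm_num)]
            congr 2
            ring
        _ ≤ 2 * 2 ^ ((1 - 2 * s) * b) := by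
            apply mul_le_mul_of_nonneg_right _ (by positivity)
            calc (2 : ℝ) ^ (1 - 2 * s) ≤ 2 ^ (1 : ℝ) :=
                  Real.rpow_le_rpow_of_exponent_le (by norm_num) (by linarith)
              _ = 2 := Real.rpow_one 2
    have h3 : (((1 : ℝ) / 2) ^ s) ^ g = 2 ^ s * 2 ^ (-(s * (((m + g + 1 : ℕ) : ℝ) - m))) := by
      rw [← Real.rpow_add (by norm_num), ← Real.rpow_natCast, ← Real.rpow_mul (by norm_num),
        one_div, Real.inv_rpow (by norm_num), ← Real.rpow_neg (by norm_num)]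
      congr 1
      push_cast
      ring
    rw [h3]
    unfold Kc
    calc 2 ^ s / (1 - 2 * s) * (D : ℝ) ^ (1 - 2 * s) *
          (γ * (2 ^ s * 2 ^ (-(s * (((m + g + 1 : ℕ) : ℝ) - m)))))
        ≤ 2 ^ s / (1 - 2 * s) * (2 * 2 ^ ((1 - 2 * s) * b)) *
          (γ * (2 ^ s * 2 ^ (-(s * (((m + g + 1 : ℕ) : ℝ) - m))))) := by gcongr
      _ = _ := by ring

variable {ν : ℕ → ℕ}

lemma not_mem_between (hν : StrictMono ν) {k j : ℕ} (h1 : ν k < j) (h2 : j < ν (k + 1)) :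
    j ∉ range ν := by
  rintro ⟨i, rfl⟩
  have h3 := hν.lt_iff_lt.1 h1
  have h4 := hν.lt_iff_lt.1 h2
  omega

lemma CR_iter (hF : S.Fine) (ha : ∀ n, 1 ≤ a n) (hs : 0 < s) (hs2 : s < 1 / 2)
    (hν : StrictMono ν) {r : ℝ} (hr : 1 < r) {b0 : ℝ} (hb0 : 0 ≤ b0)
    (hK : ∀ b, b0 ≤ b → 2 * Kc s * 2 ^ ((1 - 2 * s - s * r) * b) ≤ (2 : ℝ) ^ (-(s * b))) (i : ℕ) :
    ∀ (k : ℕ) (b : ℝ), b0 ≤ b → CR S a (range ν) s (ν k) (2 * 2 ^ (-(s * b)) +
      Kc s ^ i * 2 ^ ((1 - 2 * s) * b * ∑ j ∈ Finset.range i, r ^ j) *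
        2 ^ (-(s * ((ν (k + i) : ℝ) - ν k)))) := by
  have hKp := Kc_pos hs2
  induction i with
  | zero =>
    intro k b _
    refine (CR_one hF hs _).mono ?_
    have h0 : (0 : ℝ) < 2 * 2 ^ (-(s * b)) := by positivity
    have h1 : Kc s ^ 0 * 2 ^ ((1 - 2 * s) * b * ∑ j ∈ Finset.range 0, r ^ j) *
        (2 : ℝ) ^ (-(s * ((ν (k + 0) : ℝ) - ν k))) = 1 := by simp
    rw [h1]
    linarith
  | succ i ih =>
    intro k b hb
    have hb' : b0 ≤ r * b := by nlinarith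
    have h1 := ih (k + 1) (r * b) hb'
    have h2 := CR_block hF ha hs hs2 (hν (Nat.lt_succ_self k))
      (fun j hj hj' => not_mem_between hν hj hj') h1 (hb0.trans hb)
    refine h2.mono ?_
    have h3 := hK b hb
    have hmono : (ν k : ℝ) ≤ ν (k + 1) := by exact_mod_cast (hν (Nat.lt_succ_self k)).le
    have h4 : (2 : ℝ) ^ (-(s * ((ν (k + 1) : ℝ) - ν k))) ≤ 1 :=
      Real.rpow_le_one_of_one_le_of_nonpos (by norm_num) (by nlinarith)
    have h5 : Kc s * 2 ^ ((1 - 2 * s) * b) * 2 ^ (-(s * ((ν (k + 1) : ℝ) - ν k))) *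
        (2 * 2 ^ (-(s * (r * b)))) ≤ 2 ^ (-(s * b)) := by
      have e : (2 : ℝ) ^ ((1 - 2 * s) * b) * 2 ^ (-(s * (r * b))) = 2 ^ ((1 - 2 * s - s * r) * b) := by
        rw [← Real.rpow_add (by norm_num)]
        congr 1
        ring
      calc Kc s * 2 ^ ((1 - 2 * s) * b) * 2 ^ (-(s * ((ν (k + 1) : ℝ) - ν k))) *
            (2 * 2 ^ (-(s * (r * b))))
          ≤ Kc s * 2 ^ ((1 - 2 * s) * b) * 1 * (2 * 2 ^ (-(s * (r * b)))) := by gcongr
        _ = 2 * Kc s * (2 ^ ((1 - 2 * s) * b) * 2 ^ (-(s * (r * b)))) := by ring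
        _ = 2 * Kc s * 2 ^ ((1 - 2 * s - s * r) * b) := by rw [e]
        _ ≤ _ := h3
    have h6 : Kc s * 2 ^ ((1 - 2 * s) * b) * 2 ^ (-(s * ((ν (k + 1) : ℝ) - ν k))) *
        (Kc s ^ i * 2 ^ ((1 - 2 * s) * (r * b) * ∑ j ∈ Finset.range i, r ^ j) *
          2 ^ (-(s * ((ν (k + 1 + i) : ℝ) - ν (k + 1))))) =
        Kc s ^ (i + 1) * 2 ^ ((1 - 2 * s) * b * ∑ j ∈ Finset.range (i + 1), r ^ j) *
          2 ^ (-(s * ((ν (k + (i + 1)) : ℝ) - ν k))) := by
      rw [geom_sum_succ]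
      have e1 : (1 - 2 * s) * b * (r * (∑ j ∈ Finset.range i, r ^ j) + 1) =
          (1 - 2 * s) * b + (1 - 2 * s) * (r * b) * ∑ j ∈ Finset.range i, r ^ j := by ring
      have e2 : (-(s * ((ν (k + (i + 1)) : ℝ) - ν k))) = (-(s * ((ν (k + 1) : ℝ) - ν k))) +
          (-(s * ((ν (k + 1 + i) : ℝ) - ν (k + 1)))) := by
        rw [show k + (i + 1) = k + 1 + i by omega]
        ring
      rw [e1, e2, Real.rpow_add (by norm_num), Real.rpow_add (by norm_num), pow_succ]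
      ring
    rw [mul_add, h6, ← add_assoc]
    gcongr
    linarith

lemma lim_term (hs : 0 < s) (hs2 : s < 1 / 2) {r ρ : ℝ} (hr : 1 < r) (hρ : r < ρ)
    (hgr : ∀ j, ρ ^ j ≤ (ν j : ℝ)) (k : ℕ) {b : ℝ} (hb : 0 ≤ b) :
    Tendsto (fun i : ℕ => Kc s ^ i * 2 ^ ((1 - 2 * s) * b * ∑ j ∈ Finset.range i, r ^ j) *
        (2 : ℝ) ^ (-(s * ((ν (k + i) : ℝ) - ν k)))) atTop (𝓝 0) := by
  have hKp := Kc_pos hs2
  have h12 : 0 < 1 - 2 * s := by linarith
  have hρ1 : 1 < ρ := hr.trans hρ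
  obtain ⟨A, hA⟩ : ∃ A : ℕ, Kc s ≤ 2 ^ A := by
    obtain ⟨A, hA⟩ := pow_unbounded_of_one_lt (Kc s) (show (1 : ℝ) < 2 by norm_num)
    exact ⟨A, hA.le⟩
  set B : ℝ := (1 - 2 * s) * b / (r - 1) with hB
  have hB0 : 0 ≤ B := by
    rw [hB]
    have : 0 < r - 1 := by linarith
    positivity
  have hle : ∀ i : ℕ, Kc s ^ i * 2 ^ ((1 - 2 * s) * b * ∑ j ∈ Finset.range i, r ^ j) *
        (2 : ℝ) ^ (-(s * ((ν (k + i) : ℝ) - ν k))) ≤
        2 ^ (ρ ^ i * ((A : ℝ) * ((i : ℝ) ^ 1 / ρ ^ i) + B * (r / ρ) ^ i + s * ν k * (1 / ρ) ^ i - s)) := by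
    intro i
    have hρi : 0 < ρ ^ i := by positivity
    have h1 : Kc s ^ i ≤ 2 ^ ((A : ℝ) * i) := by
      calc Kc s ^ i ≤ (2 ^ A) ^ i := by gcongr
        _ = 2 ^ ((A : ℝ) * i) := by
            rw [← pow_mul, ← Real.rpow_natCast]
            push_cast
            rfl
    have h2 : (2 : ℝ) ^ ((1 - 2 * s) * b * ∑ j ∈ Finset.range i, r ^ j) ≤ 2 ^ (B * r ^ i) := by
      apply Real.rpow_le_rpow_of_exponent_le (by norm_num)
      rw [geom_sum_eq hr.ne', hB]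
      have hr1 : 0 < r - 1 := by linarith
      have : (1 - 2 * s) * b * ((r ^ i - 1) / (r - 1)) = (1 - 2 * s) * b / (r - 1) * (r ^ i - 1) := by
        ring
      rw [this]
      apply mul_le_mul_of_nonneg_left (by linarith)
      rw [← hB]; exact hB0
    have h3 : (2 : ℝ) ^ (-(s * ((ν (k + i) : ℝ) - ν k))) ≤ 2 ^ (s * ν k - s * ρ ^ i) := by
      apply Real.rpow_le_rpow_of_exponent_le (by norm_num)
      have h4 := hgr (k + i)
      have h5 : ρ ^ i ≤ ρ ^ (k + i) := pow_le_pow_right₀ hρ1.le (by omega)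
      nlinarith
    calc Kc s ^ i * 2 ^ ((1 - 2 * s) * b * ∑ j ∈ Finset.range i, r ^ j) *
        (2 : ℝ) ^ (-(s * ((ν (k + i) : ℝ) - ν k)))
        ≤ 2 ^ ((A : ℝ) * i) * 2 ^ (B * r ^ i) * 2 ^ (s * ν k - s * ρ ^ i) := by gcongr
      _ = _ := by
        rw [← Real.rpow_add (by norm_num), ← Real.rpow_add (by norm_num)]
        congr 1
        rw [pow_one, div_pow, one_div, inv_pow]
        field_simp
        ring
  refine squeeze_zero (fun i => by positivity) hle ?_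
  have hlim : Tendsto (fun i : ℕ => (A : ℝ) * ((i : ℝ) ^ 1 / ρ ^ i) + B * (r / ρ) ^ i +
      s * ν k * (1 / ρ) ^ i - s) atTop (𝓝 ((A : ℝ) * 0 + B * 0 + s * ν k * 0 - s)) := by
    apply Tendsto.sub_const
    apply Tendsto.add
    · apply Tendsto.add
      · exact (tendsto_pow_const_div_const_pow_of_one_lt 1 hρ1).const_mul _
      · exact (tendsto_pow_atTop_nhds_zero_of_lt_one (by positivity)
          ((div_lt_one (by linarith)).2 hρ)).const_mul _
    · exact (tendsto_pow_atTop_nhds_zero_of_lt_one (by positivity)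
        ((div_lt_one (by linarith)).2 hρ1)).const_mul _
  have h5 := (tendsto_pow_atTop_atTop_of_one_lt hρ1).atTop_mul_neg (by linarith) hlim
  exact (tendsto_rpow_atBot_of_base_gt_one 2 (by norm_num)).comp h5

/-- arbitrarily small covers -/
theorem CR_small (hF : S.Fine) (ha : ∀ n, 1 ≤ a n) (hs : 0 < s) (hs2 : s < 1 / 2)
    (hν : StrictMono ν) {r ρ : ℝ} (hr : 1 < r) (hsr : 1 < s * (r + 1)) (hρ : r < ρ)
    (hgr : ∀ j, ρ ^ j ≤ (ν j : ℝ)) (k : ℕ) {ε : ℝ} (hε : 0 < ε) :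
    CR S a (range ν) s (ν k) ε := by
  have hKp := Kc_pos hs2
  set c : ℝ := s * (r + 1) - 1 with hc
  have hc0 : 0 < c := by rw [hc]; linarith
  -- choice of b
  have hev1 : ∀ᶠ b : ℝ in atTop, 2 * Kc s ≤ (2 : ℝ) ^ (c * b) := by
    have h1 : Tendsto (fun b : ℝ => (2 : ℝ) ^ (c * b)) atTop atTop :=
      (tendsto_rpow_atTop_of_base_gt_one 2 (by norm_num)).comp (tendsto_id.const_mul_atTop hc0)
    exact h1.eventually_ge_atTop _
  obtain ⟨b1, hb1⟩ := eventually_atTop.1 (hev1.and (eventually_ge_atTop 0))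
  have hK : ∀ b, b1 ≤ b → 2 * Kc s * 2 ^ ((1 - 2 * s - s * r) * b) ≤ (2 : ℝ) ^ (-(s * b)) := by
    intro b hb
    have h1 := (hb1 b hb).1
    calc 2 * Kc s * 2 ^ ((1 - 2 * s - s * r) * b) ≤ 2 ^ (c * b) * 2 ^ ((1 - 2 * s - s * r) * b) := by
          gcongr
      _ = 2 ^ (-(s * b)) := by
          rw [← Real.rpow_add (by norm_num)]
          congr 1
          rw [hc]
          ring
  have hev2 : ∀ᶠ b : ℝ in atTop, 2 * (2 : ℝ) ^ (-(s * b)) < ε / 2 := by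
    have h1 : Tendsto (fun b : ℝ => 2 * (2 : ℝ) ^ (-(s * b))) atTop (𝓝 (2 * 0)) := by
      apply Tendsto.const_mul
      apply (tendsto_rpow_atBot_of_base_gt_one 2 (by norm_num)).comp
      exact tendsto_neg_atTop_atBot.comp (tendsto_id.const_mul_atTop hs)
    rw [mul_zero] at h1
    exact h1.eventually (gt_mem_nhds (by linarith))
  obtain ⟨b, hb2, hb3⟩ := (hev2.and (eventually_ge_atTop b1)).exists
  have hb10 : 0 ≤ b1 := (hb1 b1 le_rfl).2
  have h2 := (lim_term hs hs2 hr hρ hgr k (hb10.trans hb3)).eventually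
    (gt_mem_nhds (show (0 : ℝ) < ε / 2 by linarith))
  obtain ⟨i, hi⟩ := h2.exists
  refine (CR_iter hF ha hs hs2 hν hr hb10 hK i k b hb3).mono ?_
  linarith

lemma dimH_le_of_CR (hs : 0 < s) {m : ℕ} (hCR : ∀ ε : ℝ, 0 < ε → CR S a P s m ε) {h : List ℕ}
    (hh : ∀ n ∈ h, 1 ≤ n) : dimH (V S.φ h '' TR S a P m) ≤ ENNReal.ofReal s := by
  apply dimH_le_of_cov hs
  intro ε hε
  have hC := S.hC
  have hW := Wt_pos hh
  have hX : 0 < (S.C * Wt h) ^ s := by positivity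
  rcases eq_or_ne ε ⊤ with he | he
  · exact ((hCR 1 one_pos).2 h hh).mono (subset_refl _) (by rw [he]; exact le_top)
  · have h1 : 0 < ε.toReal := ENNReal.toReal_pos hε.ne' he
    refine ((hCR (ε.toReal / (S.C * Wt h) ^ s) (by positivity)).2 h hh).mono (subset_refl _) ?_
    rw [div_mul_cancel₀ _ hX.ne', ENNReal.ofReal_toReal he]

end upper

/-! ### covering of asymptotic sets -/

section cover

variable {S : Sys} {a : ℕ → ℕ} {P : Set ℕ}

lemma eq_pt {z : ℝ} (hz : ∀ i, S.T^[i] z ∈ Ioo (0 : ℝ) 1) : z = S.pt (digs S z) := by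
  have hd : ∀ n, 1 ≤ digs S z n := fun n => (S.dig _ (hz n)).1
  have hdec : ∀ m, V S.φ (hist (digs S z) m) (S.T^[m] z) = z := fun m => decode S m fun i _ => hz i
  generalize digs S z = d at hd hdec ⊢
  have h1 : ∀ m, |z - S.pt d| ≤ S.C * (1 / 2) ^ m := by
    intro m
    have h3 := Sys.pt_eq (S := S) hd m
    have h5 := S.contr _ (hist_pos hd m) (S.T^[m] z) ⟨(hz m).1.le, (hz m).2.le⟩
      (S.pt (sh d m)) (Sys.pt_mem (Sys.sh_pos hd m))
    rw [hdec, ← h3] at h5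
    have h6 := (prod_le (hist_pos hd m)).2
    rw [hist_length] at h6
    exact h5.trans (mul_le_mul_of_nonneg_left h6 S.hC.le)
  have h2 : Tendsto (fun m : ℕ => S.C * (1 / 2 : ℝ) ^ m) atTop (𝓝 (S.C * 0)) :=
    (tendsto_pow_atTop_nhds_zero_of_lt_one (by norm_num) (by norm_num)).const_mul _
  rw [mul_zero] at h2
  have h3 : |z - S.pt d| ≤ 0 := ge_of_tendsto' h2 h1
  have h4 : z - S.pt d = 0 := abs_eq_zero.mp (le_antisymm h3 (abs_nonneg _))
  linarith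

/-- the digits of a coded point -/
lemma digs_pt (ha : ∀ n, 1 ≤ a n) (hinf : ∀ n, ∃ j, 2 ≤ a (n + j)) (n : ℕ) :
    digs S (S.pt a) n = a n := by
  have hlt : ∀ n, S.pt (sh a n) < 1 := fun n => by
    obtain ⟨j, hj⟩ := hinf n
    exact Sys.pt_lt_one j (Sys.sh_pos ha n) hj
  unfold digs
  rw [Sys.iter_pt ha hinf n]
  have h1 : S.pt (sh a n) ∈ Ioo (0 : ℝ) 1 := ⟨Sys.pt_pos (Sys.sh_pos ha n), hlt n⟩
  obtain ⟨h2, h3, h4⟩ := S.dig _ h1
  have h5 : S.T (S.pt (sh a n)) = S.pt (sh a (n + 1)) := by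
    have := Sys.iter_pt (S := S) ha hinf (n + 1)
    rwa [Function.iterate_succ', Function.comp_apply, Sys.iter_pt ha hinf n] at this
  have h6 : S.φ (a n) (S.pt (sh a (n + 1))) = S.pt (sh a n) := by
    have := Sys.pt_rec (S := S) (Sys.sh_pos ha n)
    rw [Sys.sh_sh] at this
    exact this.symm
  rw [h5] at h3
  have h7 := Sys.pt_pos (S := S) (Sys.sh_pos ha (n + 1))
  have h8 := (hlt (n + 1)).le
  by_contra hne
  have h9 : 0 < |S.φ (S.D (S.pt (sh a n))) (S.pt (sh a (n + 1))) - S.φ (a n) (S.pt (sh a (n + 1)))| := by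
    rcases lt_or_gt_of_ne hne with h | h
    · exact lt_of_lt_of_le (by positivity) (S.sepa _ _ h2 h _ h7.le _ ⟨le_rfl, h8⟩ _ ⟨le_rfl, h8⟩)
    · rw [abs_sub_comm]
      exact lt_of_lt_of_le (by positivity) (S.sepa _ _ (ha n) h _ h7.le _ ⟨le_rfl, h8⟩ _ ⟨le_rfl, h8⟩)
  rw [h3, h6, sub_self, abs_zero] at h9
  exact lt_irrefl _ h9

/-- covering of the asymptotic set by images of tail sets -/
theorem AS_cover (ha : ∀ n, 1 ≤ a n) (hinf : ∀ n, ∃ j, 2 ≤ a (n + j)) {M : ℕ}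
    (hM : ∀ n, n ∉ P → a n ≤ M) {X : Set ℝ} (hX : X ⊆ Icc 0 1) {N0 : ℕ → ℕ} (hN0 : ∀ n, n ≤ N0 n) :
    AS S.T X (S.pt a) ⊆ ({1} ∪ range fun h : List ℕ => V S.φ h 0) ∪
      ⋃ p : ℕ × {h : List ℕ // ∀ n ∈ h, 1 ≤ n}, V S.φ p.2.1 '' TR S a P (N0 p.1) := by
  set K : ℕ := 2 * (M + 1) + 1 with hK
  obtain ⟨ε, hε, hclose⟩ := S.close K
  have hx : S.pt a ∈ Ico (0 : ℝ) 1 := by
    obtain ⟨j, hj⟩ := hinf 0
    rw [Nat.zero_add] at hj
    exact ⟨(Sys.pt_pos ha).le, Sys.pt_lt_one j ha hj⟩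
  rintro y ⟨hyX, hy⟩
  have hyI := hX hyX
  rcases hyI.2.lt_or_eq with hy1 | hy1
  swap
  · exact Or.inl (Or.inl hy1)
  have hyI' : y ∈ Ico (0 : ℝ) 1 := ⟨hyI.1, hy1⟩
  by_cases hz : ∃ n, S.T^[n] y = 0
  · left; right
    refine ⟨hist (digs S y) (Nat.find hz), ?_⟩
    have h1 := Nat.find_spec hz
    have h2 := decode S (z := y) (Nat.find hz) fun i hi => by
      have h3 := Nat.find_min hz hi
      have h4 := iter_mem S hyI' i
      exact ⟨lt_of_le_of_ne h4.1 (Ne.symm h3), h4.2⟩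
    rw [h1] at h2
    exact h2
  · push Not at hz
    right
    have hy0 : ∀ n, S.T^[n] y ∈ Ioo (0 : ℝ) 1 := fun n => by
      have h4 := iter_mem S hyI' n
      exact ⟨lt_of_le_of_ne h4.1 (Ne.symm (hz n)), h4.2⟩
    have hε' : 0 < min ε (1 / (2 * ((M : ℝ) + 1))) := lt_min hε (by positivity)
    have h1 := hy.eventually (gt_mem_nhds hε')
    obtain ⟨N, hN⟩ := eventually_atTop.1 h1
    have hdpos : ∀ n, 1 ≤ digs S y n := fun n => (S.dig _ (hy0 n)).1
    rw [mem_iUnion]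
    refine ⟨(N, ⟨hist (digs S y) (N0 N), hist_pos hdpos (N0 N)⟩), S.T^[N0 N] y, ?_,
      decode S (N0 N) fun i _ => hy0 i⟩
    have hiter : ∀ i, S.T^[i] (S.T^[N0 N] y) = S.T^[N0 N + i] y := fun i => by
      rw [← Function.iterate_add_apply, add_comm]
    refine ⟨digs S (S.T^[N0 N] y), fun i => ?_, fun i hi => ?_, eq_pt fun i => ?_⟩
    · unfold digs
      rw [hiter]
      exact (S.dig _ (hy0 _)).1
    · have h2 := hN (N0 N + i) (by have := hN0 N; omega)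
      have h3 := hN (N0 N + i + 1) (by have := hN0 N; omega)
      rw [Function.iterate_succ', Function.comp_apply, Function.comp_apply] at h3
      have e1 : digs S (S.T^[N0 N] y) i = S.D (S.T^[N0 N + i] y) := by
        unfold digs
        rw [hiter]
      rcases hclose _ (iter_mem S hx (N0 N + i)) _ (hy0 (N0 N + i)) (h2.trans_le (min_le_left _ _))
        (h3.trans_le (min_le_left _ _)) with ⟨_, h5⟩ | h4
      · rw [e1, h5]
        exact digs_pt ha hinf (N0 N + i)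
      · exfalso
        have h5 := S.dig _ (hy0 (N0 N + i))
        have h6 := S.mem _ h5.1 (S.T (S.T^[N0 N + i] y)) ⟨h5.2.2.1, h5.2.2.2.le⟩
        rw [h5.2.1] at h6
        have h7 : 1 / ((M : ℝ) + 1) ≤ S.T^[N0 N + i] (S.pt a) := by
          rw [Sys.iter_pt ha hinf]
          refine le_trans ?_ (Sys.pt_ge (Sys.sh_pos ha _))
          have h8 : (sh a (N0 N + i) 0 : ℕ) ≤ M := by
            show a (N0 N + i + 0) ≤ M
            rw [add_zero]
            exact hM _ hi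
          have h9 : ((sh a (N0 N + i) 0 : ℕ) : ℝ) ≤ M := by exact_mod_cast h8
          gcongr
        have h8 : 1 / (S.D (S.T^[N0 N + i] y) : ℝ) ≤ 1 / (2 * ((M : ℝ) + 1)) := by
          apply one_div_le_one_div_of_le (by positivity)
          have : 2 * (M + 1) ≤ S.D (S.T^[N0 N + i] y) := by omega
          exact_mod_cast this
        have h9 := (h2.trans_le (min_le_right _ _))
        rw [abs_lt] at h9
        have h10 : 1 / ((M : ℝ) + 1) = 1 / (2 * ((M : ℝ) + 1)) + 1 / (2 * ((M : ℝ) + 1)) := by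
          field_simp
          ring
        linarith [h9.2, h6.2]
    · rw [hiter]
      exact hy0 _

theorem dimH_AS_le_of_CR {s : ℝ} (hs : 0 < s) (ha : ∀ n, 1 ≤ a n)
    (hinf : ∀ n, ∃ j, 2 ≤ a (n + j)) {M : ℕ}
    (hM : ∀ n, n ∉ P → a n ≤ M) {X : Set ℝ} (hX : X ⊆ Icc 0 1) {N0 : ℕ → ℕ} (hN0 : ∀ n, n ≤ N0 n)
    (hCR : ∀ k, ∀ ε : ℝ, 0 < ε → CR S a P s (N0 k) ε) :
    dimH (AS S.T X (S.pt a)) ≤ ENNReal.ofReal s := by
  refine (dimH_mono (AS_cover ha hinf hM hX hN0)).trans ?_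
  rw [dimH_union, dimH_iUnion]
  apply max_le
  · rw [((countable_singleton 1).union (countable_range _)).dimH_zero]
    exact bot_le
  · exact iSup_le fun p => dimH_le_of_CR hs (hCR p.1) p.2.2

end cover

end Pool.Agent.Q187.Exp
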