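import Mathlib
import Pool.Agent.Q187.Exp.InterU2
import Pool.Agent.Q187.Code2

set_option autoImplicit false

/-!
# Lower bounds for the dimension of asymptotic sets: sparse free positions
-/

open Filter Topology Set Pool.Agent.Q187.Code MeasureTheory MeasureTheory.Measure
open scoped ENNReal Classical

namespace Pool.Agent.Q187.Exp

section lower

variable (ν : ℕ → ℕ) (e : ℕ → ℕ)

/-- the index of a position -/
noncomputable def idx' (n : ℕ) : ℕ := Function.invFun ν n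

/-- the digits of the reference point -/
noncomputable def xa (n : ℕ) : ℕ := if n ∈ range ν then idx' ν n + 2 else 1

/-- number of admissible codes -/
noncomputable def KN (h : List ℕ) : ℕ := if h.length ∈ range ν then 2 ^ e (idx' ν h.length) else 1

/-- new digits -/
noncomputable def dn (c : ℕ → ℕ) (n : ℕ) : ℕ :=
  if n ∈ range ν then 2 ^ e (idx' ν n) + c n else 1

/-- sum of exponents -/
noncomputable def TT (n : ℕ) : ℕ :=
  ∑ j ∈ Finset.range n, if j ∈ range ν then e (idx' ν j) else 0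

variable {ν} {e}

lemma idx_nu (hν : StrictMono ν) (k : ℕ) : idx' ν (ν k) = k :=
  Function.leftInverse_invFun hν.injective k

lemma xa_pos (n : ℕ) : 1 ≤ xa ν n := by
  unfold xa
  split_ifs <;> omega

lemma dn_pos (c : ℕ → ℕ) (n : ℕ) : 1 ≤ dn ν e c n := by
  unfold dn
  split_ifs
  · have := Nat.one_le_two_pow (n := e (idx' ν n))
    omega
  · exact le_rfl

lemma exists_pos (hν : StrictMono ν) (n : ℕ) : ∃ k, n ≤ ν k := ⟨n, hν.id_le n⟩

lemma xa_inf (hν : StrictMono ν) (n : ℕ) : ∃ j, 2 ≤ xa ν (n + j) := by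
  obtain ⟨k, hk⟩ := exists_pos hν n
  obtain ⟨j, hj⟩ := Nat.exists_eq_add_of_le hk
  refine ⟨j, ?_⟩
  unfold xa
  rw [← hj, if_pos (mem_range_self k)]
  omega

lemma dn_inf (hν : StrictMono ν) (he : ∀ k, k + 1 ≤ e k) (c : ℕ → ℕ) (n : ℕ) :
    ∃ j, 2 ≤ dn ν e c (n + j) := by
  obtain ⟨k, hk⟩ := exists_pos hν n
  obtain ⟨j, hj⟩ := Nat.exists_eq_add_of_le hk
  refine ⟨j, ?_⟩
  unfold dn
  rw [← hj, if_pos (mem_range_self k), idx_nu hν]
  have h1 : 2 ^ 1 ≤ 2 ^ e k := Nat.pow_le_pow_right (by norm_num) (by have := he k; omega)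
  omega

lemma adm_iff' (c : ℕ → ℕ) : Adm (KN ν e) c ↔
    ∀ n, c n < if n ∈ range ν then 2 ^ e (idx' ν n) else 1 := by
  unfold Adm KN
  simp only [hist_length]

lemma TT_succ (n : ℕ) : TT ν e (n + 1) = TT ν e n + if n ∈ range ν then e (idx' ν n) else 0 := by
  unfold TT
  rw [Finset.sum_range_succ]

lemma TT_nu (hν : StrictMono ν) (k : ℕ) : TT ν e (ν k) = ∑ i ∈ Finset.range k, e i := by
  have h1 : (Finset.range (ν k)).filter (· ∈ range ν) = (Finset.range k).image ν := by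
    ext j
    simp only [Finset.mem_filter, Finset.mem_range, mem_range, Finset.mem_image]
    constructor
    · rintro ⟨h1, i, rfl⟩
      exact ⟨i, hν.lt_iff_lt.1 h1, rfl⟩
    · rintro ⟨i, hi, rfl⟩
      exact ⟨hν hi, i, rfl⟩
  unfold TT
  rw [← Finset.sum_filter, h1, Finset.sum_image fun i _ j _ h => hν.injective h]
  exact Finset.sum_congr rfl fun i _ => by rw [idx_nu hν]

lemma TT_mono : Monotone (TT ν e) := by
  apply monotone_nat_of_le_succ
  intro n
  rw [TT_succ]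
  exact Nat.le_add_right _ _

lemma TT_tendsto (hν : StrictMono ν) (he : ∀ k, k + 1 ≤ e k) : Tendsto (TT ν e) atTop atTop := by
  refine tendsto_atTop_atTop_of_monotone TT_mono fun b => ⟨ν b, ?_⟩
  rw [TT_nu hν]
  calc b = ∑ _i ∈ Finset.range b, 1 := by simp
    _ ≤ _ := Finset.sum_le_sum fun i _ => by have := he i; omega

lemma wt_eq' (c : ℕ → ℕ) (n : ℕ) :
    wt (fun h _ => 1 / (KN ν e h : ℝ)) c n = 1 / 2 ^ TT ν e n := by
  induction n with
  | zero => simp [wt, TT]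
  | succ n ih =>
    rw [wt_succ, ih, TT_succ]
    unfold KN
    rw [hist_length]
    split_ifs with h
    · push_cast
      rw [pow_add, one_div_mul_one_div]
    · simp

lemma dn_le {c : ℕ → ℕ} (hc : Adm (KN ν e) c) {n : ℕ} (h : n ∈ range ν) :
    dn ν e c n + 1 ≤ 2 ^ (e (idx' ν n) + 1) := by
  have h1 := (adm_iff' c).1 hc n
  rw [if_pos h] at h1
  unfold dn
  rw [if_pos h, pow_succ]
  omega

lemma prod_bound' {c : ℕ → ℕ} (hc : Adm (KN ν e) c) (n : ℕ) :
    ((hist (dn ν e c) n).map fun m : ℕ => ((m : ℝ) + 1) ^ 2).prod ≤ 2 ^ (2 * TT ν e n + 2 * n) := by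
  induction n with
  | zero => simp [hist, TT]
  | succ n ih =>
    show ((dn ν e c n : ℝ) + 1) ^ 2 * ((hist (dn ν e c) n).map fun m : ℕ => ((m : ℝ) + 1) ^ 2).prod ≤ _
    have hpos : 0 ≤ ((hist (dn ν e c) n).map fun m : ℕ => ((m : ℝ) + 1) ^ 2).prod := by
      apply List.prod_nonneg
      intro x hx
      obtain ⟨m, -, rfl⟩ := List.mem_map.1 hx
      positivity
    rw [TT_succ]
    by_cases h : n ∈ range ν
    · rw [if_pos h]
      have h2 : ((dn ν e c n : ℝ) + 1) ^ 2 ≤ 2 ^ (2 * e (idx' ν n) + 2) := by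
        have : ((dn ν e c n : ℝ) + 1) ≤ 2 ^ (e (idx' ν n) + 1) := by exact_mod_cast dn_le hc h
        calc ((dn ν e c n : ℝ) + 1) ^ 2 ≤ (2 ^ (e (idx' ν n) + 1)) ^ 2 := by gcongr
          _ = 2 ^ (2 * e (idx' ν n) + 2) := by rw [← pow_mul]; congr 1; ring
      calc _ ≤ (2 : ℝ) ^ (2 * e (idx' ν n) + 2) * 2 ^ (2 * TT ν e n + 2 * n) := by gcongr
        _ = 2 ^ (2 * e (idx' ν n) + 2 + (2 * TT ν e n + 2 * n)) := (pow_add _ _ _).symm
        _ = _ := by congr 1; ring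
    · rw [if_neg h]
      have h2 : ((dn ν e c n : ℝ) + 1) ^ 2 = 2 ^ 2 := by
        unfold dn
        rw [if_neg h]
        norm_num
      rw [h2]
      calc _ ≤ (2 : ℝ) ^ 2 * 2 ^ (2 * TT ν e n + 2 * n) := by gcongr
        _ = 2 ^ (2 + (2 * TT ν e n + 2 * n)) := (pow_add _ _ _).symm
        _ = _ := by congr 1; ring

variable {S : Sys}

lemma dist_bound' (hF : S.Fine) (hν : StrictMono ν) (hgap : ∀ k, ν k + 2 ≤ ν (k + 1))
    {c c' : ℕ → ℕ} (hc : Adm (KN ν e) c) (hc' : Adm (KN ν e) c') {k : ℕ}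
    (heq : ∀ j < ν k, c j = c' j) (hlt : c (ν k) < c' (ν k)) :
    ((c' (ν k) : ℝ) - c (ν k)) / 2 ^ (2 * e k + 4 + 2 * TT ν e (ν k) + 2 * ν k) ≤
      |S.pt (dn ν e c) - S.pt (dn ν e c')| := by
  set n := ν k with hn
  have hmem : n ∈ range ν := mem_range_self k
  have hidx : idx' ν n = k := idx_nu hν k
  have hp := dn_pos (ν := ν) (e := e) c
  have hp' := dn_pos (ν := ν) (e := e) c'
  have hhist : hist (dn ν e c) n = hist (dn ν e c') n := by
    apply hist_congr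
    intro j hj
    unfold dn
    rw [heq j hj]
  have hns : n + 1 ∉ range ν :=
    not_mem_between hν (k := k) (by omega) (by have := hgap k; omega)
  have hδ : ∀ c : ℕ → ℕ, 1 / 2 ≤ S.pt (sh (dn ν e c) (n + 1)) := by
    intro c
    refine le_trans ?_ (Sys.pt_ge (Sys.sh_pos (dn_pos (ν := ν) (e := e) c) (n + 1)))
    have h3 : sh (dn ν e c) (n + 1) 0 = 1 := by
      show dn ν e c (n + 1 + 0) = 1
      unfold dn
      rw [add_zero, if_neg hns]
    rw [h3]
    norm_num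
  have e1 : S.pt (sh (dn ν e c) n) = S.φ (dn ν e c n) (S.pt (sh (dn ν e c) (n + 1))) := by
    rw [Sys.pt_rec (Sys.sh_pos hp n), Sys.sh_sh]; rfl
  have e2 : S.pt (sh (dn ν e c') n) = S.φ (dn ν e c' n) (S.pt (sh (dn ν e c') (n + 1))) := by
    rw [Sys.pt_rec (Sys.sh_pos hp' n), Sys.sh_sh]; rfl
  have d1 : dn ν e c n = 2 ^ e k + c n := by
    unfold dn
    rw [if_pos hmem, hidx]
  have d2 : dn ν e c' n = 2 ^ e k + c' n := by
    unfold dn
    rw [if_pos hmem, hidx]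
  have hlt' : dn ν e c n < dn ν e c' n := by omega
  have m1 := Sys.pt_mem (S := S) (Sys.sh_pos hp (n + 1))
  have m2 := Sys.pt_mem (S := S) (Sys.sh_pos hp' (n + 1))
  have h1 := hF.sepb _ _ (hp n) hlt' (1 / 2) (by norm_num) _ ⟨hδ c, m1.2⟩ _ ⟨hδ c', m2.2⟩
  rw [← e1, ← e2] at h1
  have h2 := S.V_low (hist_pos hp n) (Sys.pt_mem (S := S) (Sys.sh_pos hp n))
    (Sys.pt_mem (S := S) (Sys.sh_pos hp' n))
  rw [Sys.pt_eq hp n, Sys.pt_eq hp' n, ← hhist]
  refine le_trans ?_ h2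
  have h3 := prod_bound' hc n
  have hpos : 0 < ((hist (dn ν e c) n).map fun m : ℕ => ((m : ℝ) + 1) ^ 2).prod := by
    apply List.prod_pos
    intro x hx
    obtain ⟨m, -, rfl⟩ := List.mem_map.1 hx
    positivity
  have hu : (0 : ℝ) < (c' n : ℝ) - c n := by
    have : (c n : ℝ) < c' n := by exact_mod_cast hlt
    linarith
  have b1 : ((dn ν e c n : ℝ) + 1) ≤ 2 ^ (e k + 1) := by
    have := dn_le hc hmem
    rw [hidx] at this
    exact_mod_cast this
  have b2 : ((dn ν e c' n : ℝ) + 1) ≤ 2 ^ (e k + 1) := by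
    have := dn_le hc' hmem
    rw [hidx] at this
    exact_mod_cast this
  have h4 : ((c' n : ℝ) - c n) / 2 ^ (2 * e k + 4) ≤
      |S.pt (sh (dn ν e c) n) - S.pt (sh (dn ν e c') n)| := by
    refine le_trans ?_ h1
    have e3 : ((dn ν e c' n : ℕ) : ℝ) - (dn ν e c n : ℕ) = (c' n : ℝ) - c n := by
      rw [d1, d2]; push_cast; ring
    rw [e3, div_le_div_iff₀ (by positivity) (by positivity)]
    have h5 : 2 * ((dn ν e c n : ℝ) + 1) * ((dn ν e c' n : ℝ) + 1) ≤ 1 / 2 * 2 ^ (2 * e k + 4) := by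
      calc 2 * ((dn ν e c n : ℝ) + 1) * ((dn ν e c' n : ℝ) + 1) ≤
            2 * 2 ^ (e k + 1) * 2 ^ (e k + 1) := by gcongr
        _ = 1 / 2 * 2 ^ (2 * e k + 4) := by
          have : 2 * e k + 4 = (e k + 1) + (e k + 1) + 2 := by ring
          rw [this, pow_add, pow_add]
          ring
    calc ((c' n : ℝ) - c n) * (2 * ((dn ν e c n : ℝ) + 1) * ((dn ν e c' n : ℝ) + 1))
        ≤ ((c' n : ℝ) - c n) * (1 / 2 * 2 ^ (2 * e k + 4)) :=
          mul_le_mul_of_nonneg_left h5 hu.le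
      _ = _ := by ring
  calc ((c' n : ℝ) - c n) / 2 ^ (2 * e k + 4 + 2 * TT ν e n + 2 * n)
      = ((c' n : ℝ) - c n) / 2 ^ (2 * e k + 4) / 2 ^ (2 * TT ν e n + 2 * n) := by
        rw [div_div, ← pow_add]
        congr 2
        ring
    _ ≤ |S.pt (sh (dn ν e c) n) - S.pt (sh (dn ν e c') n)| / 2 ^ (2 * TT ν e n + 2 * n) := by gcongr
    _ ≤ _ := div_le_div_of_nonneg_left (abs_nonneg _) hpos h3

lemma mem_AS' (hν : StrictMono ν) (he : ∀ k, k + 1 ≤ e k) (c : ℕ → ℕ) {X : Set ℝ}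
    (hX : Ioo 0 1 ⊆ X) : S.pt (dn ν e c) ∈ AS S.T X (S.pt (xa ν)) := by
  have hdp := dn_pos (ν := ν) (e := e) c
  have hap := xa_pos (ν := ν)
  have hd1 : S.pt (dn ν e c) < 1 := by
    obtain ⟨j, hj⟩ := dn_inf hν he c 0
    rw [Nat.zero_add] at hj
    exact Sys.pt_lt_one j hdp hj
  refine ⟨hX ⟨Sys.pt_pos hdp, hd1⟩, ?_⟩
  have hbound : ∀ b : ℕ, ∀ n, ν b < n → |S.T^[n] (S.pt (xa ν)) - S.T^[n] (S.pt (dn ν e c))| ≤
      1 / ((b : ℝ) + 1) := by
    intro b n hn
    rw [Sys.iter_pt hap (xa_inf hν) n, Sys.iter_pt hdp (dn_inf hν he c) n]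
    have hex := exists_pos hν n
    set k := Nat.find hex with hk
    have h1 : n ≤ ν k := Nat.find_spec hex
    have hbk : b < k := by
      have : ν b < ν k := lt_of_lt_of_le hn h1
      exact hν.lt_iff_lt.1 this
    obtain ⟨i, hi⟩ := Nat.exists_eq_add_of_le h1
    have hnot : ∀ j, n ≤ j → j < ν k → j ∉ range ν := by
      rintro j h2 h3 ⟨l, rfl⟩
      have h4 : l < k := hν.lt_iff_lt.1 h3
      exact Nat.find_min hex h4 h2
    have hagree : hist (sh (xa ν) n) i = hist (sh (dn ν e c) n) i := by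
      apply hist_congr
      intro j hj
      show xa ν (n + j) = dn ν e c (n + j)
      have := hnot (n + j) (by omega) (by omega)
      unfold xa dn
      rw [if_neg this, if_neg this]
    have e1 := Sys.pt_eq (S := S) (Sys.sh_pos hap n) i
    have e2 := Sys.pt_eq (S := S) (Sys.sh_pos hdp n) i
    rw [Sys.sh_sh, ← hi] at e1 e2
    rw [e1, e2, ← hagree]
    refine (S.V_lip (hist_pos (Sys.sh_pos hap n) i) (Sys.pt_mem (Sys.sh_pos hap _))
      (Sys.pt_mem (Sys.sh_pos hdp _))).trans ?_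
    have b1 := Sys.pt_le (S := S) (Sys.sh_pos hap (ν k))
    have b2 := Sys.pt_le (S := S) (Sys.sh_pos hdp (ν k))
    have c1 : b + 1 ≤ sh (xa ν) (ν k) 0 := by
      show b + 1 ≤ xa ν (ν k + 0)
      unfold xa
      rw [add_zero, if_pos (mem_range_self k), idx_nu hν]
      omega
    have c2 : b + 1 ≤ sh (dn ν e c) (ν k) 0 := by
      show b + 1 ≤ dn ν e c (ν k + 0)
      unfold dn
      rw [add_zero, if_pos (mem_range_self k), idx_nu hν]
      have h5 : e k < 2 ^ e k := Nat.lt_two_pow_self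
      have := he k
      omega
    have c1' : (b : ℝ) + 1 ≤ (sh (xa ν) (ν k) 0 : ℕ) := by exact_mod_cast c1
    have c2' : (b : ℝ) + 1 ≤ (sh (dn ν e c) (ν k) 0 : ℕ) := by exact_mod_cast c2
    have d1 : S.pt (sh (xa ν) (ν k)) ≤ 1 / ((b : ℝ) + 1) :=
      b1.trans (one_div_le_one_div_of_le (by positivity) c1')
    have d2 : S.pt (sh (dn ν e c) (ν k)) ≤ 1 / ((b : ℝ) + 1) :=
      b2.trans (one_div_le_one_div_of_le (by positivity) c2')
    have p1 := Sys.pt_pos (S := S) (Sys.sh_pos hap (ν k))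
    have p2 := Sys.pt_pos (S := S) (Sys.sh_pos hdp (ν k))
    rw [abs_le]
    constructor <;> linarith
  rw [Metric.tendsto_atTop]
  intro ε hε
  obtain ⟨b, hb⟩ := exists_nat_one_div_lt hε
  refine ⟨ν b + 1, fun n hn => ?_⟩
  rw [Real.dist_eq, sub_zero, abs_abs]
  exact (hbound b n (by omega)).trans_lt hb

theorem le_dimH_AS' (hF : S.Fine) (hν : StrictMono ν) (hgap : ∀ k, ν k + 2 ≤ ν (k + 1))
    (he : ∀ k, k + 1 ≤ e k) {X : Set ℝ} (hX : Ioo 0 1 ⊆ X) (σ : NNReal) (hσ0 : 0 < σ)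
    (hσ1 : (σ : ℝ) ≤ 1) {L : ℝ}
    (hL : ∀ k, (σ : ℝ) * (e k + 4 + 2 * (∑ i ∈ Finset.range k, e i : ℕ) + 2 * ν k) + 1 ≤
      (∑ i ∈ Finset.range k, e i : ℕ) + L) :
    (σ : ℝ≥0∞) ≤ dimH (AS S.T X (S.pt (xa ν))) := by
  have hσ0' : (0 : ℝ) < σ := hσ0
  set CC : NNReal := Real.toNNReal ((2 : ℝ) ^ L) with hCC
  have hCC' : (CC : ℝ) = (2 : ℝ) ^ L := Real.coe_toNNReal _ (by positivity)
  refine le_trans ?_ (dimH_mono (s := (fun c => S.pt (dn ν e c)) '' {c | Adm (KN ν e) c}) ?_)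
  swap
  · rintro _ ⟨c, -, rfl⟩
    exact mem_AS' hν he c hX
  have hKpos : ∀ h, 0 < KN ν e h := fun h => by
    unfold KN
    split_ifs <;> positivity
  have hPS : ∀ h i, PS (fun h _ => 1 / (KN ν e h : ℝ)) h i = i / KN ν e h := by
    intro h i
    unfold PS
    rw [Finset.sum_const, Finset.card_range, nsmul_eq_mul, mul_one_div]
  refine dim_ge' (w := fun h _ => 1 / (KN ν e h : ℝ)) (K := KN ν e) (fun h i _ => ?_) (fun h => ?_)
    (fun c => S.pt (dn ν e c)) σ hσ0 CC (fun c _ => ?_) (fun c c' hc hc' n heq hlt => ?_)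
  · have := hKpos h
    positivity
  · rw [hPS]
    exact div_self (by exact_mod_cast (hKpos h).ne')
  · simp only [wt_eq']
    have h2 := (tendsto_pow_atTop_nhds_zero_of_lt_one (r := (1 / 2 : ℝ)) (by norm_num)
      (by norm_num)).comp (TT_tendsto hν he)
    refine h2.congr fun n => ?_
    simp
  · have hmem : n ∈ range ν := by
      by_contra h
      have h2 := (adm_iff' c').1 hc' n
      rw [if_neg h] at h2
      omega
    obtain ⟨k, rfl⟩ := hmem
    have h1 := dist_bound' hF hν hgap hc hc' heq hlt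
    have hu1 : (1 : ℝ) ≤ (c' (ν k) : ℝ) - c (ν k) := by
      have : (c (ν k) : ℝ) + 1 ≤ c' (ν k) := by exact_mod_cast hlt
      linarith
    have hu2 : (c' (ν k) : ℝ) - c (ν k) ≤ 2 ^ e k := by
      have h2 := (adm_iff' c').1 hc' (ν k)
      rw [if_pos (mem_range_self k), idx_nu hν] at h2
      have h3 : (c' (ν k) : ℝ) ≤ 2 ^ e k := by exact_mod_cast h2.le
      have h4 : (0 : ℝ) ≤ c (ν k) := by positivity
      linarith
    have hKN : KN ν e (hist c (ν k)) = 2 ^ e k := by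
      unfold KN
      rw [hist_length, if_pos (mem_range_self k), idx_nu hν]
    rw [wt_eq', hPS, hPS, hKN, Real.dist_eq]
    set u : ℝ := (c' (ν k) : ℝ) - c (ν k) with hu
    set T : ℕ := TT ν e (ν k) with hT
    have hTk : (T : ℝ) = (∑ i ∈ Finset.range k, e i : ℕ) := by rw [hT, TT_nu hν]
    have h2 : (u / 2 ^ (2 * e k + 4 + 2 * T + 2 * ν k) : ℝ) ^ (σ : ℝ)
        ≤ |S.pt (dn ν e c) - S.pt (dn ν e c')| ^ (σ : ℝ) :=
      Real.rpow_le_rpow (by positivity) h1 hσ0'.le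
    refine le_trans ?_ (mul_le_mul_of_nonneg_left h2 (by positivity))
    rw [hCC']
    have e0 : (((c' (ν k) + 1 : ℕ) : ℝ) / ((2 ^ e k : ℕ) : ℝ) - (c (ν k) : ℝ) / ((2 ^ e k : ℕ) : ℝ)) =
        (u + 1) / 2 ^ e k := by
      rw [hu]; push_cast; ring
    rw [e0]
    have e1 : (1 / 2 ^ T : ℝ) * ((u + 1) / 2 ^ e k) ≤ u * 2 ^ (1 - (T : ℝ) - e k) := by
      have e3 : (2 : ℝ) ^ (1 - (T : ℝ) - e k) = 2 / (2 ^ T * 2 ^ e k) := by
        rw [Real.rpow_sub (by norm_num), Real.rpow_sub (by norm_num), Real.rpow_one,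
          Real.rpow_natCast, Real.rpow_natCast, div_div]
      rw [e3]
      calc (1 / 2 ^ T : ℝ) * ((u + 1) / 2 ^ e k) = (u + 1) / (2 ^ T * 2 ^ e k) := by
            field_simp
        _ ≤ (u * 2) / (2 ^ T * 2 ^ e k) := by
            gcongr
            linarith
        _ = _ := by ring
    refine e1.trans ?_
    have e2 : (u / 2 ^ (2 * e k + 4 + 2 * T + 2 * ν k) : ℝ) ^ (σ : ℝ)
        = u ^ (σ : ℝ) * 2 ^ (-((σ : ℝ) * (2 * e k + 4 + 2 * T + 2 * ν k))) := by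
      rw [Real.div_rpow (by positivity) (by positivity), ← Real.rpow_natCast,
        ← Real.rpow_mul (by norm_num), div_eq_mul_inv, ← Real.rpow_neg (by norm_num)]
      congr 2
      push_cast
      ring
    rw [e2]
    have e3 : u = u ^ (σ : ℝ) * u ^ (1 - (σ : ℝ)) := by
      rw [← Real.rpow_add (by positivity)]
      simp
    have e4 : u ^ (1 - (σ : ℝ)) ≤ 2 ^ ((e k : ℝ) * (1 - σ)) := by
      calc u ^ (1 - (σ : ℝ)) ≤ (2 ^ e k) ^ (1 - (σ : ℝ)) :=
            Real.rpow_le_rpow (by positivity) hu2 (by linarith)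
        _ = _ := by rw [← Real.rpow_natCast, ← Real.rpow_mul (by norm_num)]
    calc u * 2 ^ (1 - (T : ℝ) - e k) = u ^ (σ : ℝ) * u ^ (1 - (σ : ℝ)) * 2 ^ (1 - (T : ℝ) - e k) := by
          rw [← e3]
      _ ≤ u ^ (σ : ℝ) * 2 ^ ((e k : ℝ) * (1 - σ)) * 2 ^ (1 - (T : ℝ) - e k) := by gcongr
      _ = u ^ (σ : ℝ) * 2 ^ ((e k : ℝ) * (1 - σ) + (1 - (T : ℝ) - e k)) := by
          rw [mul_assoc, ← Real.rpow_add (by norm_num)]
      _ ≤ u ^ (σ : ℝ) * 2 ^ (L + -((σ : ℝ) * (2 * e k + 4 + 2 * T + 2 * ν k))) := by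
          apply mul_le_mul_of_nonneg_left _ (by positivity)
          apply Real.rpow_le_rpow_of_exponent_le (by norm_num)
          have h5 := hL k
          rw [← hTk] at h5
          nlinarith
      _ = _ := by
          rw [Real.rpow_add (by norm_num)]
          ring

end lower

end Pool.Agent.Q187.Exp
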