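import Mathlib
import Pool.Agent.Q187.Exp.InterL

set_option autoImplicit false

/-!
# All values between zero and one half are dimensions of asymptotic sets
-/

open Filter Topology Set Pool.Agent.Q187.Code MeasureTheory MeasureTheory.Measure
open scoped ENNReal

namespace Pool.Agent.Q187.Exp

section image

/-- positions -/
noncomputable def nu (ρ : ℝ) (k : ℕ) : ℕ := ⌈ρ ^ k⌉₊ + 2 * k

lemma nu_gap {ρ : ℝ} (hρ : 1 < ρ) (k : ℕ) : nu ρ k + 2 ≤ nu ρ (k + 1) := by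
  unfold nu
  have h1 : ⌈ρ ^ k⌉₊ ≤ ⌈ρ ^ (k + 1)⌉₊ := Nat.ceil_mono (pow_le_pow_right₀ hρ.le (by omega))
  omega

lemma nu_strictMono {ρ : ℝ} (hρ : 1 < ρ) : StrictMono (nu ρ) :=
  strictMono_nat_of_lt_succ fun k => by have := nu_gap hρ k; omega

lemma nu_ge (ρ : ℝ) (k : ℕ) : ρ ^ k ≤ (nu ρ k : ℝ) := by
  unfold nu
  push_cast
  have := Nat.le_ceil (ρ ^ k)
  have h2 : (0 : ℝ) ≤ 2 * k := by positivity
  linarith

lemma nu_le {ρ : ℝ} (hρ : 1 < ρ) (k : ℕ) : (nu ρ k : ℝ) ≤ ρ ^ k + 1 + 2 * k := by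
  unfold nu
  push_cast
  have := Nat.ceil_lt_add_one (show 0 ≤ ρ ^ k by positivity)
  linarith

/-- sums of exponents -/
noncomputable def Se (b : ℝ) : ℕ → ℕ
  | 0 => 0
  | k + 1 => Se b k + (⌈(b - 1) * Se b k⌉₊ + k + 1)

/-- exponents -/
noncomputable def ee (b : ℝ) (k : ℕ) : ℕ := ⌈(b - 1) * Se b k⌉₊ + k + 1

lemma sum_ee (b : ℝ) (k : ℕ) : ∑ i ∈ Finset.range k, ee b i = Se b k := by
  induction k with
  | zero => rfl
  | succ k ih =>
    rw [Finset.sum_range_succ, ih]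
    rfl

lemma ee_ge (b : ℝ) (k : ℕ) : k + 1 ≤ ee b k := by
  unfold ee
  omega

lemma ee_le {b : ℝ} (hb : 1 < b) (k : ℕ) : (ee b k : ℝ) ≤ (b - 1) * Se b k + k + 2 := by
  unfold ee
  push_cast
  have h0 : 0 ≤ (b - 1) * Se b k := mul_nonneg (by linarith) (by positivity)
  have := Nat.ceil_lt_add_one h0
  linarith

lemma Se_ge {b : ℝ} (hb : 1 < b) (k : ℕ) : b ^ k ≤ Se b (k + 1) := by
  induction k with
  | zero => simp [Se]
  | succ k ih =>
    have h1 : Se b (k + 1 + 1) = Se b (k + 1) + (⌈(b - 1) * Se b (k + 1)⌉₊ + (k + 1) + 1) := rfl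
    have h2 := Nat.le_ceil ((b - 1) * Se b (k + 1))
    rw [h1]
    push_cast
    have h3 : b ^ (k + 1) = b * b ^ k := pow_succ' b k
    have h4 : (0 : ℝ) ≤ k := by positivity
    nlinarith

lemma Se_ge' {b : ℝ} (hb : 1 < b) (k : ℕ) : b ^ k / b ≤ Se b k + 1 := by
  cases k with
  | zero =>
    rw [pow_zero]
    have : 1 / b ≤ 1 := (div_le_one (by linarith)).2 hb.le
    have h2 : (0 : ℝ) ≤ Se b 0 := by positivity
    linarith
  | succ k =>
    have h1 := Se_ge hb k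
    rw [pow_succ, mul_div_assoc, div_self (by linarith), mul_one]
    linarith

lemma exists_L {σ ρ b : ℝ} (hσ0 : 0 < σ) (hρ : 1 < ρ) (hb : ρ < b) (hσb : σ * (b + 1) < 1) :
    ∃ L : ℝ, ∀ k, σ * (ee b k + 4 + 2 * (∑ i ∈ Finset.range k, ee b i : ℕ) + 2 * nu ρ k) + 1 ≤
      (∑ i ∈ Finset.range k, ee b i : ℕ) + L := by
  have hb1 : 1 < b := hρ.trans hb
  set θ : ℝ := 1 - σ * (b + 1) with hθ
  have hθ0 : 0 < θ := by rw [hθ]; linarith
  -- the auxiliary function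
  set g : ℕ → ℝ := fun k => σ * (5 * k + 8 + 2 * ρ ^ k) + 1 + θ - θ * (b ^ k / b) with hg
  have hlim : Tendsto (fun k : ℕ => 5 * σ * ((k : ℝ) ^ 1 / b ^ k) + (8 * σ + 1 + θ) * (1 / b) ^ k +
      2 * σ * (ρ / b) ^ k - θ / b) atTop
      (𝓝 (5 * σ * 0 + (8 * σ + 1 + θ) * 0 + 2 * σ * 0 - θ / b)) := by
    apply Tendsto.sub_const
    apply Tendsto.add
    · apply Tendsto.add
      · exact (tendsto_pow_const_div_const_pow_of_one_lt 1 hb1).const_mul _
      · exact (tendsto_pow_atTop_nhds_zero_of_lt_one (by positivity)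
          ((div_lt_one (by linarith)).2 hb1)).const_mul _
    · exact (tendsto_pow_atTop_nhds_zero_of_lt_one (by positivity)
        ((div_lt_one (by linarith)).2 hb)).const_mul _
  have hneg : 5 * σ * 0 + (8 * σ + 1 + θ) * 0 + 2 * σ * 0 - θ / b < 0 := by
    have : 0 < θ / b := by positivity
    linarith
  obtain ⟨K, hK⟩ := eventually_atTop.1 (hlim.eventually (gt_mem_nhds hneg))
  have hgK : ∀ k, K ≤ k → g k ≤ 0 := by
    intro k hk
    have h1 := hK k hk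
    have hbk : 0 < b ^ k := by positivity
    have h2 : g k = b ^ k * (5 * σ * ((k : ℝ) ^ 1 / b ^ k) + (8 * σ + 1 + θ) * (1 / b) ^ k +
      2 * σ * (ρ / b) ^ k - θ / b) := by
      rw [hg]
      simp only [pow_one, div_pow, one_pow]
      field_simp
      ring
    rw [h2]
    exact mul_nonpos_of_nonneg_of_nonpos hbk.le h1.le
  refine ⟨∑ j ∈ Finset.range K, |g j|, fun k => ?_⟩
  have hgL : g k ≤ ∑ j ∈ Finset.range K, |g j| := by
    rcases Nat.lt_or_ge k K with h | h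
    · exact (le_abs_self _).trans (Finset.single_le_sum (f := fun j => |g j|)
        (fun j _ => abs_nonneg _) (Finset.mem_range.2 h))
    · exact (hgK k h).trans (Finset.sum_nonneg fun j _ => abs_nonneg _)
  rw [sum_ee]
  have h1 := ee_le hb1 k
  have h2 := nu_le hρ k
  have h3 := Se_ge' hb1 k
  have h4 : σ * (ee b k + 4 + 2 * (Se b k : ℝ) + 2 * nu ρ k) ≤
      σ * (((b - 1) * Se b k + k + 2) + 4 + 2 * (Se b k : ℝ) + 2 * (ρ ^ k + 1 + 2 * k)) := by
    apply mul_le_mul_of_nonneg_left _ hσ0.le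
    linarith
  have h5 : θ * (b ^ k / b) ≤ θ * (Se b k + 1) := mul_le_mul_of_nonneg_left h3 hθ0.le
  have h6 : g k = σ * (5 * k + 8 + 2 * ρ ^ k) + 1 + θ - θ * (b ^ k / b) := rfl
  rw [h6] at hgL
  rw [hθ] at h5 hgL
  linarith

variable (S : Sys)

/-- **Intermediate values**, at points whose orbit does not contain `0`. -/
theorem exists_AS_pos (hF : S.Fine) {X : Set ℝ} (hX : Ioo 0 1 ⊆ X) (hX' : X ⊆ Icc 0 1) {α : ℝ}
    (h0 : 0 < α) (h1 : α < 1 / 2) :
    ∃ x ∈ Ioo (0 : ℝ) 1, (∀ n, 0 < S.T^[n] x) ∧ dimH (AS S.T X x) = ENNReal.ofReal α := by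
  set ρ : ℝ := 1 / α - 1 with hρ
  have hρ1 : 1 < ρ := by
    rw [hρ]
    have : 2 < 1 / α := by rw [lt_div_iff₀ h0]; linarith
    linarith
  have hν := nu_strictMono hρ1
  have hap := xa_pos (ν := nu ρ)
  have hinf := xa_inf hν
  have hlt : S.pt (xa (nu ρ)) < 1 := by
    obtain ⟨j, hj⟩ := hinf 0
    rw [Nat.zero_add] at hj
    exact Sys.pt_lt_one j hap hj
  refine ⟨S.pt (xa (nu ρ)), ⟨Sys.pt_pos hap, hlt⟩, fun n => by
    rw [Sys.iter_pt hap hinf]; exact Sys.pt_pos (Sys.sh_pos hap n), le_antisymm ?_ ?_⟩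
  · -- upper bound
    refine le_of_forall_gt_imp_ge_of_dense fun t ht => ?_
    rcases eq_or_ne t ⊤ with h | h
    · rw [h]; exact le_top
    obtain ⟨s', hs', hs'2⟩ : ∃ s : ℝ, ENNReal.ofReal s = t ∧ α < s := by
      refine ⟨t.toReal, ENNReal.ofReal_toReal h, ?_⟩
      rw [← ENNReal.ofReal_toReal h] at ht
      exact (ENNReal.ofReal_lt_ofReal_iff_of_nonneg h0.le).1 ht
    rw [← hs']
    -- a number between
    obtain ⟨s, hs1, hs2⟩ := exists_between (lt_min hs'2 h1)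
    have hs3 := hs2.trans_le (min_le_left _ _)
    have hs4 := hs2.trans_le (min_le_right _ _)
    have hs0 : 0 < s := h0.trans hs1
    refine le_trans ?_ (ENNReal.ofReal_le_ofReal hs3.le)
    obtain ⟨r, hr1, hr2⟩ : ∃ r, 1 / s - 1 < r ∧ r < ρ := by
      apply exists_between
      rw [hρ]
      have := one_div_lt_one_div_of_lt h0 hs1
      linarith
    have hr0 : 1 < r := by
      have : 2 < 1 / s := by rw [lt_div_iff₀ hs0]; linarith
      linarith
    have hsr : 1 < s * (r + 1) := by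
      have : 1 / s < r + 1 := by linarith
      rw [div_lt_iff₀ hs0] at this
      linarith
    exact dimH_AS_le_of_CR (P := range (nu ρ)) hs0 hap hinf (M := 1)
      (fun n hn => by unfold xa; rw [if_neg hn]) hX' (N0 := nu ρ) (fun n => hν.id_le n)
      (fun k ε hε => CR_small hF hap hs0 hs4 hν hr0 hsr hr2 (nu_ge ρ) k hε)
  · -- lower bound
    refine le_of_forall_lt_imp_le_of_dense fun t ht => ?_
    have htt : t ≠ ⊤ := (ht.trans_le le_top).ne
    lift t to NNReal using htt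
    rcases eq_or_ne t 0 with h | h
    · rw [h]; exact bot_le
    have ht0 : 0 < t := pos_iff_ne_zero.2 h
    have ht1 : (t : ℝ) < α := by
      rw [ENNReal.ofReal, ENNReal.coe_lt_coe, ← NNReal.coe_lt_coe, Real.coe_toNNReal _ h0.le] at ht
      exact ht
    have ht0' : (0 : ℝ) < t := ht0
    obtain ⟨b, hb1, hb2⟩ : ∃ b, ρ < b ∧ b < 1 / (t : ℝ) - 1 := by
      apply exists_between
      rw [hρ]
      have := one_div_lt_one_div_of_lt ht0' ht1
      linarith
    have hσb : (t : ℝ) * (b + 1) < 1 := by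
      have : b + 1 < 1 / (t : ℝ) := by linarith
      rw [lt_div_iff₀ ht0'] at this
      linarith
    obtain ⟨L, hL⟩ := exists_L ht0' hρ1 hb1 hσb
    exact le_dimH_AS' hF hν (nu_gap hρ1) (ee_ge b) hX t ht0 (by linarith) hL

/-- **Intermediate values.** -/
theorem exists_AS (hF : S.Fine) {X : Set ℝ} (hX : Ioo 0 1 ⊆ X) (hX' : X ⊆ Icc 0 1) {α : ℝ}
    (h0 : 0 < α) (h1 : α < 1 / 2) :
    ∃ x ∈ Ioo (0 : ℝ) 1, dimH (AS S.T X x) = ENNReal.ofReal α := by
  obtain ⟨x, hx, _, h⟩ := exists_AS_pos S hF hX hX' h0 h1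
  exact ⟨x, hx, h⟩

/-- a point with countable asymptotic set (dimension zero) -/
theorem exists_AS_zero_pos (hF : S.Fine) {X : Set ℝ} (hX' : X ⊆ Icc 0 1) :
    ∃ x ∈ Ioo (0 : ℝ) 1, (∀ n, 0 < S.T^[n] x) ∧ dimH (AS S.T X x) = 0 := by
  set a : ℕ → ℕ := fun _ => 2 with ha
  have hap : ∀ n, 1 ≤ a n := fun n => by simp [ha]
  have hinf : ∀ n, ∃ j, 2 ≤ a (n + j) := fun n => ⟨0, le_rfl⟩
  have hlt : S.pt a < 1 := Sys.pt_lt_one 0 hap le_rfl
  refine ⟨S.pt a, ⟨Sys.pt_pos hap, hlt⟩, fun n => by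
    rw [Sys.iter_pt hap hinf]; exact Sys.pt_pos (Sys.sh_pos hap n), le_antisymm ?_ bot_le⟩
  refine le_of_forall_gt_imp_ge_of_dense fun t ht => ?_
  rcases eq_or_ne t ⊤ with h | h
  · rw [h]; exact le_top
  have hs0 : 0 < t.toReal := ENNReal.toReal_pos ht.ne' h
  rw [← ENNReal.ofReal_toReal h]
  refine dimH_AS_le_of_CR (P := ∅) hs0 hap hinf (M := 2) (fun n _ => le_rfl) hX' (N0 := fun n => n)
    (fun n => le_rfl) (fun k ε hε => ?_)
  have h2 : Tendsto (fun g : ℕ => (1 : ℝ) * ((1 / 2) ^ t.toReal) ^ g) atTop (𝓝 (1 * 0)) :=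
    (tendsto_pow_atTop_nhds_zero_of_lt_one (by positivity)
      (Real.rpow_lt_one (by norm_num) (by norm_num) hs0)).const_mul _
  rw [mul_zero] at h2
  obtain ⟨g, hg⟩ := (h2.eventually (gt_mem_nhds hε)).exists
  exact (CR_fixed_iter hap hs0 g (m := k) (fun j _ => by simp) (CR_one hF hs0 (k + g))).mono hg.le

/-- a point with countable asymptotic set (dimension zero) -/
theorem exists_AS_zero (hF : S.Fine) {X : Set ℝ} (hX' : X ⊆ Icc 0 1) :
    ∃ x ∈ Ioo (0 : ℝ) 1, dimH (AS S.T X x) = 0 := by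
  obtain ⟨x, hx, _, h⟩ := exists_AS_zero_pos S hF hX'
  exact ⟨x, hx, h⟩

/-- a point whose asymptotic set has dimension one half -/
theorem exists_AS_half_pos {X : Set ℝ} (hX : Ioo 0 1 ⊆ X) (hX' : X ⊆ Icc 0 1) :
    ∃ x ∈ Ioo (0 : ℝ) 1, (∀ n, 0 < S.T^[n] x) ∧ dimH (AS S.T X x) = 1 / 2 := by
  set a : ℕ → ℕ := fun n => if Sq n then Nat.sqrt n + 1 else 1 with ha
  have hgood : Good 1 a := ⟨fun n => by simp only [ha]; split_ifs <;> omega,
    fun n hn => by simp only [ha]; rw [if_neg hn], fun n hn => by simp only [ha]; rw [if_pos hn]⟩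
  have hlt : S.pt a < 1 := by
    obtain ⟨j, hj⟩ := inf_a hgood 0
    rw [Nat.zero_add] at hj
    exact Sys.pt_lt_one j hgood.pos hj
  exact ⟨S.pt a, ⟨Sys.pt_pos hgood.pos, hlt⟩, fun n => by
    rw [Sys.iter_pt hgood.pos (inf_a hgood)]; exact Sys.pt_pos (Sys.sh_pos hgood.pos n),
    dimH_AS_eq S hgood hX hX'⟩

/-- a point whose asymptotic set has dimension one half -/
theorem exists_AS_half {X : Set ℝ} (hX : Ioo 0 1 ⊆ X) (hX' : X ⊆ Icc 0 1) :
    ∃ x ∈ Ioo (0 : ℝ) 1, dimH (AS S.T X x) = 1 / 2 := by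
  obtain ⟨x, hx, _, h⟩ := exists_AS_half_pos S hX hX'
  exact ⟨x, hx, h⟩

/-- **The image of the dimension function.** -/
theorem image_eq (hF : S.Fine) {X : Set ℝ} (hX : Ioo 0 1 ⊆ X) (hX' : X ⊆ Ico 0 1) :
    (fun x => dimH (AS S.T X x)) '' X = Icc 0 (1 / 2) := by
  have hX'' : X ⊆ Icc 0 1 := hX'.trans Ico_subset_Icc_self
  ext t
  constructor
  · rintro ⟨x, hx, rfl⟩
    exact ⟨bot_le, dimH_AS_le S (hX' hx) hX''⟩
  · rintro ⟨_, ht⟩
    rcases eq_or_ne t 0 with h | h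
    · obtain ⟨x, hx, h2⟩ := exists_AS_zero S hF hX''
      exact ⟨x, hX hx, by rw [h]; exact h2⟩
    rcases ht.lt_or_eq with h2 | h2
    · have htop : t ≠ ⊤ := (h2.trans_le le_top).ne
      have h3 : 0 < t.toReal := ENNReal.toReal_pos h htop
      have h4 : t.toReal < 1 / 2 := by
        have := (ENNReal.toReal_lt_toReal htop (by simp)).2 h2
        simpa using this
      obtain ⟨x, hx, h5⟩ := exists_AS S hF hX hX'' h3 h4
      refine ⟨x, hX hx, ?_⟩
      show dimH (AS S.T X x) = t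
      rw [h5, ENNReal.ofReal_toReal htop]
    · obtain ⟨x, hx, h5⟩ := exists_AS_half S hX hX''
      exact ⟨x, hX hx, by rw [h2]; exact h5⟩

end image

end Pool.Agent.Q187.Exp
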