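import Mathlib
import Pool.Agent.Q187.Exp.Gauss
import Pool.Agent.Q187.Exp.Image

set_option autoImplicit false

open Filter Topology Set Pool.Agent.Q187.Code

namespace Pool.Agent.Q187.Exp.Gauss

/-- the Gauss map has the additional properties -/
theorem fine : sys.Fine where
  lip := by
    intro h hh y hy y' hy'
    show |V φ h y - V φ h y'| ≤ 2 * Wt h * |y - y'|
    rw [V_sub hh hy.1 hy'.1]
    obtain ⟨h1, h2, h3⟩ := Q_facts hh
    have h4 := Q_sq hh
    have hpos : 0 < Wt h := Wt_pos hh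
    change 1 ≤ (Q h ^ 2 + Q' h ^ 2) * Wt h at h4
    have h6 : Q h ^ 2 ≤ (Q h + Q' h * y) * (Q h + Q' h * y') := by
      have e1 := mul_nonneg h2 hy.1
      have e2 := mul_nonneg h2 hy'.1
      nlinarith
    have h7 : 1 ≤ 2 * Q h ^ 2 * Wt h := by
      refine h4.trans (mul_le_mul_of_nonneg_right ?_ hpos.le)
      nlinarith
    have hQ : 0 < Q h ^ 2 := by positivity
    calc |y - y'| / ((Q h + Q' h * y) * (Q h + Q' h * y')) ≤ |y - y'| / Q h ^ 2 :=
          div_le_div_of_nonneg_left (abs_nonneg _) hQ h6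
      _ ≤ 2 * Wt h * |y - y'| := by
          rw [div_le_iff₀ hQ]
          have := abs_nonneg (y - y')
          nlinarith
  sepb := by
    intro p q hp hpq δ hδ y hy y' hy'
    show δ * ((q : ℝ) - p) / (2 * (p + 1) * (q + 1)) ≤ |φ p y - φ q y'|
    have hp' : (1 : ℝ) ≤ p := by exact_mod_cast hp
    have hq' : (p : ℝ) + 1 ≤ q := by exact_mod_cast hpq
    have hδ1 : δ ≤ 1 := hy.1.trans hy.2
    have h1 : 1 / ((p : ℝ) + 1) ≤ φ p y := by
      unfold φ
      apply one_div_le_one_div_of_le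
      · linarith [hy.1]
      · linarith [hy.2]
    have h2 : φ q y' ≤ 1 / ((q : ℝ) + δ) := by
      unfold φ
      apply one_div_le_one_div_of_le (by linarith)
      linarith [hy'.1]
    have h3 : 1 / ((p : ℝ) + 1) - 1 / ((q : ℝ) + δ) = (q + δ - p - 1) / ((p + 1) * (q + δ)) := by
      have : (q : ℝ) + δ ≠ 0 := (by linarith : (0 : ℝ) < q + δ).ne'
      field_simp
      ring
    have h4 : δ * ((q : ℝ) - p) / (2 * (p + 1) * (q + 1)) ≤ (q + δ - p - 1) / ((p + 1) * (q + δ)) := by
      rw [div_le_div_iff₀ (by positivity) (mul_pos (by linarith) (by linarith))]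
      have e1 : δ * ((q : ℝ) - p) ≤ q + δ - p - 1 := by nlinarith
      have e2 : (p + 1) * ((q : ℝ) + δ) ≤ 2 * (p + 1) * (q + 1) := by nlinarith
      exact mul_le_mul e1 e2 (mul_nonneg (by linarith) (by linarith)) (by linarith)
    refine le_trans ?_ (le_abs_self _)
    linarith

end Pool.Agent.Q187.Exp.Gauss
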