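import Mathlib
import Pool.Agent.Q187.Exp.Full

set_option autoImplicit false

/-!
# The Lüroth map as a system with full branches
-/

open Filter Topology Set Pool.Agent.Q187.Code

namespace Pool.Agent.Q187.Exp.Luroth

/-- inverse branches -/
noncomputable def φ (n : ℕ) (y : ℝ) : ℝ := 1 / ((n : ℝ) + 1) + y / ((n : ℝ) * (n + 1))

lemma φ_sub {n : ℕ} (y y' : ℝ) : φ n y - φ n y' = (y - y') / ((n : ℝ) * (n + 1)) := by
  unfold φ; ring

lemma V_sub (h : List ℕ) (y y' : ℝ) :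
    V φ h y - V φ h y' = (y - y') * (h.map fun n : ℕ => 1 / ((n : ℝ) * (n + 1))).prod := by
  induction h generalizing y y' with
  | nil => simp [V]
  | cons n h ih =>
    show V φ h (φ n y) - V φ h (φ n y') = _
    rw [ih, φ_sub, List.map_cons, List.prod_cons]
    ring

lemma prod_pos' {h : List ℕ} (hh : ∀ n ∈ h, 1 ≤ n) :
    0 < (h.map fun n : ℕ => 1 / ((n : ℝ) * (n + 1))).prod := by
  apply List.prod_pos
  intro a ha
  obtain ⟨m, hm, rfl⟩ := List.mem_map.1 ha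
  have : (1 : ℝ) ≤ m := by exact_mod_cast hh m hm
  positivity

lemma prod_le' {h : List ℕ} (hh : ∀ n ∈ h, 1 ≤ n) :
    (h.map fun n : ℕ => 1 / ((n : ℝ) * (n + 1))).prod ≤
      (h.map fun n : ℕ => 2 / ((n : ℝ) + 1) ^ 2).prod := by
  induction h with
  | nil => simp
  | cons n h ih =>
    have hn : (1 : ℝ) ≤ n := by exact_mod_cast hh n List.mem_cons_self
    have hh' : ∀ n ∈ h, 1 ≤ n := fun m hm => hh m (List.mem_cons_of_mem _ hm)
    rw [List.map_cons, List.prod_cons, List.map_cons, List.prod_cons]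
    apply mul_le_mul _ (ih hh') (prod_pos' hh').le (by positivity)
    rw [div_le_div_iff₀ (by positivity) (by positivity)]
    nlinarith

lemma gap {p q : ℕ} (hp : 1 ≤ p) (hpq : p < q) {u v : ℝ} (hu : 0 ≤ u) :
    (1 + u - v) / ((q : ℝ) * (q + 1)) ≤ φ p u - φ q v := by
  have hp' : (1 : ℝ) ≤ p := by exact_mod_cast hp
  have hq' : (p : ℝ) + 1 ≤ q := by exact_mod_cast hpq
  have h1 : φ q v = 1 / (q : ℝ) - (1 - v) / ((q : ℝ) * (q + 1)) := by
    unfold φ
    have : (q : ℝ) ≠ 0 := (by linarith : (0 : ℝ) < q).ne'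
    field_simp
    ring
  have h2 : 1 / (q : ℝ) ≤ 1 / ((p : ℝ) + 1) := one_div_le_one_div_of_le (by positivity) hq'
  have h3 : u / ((q : ℝ) * (q + 1)) ≤ u / ((p : ℝ) * (p + 1)) := by
    apply div_le_div_of_nonneg_left hu (by positivity)
    nlinarith
  rw [h1]
  unfold φ
  have h4 : (1 + u - v) / ((q : ℝ) * (q + 1)) = u / ((q : ℝ) * (q + 1)) + (1 - v) / ((q : ℝ) * (q + 1)) := by
    ring
  rw [h4]
  linarith

section

variable {L : ℝ → ℝ} (h0 : L 0 = 0)
  (hL : ∀ n : ℕ, 1 ≤ n → ∀ x ∈ Ico (1 / ((n : ℝ) + 1)) (1 / (n : ℝ)), L x = n * (n + 1) * x - n)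

lemma digit {x : ℝ} (hx : x ∈ Ioo (0 : ℝ) 1) :
    1 ≤ ⌈1 / x⌉₊ - 1 ∧ x ∈ Ico (1 / (((⌈1 / x⌉₊ - 1 : ℕ) : ℝ) + 1)) (1 / ((⌈1 / x⌉₊ - 1 : ℕ) : ℝ)) := by
  obtain ⟨hx0, hx1⟩ := hx
  have h1 : 1 < 1 / x := by rw [lt_div_iff₀ hx0]; linarith
  have h2 : 1 < ⌈1 / x⌉₊ := by
    rw [Nat.lt_ceil]; simpa using h1
  have h3 : ((⌈1 / x⌉₊ - 1 : ℕ) : ℝ) + 1 = ⌈1 / x⌉₊ := by
    rw [Nat.cast_sub h2.le]; push_cast; ring
  have h4 : (1 : ℝ) ≤ ((⌈1 / x⌉₊ - 1 : ℕ) : ℝ) := by
    exact_mod_cast (show 1 ≤ ⌈1 / x⌉₊ - 1 by omega)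
  refine ⟨by omega, ?_, ?_⟩
  · rw [h3]
    rw [div_le_iff₀ (by linarith)]
    have := Nat.le_ceil (1 / x)
    rw [div_le_iff₀ hx0] at this
    linarith
  · rw [lt_div_iff₀ (by linarith)]
    have : ((⌈1 / x⌉₊ - 1 : ℕ) : ℝ) < 1 / x := by
      have h5 := Nat.ceil_lt_add_one (a := 1 / x) (by positivity)
      linarith
    rw [lt_div_iff₀ hx0] at this
    linarith

include hL in
lemma dig_spec {x : ℝ} (hx : x ∈ Ioo (0 : ℝ) 1) :
    1 ≤ ⌈1 / x⌉₊ - 1 ∧ φ (⌈1 / x⌉₊ - 1) (L x) = x ∧ L x ∈ Ico (0 : ℝ) 1 := by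
  obtain ⟨h1, h2⟩ := digit hx
  have h3 := hL _ h1 x h2
  set n := ⌈1 / x⌉₊ - 1
  have hn : (1 : ℝ) ≤ n := by exact_mod_cast h1
  obtain ⟨h4, h5⟩ := h2
  rw [div_le_iff₀ (by linarith)] at h4
  rw [lt_div_iff₀ (by linarith)] at h5
  refine ⟨h1, ?_, ?_, ?_⟩
  · rw [h3]
    unfold φ
    field_simp
    ring
  · rw [h3]
    nlinarith
  · rw [h3]
    nlinarith

include hL in
lemma close_spec (K : ℕ) : ∃ ε > 0, ∀ x ∈ Ico (0 : ℝ) 1, ∀ y ∈ Ioo (0 : ℝ) 1, |x - y| < ε →
    |L x - L y| < ε → (x ≠ 0 ∧ ⌈1 / y⌉₊ - 1 = ⌈1 / x⌉₊ - 1) ∨ K ≤ ⌈1 / y⌉₊ - 1 := by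
  have hK : (0 : ℝ) ≤ K := by positivity
  refine ⟨1 / (16 * ((K : ℝ) + 1) ^ 2), by positivity, fun x hx y hy hxy hT => ?_⟩
  set ε : ℝ := 1 / (16 * ((K : ℝ) + 1) ^ 2) with hε
  have hε0 : 0 < ε := by positivity
  have hε1 : ε * (16 * ((K : ℝ) + 1) ^ 2) = 1 := by rw [hε]; field_simp
  by_contra hcon
  push Not at hcon
  obtain ⟨hne, hDK⟩ := hcon
  obtain ⟨hy1, hy2, hy3⟩ := dig_spec hL hy
  obtain ⟨-, hy4, hy5⟩ := digit hy
  set m := ⌈1 / y⌉₊ - 1 with hm
  have hm1 : (1 : ℝ) ≤ m := by exact_mod_cast hy1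
  have hmK : (m : ℝ) + 1 ≤ K := by exact_mod_cast hDK
  have hK1 : (1 : ℝ) ≤ K := by linarith
  have hyK : 1 / (K : ℝ) ≤ y := le_trans (one_div_le_one_div_of_le (by positivity) hmK) hy4
  have hεK : ε * (2 * K) ≤ 1 := by
    calc ε * (2 * K) ≤ ε * (16 * ((K : ℝ) + 1) ^ 2) := by
          apply mul_le_mul_of_nonneg_left _ hε0.le
          nlinarith
      _ = 1 := hε1
  have hyK' : 1 ≤ y * K := by rwa [div_le_iff₀ (by positivity)] at hyK
  have hxK : 1 ≤ x * (2 * K) := by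
    have h1 := (abs_lt.1 hxy).1
    have : (y - ε) * (2 * K) ≤ x * (2 * K) := by
      apply mul_le_mul_of_nonneg_right _ (by positivity)
      linarith
    nlinarith
  have hx0 : 0 < x := by
    by_contra h
    push Not at h
    have : x * (2 * K) ≤ 0 := mul_nonpos_of_nonpos_of_nonneg h (by positivity)
    linarith
  have hxx : x ∈ Ioo (0 : ℝ) 1 := ⟨hx0, hx.2⟩
  obtain ⟨hx1, hx2, hx3⟩ := dig_spec hL hxx
  obtain ⟨-, hx4, hx5⟩ := digit hxx
  have hne' := hne hx0.ne'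
  set n := ⌈1 / x⌉₊ - 1 with hn
  have hn1 : (1 : ℝ) ≤ n := by exact_mod_cast hx1
  have hnK : (n : ℝ) < 2 * K := by
    rw [lt_div_iff₀ (by positivity)] at hx5
    by_contra h
    push Not at h
    nlinarith
  obtain ⟨hT1, hT2⟩ := abs_lt.1 hT
  obtain ⟨hd1, hd2⟩ := abs_lt.1 hxy
  have key : ∀ q : ℝ, 1 ≤ q → q ≤ 2 * K → ∀ t : ℝ, 1 - ε ≤ t → t / (q * (q + 1)) < ε → False := by
    intro q hq1 hq2 t ht h
    rw [div_lt_iff₀ (by positivity)] at h
    have h1 : ε * (q * (q + 1)) ≤ ε * (4 * ((K : ℝ) + 1) ^ 2) := by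
      apply mul_le_mul_of_nonneg_left _ hε0.le
      nlinarith
    have h2 : ε * (4 * ((K : ℝ) + 1) ^ 2) = 1 / 4 := by linarith
    have h3 : ε ≤ 1 / 2 := by nlinarith
    linarith
  rcases lt_or_gt_of_ne hne' with h | h
  · -- `m < n`
    have h1 := gap (u := L y) (v := L x) hy1 h hy3.1
    rw [hy2, hx2] at h1
    exact key n hn1 hnK.le (1 + L y - L x) (by linarith) (by linarith)
  · have h1 := gap (u := L x) (v := L y) hx1 h hx3.1
    rw [hy2, hx2] at h1
    exact key m hm1 (by linarith) (1 + L x - L y) (by linarith) (by linarith)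

/-- the Lüroth map -/
noncomputable def sys : Sys where
  T := L
  φ := φ
  D := fun x => ⌈1 / x⌉₊ - 1
  C := 1
  mem := by
    intro n hn y hy
    have hn' : (1 : ℝ) ≤ n := by exact_mod_cast hn
    obtain ⟨h1, h2⟩ := hy
    unfold φ
    constructor
    · have : 0 ≤ y / ((n : ℝ) * (n + 1)) := by positivity
      linarith
    · have h3 : y / ((n : ℝ) * (n + 1)) ≤ 1 / ((n : ℝ) * (n + 1)) := by gcongr
      have h4 : 1 / ((n : ℝ) + 1) + 1 / ((n : ℝ) * (n + 1)) = 1 / n := by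
        field_simp
      linarith
  low := by
    intro n hn y _ y' _
    have hn' : (1 : ℝ) ≤ n := by exact_mod_cast hn
    rw [φ_sub, abs_div, abs_of_pos (by positivity : (0 : ℝ) < (n : ℝ) * (n + 1))]
    apply div_le_div_of_nonneg_left (abs_nonneg _) (by positivity)
    nlinarith
  upp := by
    intro n hn y _ y' _
    have hn' : (1 : ℝ) ≤ n := by exact_mod_cast hn
    rw [φ_sub, abs_div, abs_of_pos (by positivity : (0 : ℝ) < (n : ℝ) * (n + 1))]
    apply div_le_self (abs_nonneg _)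
    nlinarith
  one := by
    intro y hy
    unfold φ
    have := hy.2
    push_cast
    linarith
  inv := by
    intro n hn y hy
    have hn' : (1 : ℝ) ≤ n := by exact_mod_cast hn
    have h1 : φ n y ∈ Ico (1 / ((n : ℝ) + 1)) (1 / (n : ℝ)) := by
      unfold φ
      constructor
      · have := hy.1
        have : 0 ≤ y / ((n : ℝ) * (n + 1)) := by positivity
        linarith
      · have h3 : y / ((n : ℝ) * (n + 1)) < 1 / ((n : ℝ) * (n + 1)) := by
          apply div_lt_div_of_pos_right hy.2 (by positivity)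
        have h4 : 1 / ((n : ℝ) + 1) + 1 / ((n : ℝ) * (n + 1)) = 1 / n := by
          field_simp
        linarith
    rw [hL n hn _ h1]
    unfold φ
    field_simp
    ring
  sepa := by
    intro p q hp hpq δ hδ y hy y' hy'
    have h1 := gap (u := y) (v := y') hp hpq (hδ.trans hy.1)
    have hp' : (1 : ℝ) ≤ p := by exact_mod_cast hp
    have hq' : (p : ℝ) + 1 ≤ q := by exact_mod_cast hpq
    have h2 : δ / ((p : ℝ) * (p + 1)) ≤ φ p y - φ q y' := by
      have h3 : φ q y' ≤ 1 / ((p : ℝ) + 1) := by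
        have h4 : φ q y' ≤ 1 / (q : ℝ) := by
          unfold φ
          have h3 : y' / ((q : ℝ) * (q + 1)) ≤ 1 / ((q : ℝ) * (q + 1)) := by
            have := hy'.2
            gcongr
          have h4 : 1 / ((q : ℝ) + 1) + 1 / ((q : ℝ) * (q + 1)) = 1 / q := by
            have : (q : ℝ) ≠ 0 := (by linarith : (0 : ℝ) < q).ne'
            field_simp
          linarith
        exact h4.trans (one_div_le_one_div_of_le (by positivity) hq')
      have h5 : 1 / ((p : ℝ) + 1) + δ / ((p : ℝ) * (p + 1)) ≤ φ p y := by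
        unfold φ
        have := hy.1
        gcongr
      linarith
    refine le_trans ?_ (h2.trans (le_abs_self _))
    apply div_le_div_of_nonneg_left hδ (by positivity)
    nlinarith
  dig := fun x hx => dig_spec hL hx
  zero := h0
  close := close_spec hL
  hC := one_pos
  contr := by
    intro h hh y hy y' hy'
    rw [V_sub, abs_mul, abs_of_pos (prod_pos' hh), one_mul]
    have h1 : |y - y'| ≤ 1 := by
      rw [abs_le]; constructor <;> linarith [hy.1, hy.2, hy'.1, hy'.2]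
    calc _ ≤ 1 * (h.map fun n : ℕ => 1 / ((n : ℝ) * (n + 1))).prod := by
          have := (prod_pos' hh).le
          gcongr
      _ ≤ _ := by rw [one_mul]; exact prod_le' hh
  dist := by
    intro h hh y _ y' _
    rw [V_sub, V_sub, abs_mul, abs_mul, zero_sub, abs_neg, abs_one, abs_of_pos (prod_pos' hh)]
    have := (prod_pos' hh).le
    have h2 : 0 ≤ |y - y'| * (h.map fun n : ℕ => 1 / ((n : ℝ) * (n + 1))).prod := by positivity
    linarith
  sum := by
    intro h hh B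
    have e : ∀ i : ℕ, |V φ ((i + 1) :: h) 0 - V φ ((i + 1) :: h) 1|
        = 1 / (((i : ℝ) + 1) * (i + 1 + 1)) * (h.map fun n : ℕ => 1 / ((n : ℝ) * (n + 1))).prod := by
      intro i
      rw [V_sub, zero_sub, List.map_cons, List.prod_cons, abs_mul, abs_neg, abs_one, one_mul, abs_mul,
        abs_of_pos (prod_pos' hh), abs_of_pos (by positivity)]
      push_cast
      rfl
    rw [Finset.sum_congr rfl fun i _ => e i, ← Finset.sum_mul, V_sub, abs_mul, zero_sub, abs_neg,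
      abs_one, one_mul, abs_of_pos (prod_pos' hh)]
    apply mul_le_mul_of_nonneg_right _ (prod_pos' hh).le
    have h1 : ∀ B : ℕ, ∑ i ∈ Finset.range B, 1 / (((i : ℝ) + 1) * (i + 1 + 1)) = 1 - 1 / ((B : ℝ) + 1) := by
      intro B
      induction B with
      | zero => simp
      | succ B ih =>
        rw [Finset.sum_range_succ, ih]
        push_cast
        field_simp
        ring
    rw [h1]
    have : 1 / ((B : ℝ) + 1) ≤ 2 / ((B : ℝ) + 1) := by gcongr; norm_num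
    linarith

end

end Pool.Agent.Q187.Exp.Luroth
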