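import Mathlib
import Pool.Agent.Q187.Exp.Luroth
import Pool.Agent.Q187.Exp.Image

set_option autoImplicit false

/-!
# The Lüroth map with right closed branches
-/

open Filter Topology Set Pool.Agent.Q187.Code

namespace Pool.Agent.Q187.Exp.Luroth

theorem fine {L : ℝ → ℝ} (h0 : L 0 = 0)
    (hL : ∀ n : ℕ, 1 ≤ n → ∀ x ∈ Ico (1 / ((n : ℝ) + 1)) (1 / (n : ℝ)), L x = n * (n + 1) * x - n) :
    (sys h0 hL).Fine where
  lip := by
    intro h hh y hy y' hy'
    show |V φ h y - V φ h y'| ≤ 1 * Wt h * |y - y'|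
    rw [V_sub, abs_mul, abs_of_pos (prod_pos' hh), one_mul, mul_comm]
    exact mul_le_mul_of_nonneg_right (prod_le' hh) (abs_nonneg _)
  sepb := by
    intro p q hp hpq δ hδ y hy y' hy'
    show δ * ((q : ℝ) - p) / (2 * (p + 1) * (q + 1)) ≤ |φ p y - φ q y'|
    have hp' : (1 : ℝ) ≤ p := by exact_mod_cast hp
    have hq' : (p : ℝ) + 1 ≤ q := by exact_mod_cast hpq
    have hδ1 : δ ≤ 1 := hy.1.trans hy.2
    have hq0 : (0 : ℝ) < q := by linarith
    have h3 : φ q y' ≤ 1 / (q : ℝ) := by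
      unfold φ
      have h3 : y' / ((q : ℝ) * (q + 1)) ≤ 1 / ((q : ℝ) * (q + 1)) := by
        have := hy'.2
        gcongr
      have h4 : 1 / ((q : ℝ) + 1) + 1 / ((q : ℝ) * (q + 1)) = 1 / q := by
        field_simp
      linarith
    have h5 : 1 / ((p : ℝ) + 1) + δ / ((p : ℝ) * (p + 1)) ≤ φ p y := by
      unfold φ
      have := hy.1
      gcongr
    have h6 : 1 / ((p : ℝ) + 1) - 1 / (q : ℝ) = (q - p - 1) / ((p + 1) * q) := by
      field_simp
      ring
    have h7 : δ * (q - p - 1) / ((p + 1) * (q + 1)) ≤ (q - p - 1) / ((p + 1) * (q : ℝ)) := by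
      apply div_le_div₀ (by linarith) _ (by positivity) _
      · nlinarith
      · nlinarith
    have h8 : δ / ((p + 1) * ((q : ℝ) + 1)) ≤ δ / ((p : ℝ) * (p + 1)) := by
      apply div_le_div_of_nonneg_left hδ (by positivity)
      nlinarith
    have h9 : δ * ((q : ℝ) - p) / (2 * (p + 1) * (q + 1)) ≤
        δ * (q - p - 1) / ((p + 1) * (q + 1)) + δ / ((p + 1) * ((q : ℝ) + 1)) := by
      rw [← add_div]
      have e1 : δ * (q - p - 1) + δ = δ * ((q : ℝ) - p) := by ring
      rw [e1]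
      have e2 : 0 ≤ δ * ((q : ℝ) - p) := mul_nonneg hδ (by linarith)
      apply div_le_div_of_nonneg_left e2 (by positivity)
      nlinarith
    refine le_trans ?_ (le_abs_self _)
    linarith

/-! ### the map with right closed branches -/

section right

variable {T : ℝ → ℝ} (h0 : T 0 = 0)
  (hT : ∀ n : ℕ, 1 ≤ n → ∀ x ∈ Ioc (1 / ((n : ℝ) + 1)) (1 / (n : ℝ)), T x = n * (n + 1) * x - n)

/-- the points whose orbit hits one -/
def ZZ (T : ℝ → ℝ) : Set ℝ := {x | x ∈ Ioc (0 : ℝ) 1 ∧ ∃ n, T^[n] x = 1}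

lemma digit' {x : ℝ} (hx : x ∈ Ioc (0 : ℝ) 1) :
    ∃ n : ℕ, 1 ≤ n ∧ x ∈ Ioc (1 / ((n : ℝ) + 1)) (1 / (n : ℝ)) := by
  obtain ⟨hx0, hx1⟩ := hx
  have h1 : 1 ≤ 1 / x := by rw [le_div_iff₀ hx0]; linarith
  have h2 : 1 ≤ ⌊1 / x⌋₊ := by rw [Nat.le_floor_iff (by linarith)]; simpa using h1
  have h3 : (1 : ℝ) ≤ (⌊1 / x⌋₊ : ℝ) := by exact_mod_cast h2
  refine ⟨⌊1 / x⌋₊, h2, ?_, ?_⟩
  · rw [div_lt_iff₀ (by linarith)]
    have := Nat.lt_floor_add_one (1 / x)
    rw [div_lt_iff₀ hx0] at this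
    linarith
  · rw [le_div_iff₀ (by linarith)]
    have := Nat.floor_le (show 0 ≤ 1 / x by linarith)
    rw [le_div_iff₀ hx0] at this
    linarith

include hT in
lemma T_mem' {x : ℝ} (hx : x ∈ Ioc (0 : ℝ) 1) : T x ∈ Ioc (0 : ℝ) 1 := by
  obtain ⟨n, hn, h1⟩ := digit' hx
  have hn' : (1 : ℝ) ≤ n := by exact_mod_cast hn
  rw [hT n hn x h1]
  obtain ⟨h2, h3⟩ := h1
  rw [div_lt_iff₀ (by linarith)] at h2
  rw [le_div_iff₀ (by linarith)] at h3
  constructor <;> nlinarith

include hT in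
lemma T_one : T 1 = 1 := by
  have := hT 1 le_rfl 1 (by norm_num)
  rw [this]
  norm_num

include hT in
lemma iter_one (n : ℕ) : T^[n] 1 = 1 := by
  induction n with
  | zero => rfl
  | succ n ih => rw [Function.iterate_succ_apply', ih, T_one hT]

include hT in
lemma iter_mem' {x : ℝ} (hx : x ∈ Ioc (0 : ℝ) 1) (n : ℕ) : T^[n] x ∈ Ioc (0 : ℝ) 1 := by
  induction n with
  | zero => exact hx
  | succ n ih => rw [Function.iterate_succ_apply']; exact T_mem' hT ih

include hT in
lemma T_inv {m : ℕ} (hm : 1 ≤ m) : T (1 / (m : ℝ)) = 1 := by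
  have hm' : (1 : ℝ) ≤ m := by exact_mod_cast hm
  rw [hT m hm _ ⟨one_div_lt_one_div_of_lt (by linarith) (by linarith), le_rfl⟩]
  field_simp
  ring

include hT in
lemma ZZ_countable : (ZZ T).Countable := by
  have h1 : ∀ n : ℕ, {x | x ∈ Ioc (0 : ℝ) 1 ∧ T^[n] x = 1}.Countable := by
    intro n
    induction n with
    | zero =>
      refine (countable_singleton (1 : ℝ)).mono ?_
      rintro x ⟨_, hx⟩
      exact hx
    | succ n ih =>
      refine (countable_iUnion fun m : ℕ => ih.image (φ m)).mono ?_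
      rintro x ⟨hx, hx1⟩
      rw [Function.iterate_succ_apply] at hx1
      obtain ⟨m, hm, h2⟩ := digit' hx
      have hm' : (1 : ℝ) ≤ m := by exact_mod_cast hm
      refine mem_iUnion.2 ⟨m, T x, ⟨T_mem' hT hx, hx1⟩, ?_⟩
      rw [hT m hm x h2]
      unfold φ
      field_simp
      ring
  refine (countable_iUnion h1).mono ?_
  rintro x ⟨hx, n, hn⟩
  exact mem_iUnion.2 ⟨n, hx, hn⟩

open Classical in
/-- the map with left closed branches -/
noncomputable def TL (T : ℝ → ℝ) (x : ℝ) : ℝ := if ∃ m : ℕ, x = 1 / (m : ℝ) then 0 else T x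

lemma TL_zero : TL T 0 = 0 := by
  unfold TL
  rw [if_pos ⟨0, by simp⟩]

include hT in
lemma TL_eq (n : ℕ) (hn : 1 ≤ n) (x : ℝ) (hx : x ∈ Ico (1 / ((n : ℝ) + 1)) (1 / (n : ℝ))) :
    TL T x = n * (n + 1) * x - n := by
  have hn' : (1 : ℝ) ≤ n := by exact_mod_cast hn
  rcases hx.1.eq_or_lt with h | h
  · unfold TL
    rw [if_pos ⟨n + 1, by rw [← h]; push_cast; rfl⟩, ← h]
    field_simp
    ring
  · have hnot : ¬ ∃ m : ℕ, x = 1 / (m : ℝ) := by
      rintro ⟨m, hm⟩
      have hx0 : 0 < x := lt_trans (by positivity) h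
      have hm0 : m ≠ 0 := by
        rintro rfl
        rw [Nat.cast_zero, div_zero] at hm
        linarith
      have hm' : (0 : ℝ) < m := by
        have : 0 < m := Nat.pos_of_ne_zero hm0
        exact_mod_cast this
      have h1 := hx.2
      rw [hm] at h h1
      rw [div_lt_div_iff₀ (by linarith) hm', one_mul, one_mul] at h
      rw [div_lt_div_iff₀ hm' (by linarith), one_mul, one_mul] at h1
      have h2 : m < n + 1 := by exact_mod_cast h
      have h3 : n < m := by exact_mod_cast h1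
      omega
    unfold TL
    rw [if_neg hnot]
    exact hT n hn x ⟨h, hx.2.le⟩

include h0 hT in
/-- off the exceptional set the orbits agree -/
lemma iter_TL {x : ℝ} (hx : x ∈ Icc (0 : ℝ) 1) (hZ : x ∉ ZZ T) (n : ℕ) :
    (TL T)^[n] x = T^[n] x := by
  rcases hx.1.eq_or_lt with h | h
  · have h1 : ∀ n, T^[n] x = 0 := by
      intro n
      induction n with
      | zero => exact h.symm
      | succ n ih => rw [Function.iterate_succ_apply', ih, h0]
    have h2 : ∀ n, (TL T)^[n] x = 0 := by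
      intro n
      induction n with
      | zero => exact h.symm
      | succ n ih => rw [Function.iterate_succ_apply', ih, TL_zero]
    rw [h1, h2]
  · have hx' : x ∈ Ioc (0 : ℝ) 1 := ⟨h, hx.2⟩
    induction n with
    | zero => rfl
    | succ n ih =>
      rw [Function.iterate_succ_apply', Function.iterate_succ_apply', ih]
      unfold TL
      rw [if_neg]
      rintro ⟨m, hm⟩
      have h3 := iter_mem' hT hx' n
      have hm0 : m ≠ 0 := by
        rintro rfl
        rw [Nat.cast_zero, div_zero] at hm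
        linarith [h3.1]
      apply hZ
      refine ⟨hx', n + 1, ?_⟩
      rw [Function.iterate_succ_apply', hm]
      exact T_inv hT (Nat.pos_of_ne_zero hm0)

include h0 hT in
lemma AS_diff {x : ℝ} (hx : x ∈ Icc (0 : ℝ) 1) (hZ : x ∉ ZZ T) {y : ℝ} (hZy : y ∉ ZZ T) :
    y ∈ AS T (Icc 0 1) x ↔ y ∈ AS (TL T) (Icc 0 1) x := by
  constructor
  · rintro ⟨hy, h⟩
    refine ⟨hy, h.congr fun n => ?_⟩
    rw [iter_TL h0 hT hx hZ, iter_TL h0 hT hy hZy]
  · rintro ⟨hy, h⟩
    refine ⟨hy, h.congr fun n => ?_⟩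
    rw [iter_TL h0 hT hx hZ, iter_TL h0 hT hy hZy]

include h0 hT in
lemma dimH_AS_eq_TL {x : ℝ} (hx : x ∈ Icc (0 : ℝ) 1) (hZ : x ∉ ZZ T) :
    dimH (AS T (Icc 0 1) x) = dimH (AS (TL T) (Icc 0 1) x) := by
  have hc : dimH (ZZ T) = 0 := (ZZ_countable hT).dimH_zero
  apply le_antisymm
  · have h1 : AS T (Icc 0 1) x ⊆ AS (TL T) (Icc 0 1) x ∪ ZZ T := by
      intro y hy
      by_cases hZy : y ∈ ZZ T
      · exact Or.inr hZy
      · exact Or.inl ((AS_diff h0 hT hx hZ hZy).1 hy)
    refine (dimH_mono h1).trans ?_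
    rw [dimH_union, hc]
    simp
  · have h1 : AS (TL T) (Icc 0 1) x ⊆ AS T (Icc 0 1) x ∪ ZZ T := by
      intro y hy
      by_cases hZy : y ∈ ZZ T
      · exact Or.inr hZy
      · exact Or.inl ((AS_diff h0 hT hx hZ hZy).2 hy)
    refine (dimH_mono h1).trans ?_
    rw [dimH_union, hc]
    simp

include h0 hT in
/-- at exceptional points the asymptotic set is countable -/
lemma dimH_AS_ZZ {x : ℝ} (hZ : x ∈ ZZ T) : dimH (AS T (Icc 0 1) x) = 0 := by
  obtain ⟨hx, k, hk⟩ := hZ
  have h1 : AS T (Icc 0 1) x ⊆ ZZ T := by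
    rintro y ⟨hy, h⟩
    have hx1 : ∀ n, k ≤ n → T^[n] x = 1 := by
      intro n hn
      obtain ⟨i, rfl⟩ := Nat.exists_eq_add_of_le hn
      rw [add_comm, Function.iterate_add_apply, hk, iter_one hT]
    obtain ⟨N, hN⟩ := eventually_atTop.1 (h.eventually (gt_mem_nhds (show (0 : ℝ) < 1 / 3 by norm_num)))
    have hy0 : y ≠ 0 := by
      rintro rfl
      have h2 : ∀ n, T^[n] (0 : ℝ) = 0 := by
        intro n
        induction n with
        | zero => rfl
        | succ n ih => rw [Function.iterate_succ_apply', ih, h0]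
      have h3 := hN (max N k) (le_max_left _ _)
      rw [hx1 _ (le_max_right _ _), h2] at h3
      norm_num at h3
    have hy' : y ∈ Ioc (0 : ℝ) 1 := ⟨lt_of_le_of_ne hy.1 (Ne.symm hy0), hy.2⟩
    set m := max N k with hm
    have hnear : ∀ i, 1 - T^[m + i] y < 1 / 3 := by
      intro i
      have h3 := hN (m + i) (by omega)
      rw [hx1 _ (by omega)] at h3
      exact (le_abs_self _).trans_lt h3
    have hdbl : ∀ i, 1 - T^[m + i] y = 2 ^ i * (1 - T^[m] y) := by
      intro i
      induction i with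
      | zero => simp
      | succ i ih =>
        have h3 := hnear i
        have h4 := iter_mem' hT hy' (m + i)
        have h5 := hT 1 le_rfl (T^[m + i] y) ⟨by norm_num; linarith, by simpa using h4.2⟩
        rw [← add_assoc, Function.iterate_succ_apply', h5]
        push_cast
        rw [pow_succ]
        linarith
    refine ⟨hy', m, ?_⟩
    have h4 := iter_mem' hT hy' m
    by_contra hne
    have h5 : 0 < 1 - T^[m] y := by
      have : T^[m] y < 1 := lt_of_le_of_ne h4.2 hne
      linarith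
    obtain ⟨i, hi⟩ := pow_unbounded_of_one_lt (1 / (1 - T^[m] y)) (show (1 : ℝ) < 2 by norm_num)
    rw [div_lt_iff₀ h5] at hi
    have h6 := hnear i
    rw [hdbl i] at h6
    linarith
  exact ((ZZ_countable hT).mono h1).dimH_zero

include hT in
/-- a point of `(0, 1)` whose orbit under the map with left closed branches does not hit zero is not
exceptional -/
lemma not_ZZ {x : ℝ} (hx : x ∈ Ioo (0 : ℝ) 1) (hpos : ∀ n, 0 < (TL T)^[n] x) : x ∉ ZZ T := by
  rintro ⟨hx', n, hn⟩
  classical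
  have hex : ∃ n, T^[n] x = 1 := ⟨n, hn⟩
  set k := Nat.find hex with hk
  have h1 : T^[k] x = 1 := Nat.find_spec hex
  have hmin : ∀ j, j < k → T^[j] x ≠ 1 := fun j hj => Nat.find_min hex hj
  -- the orbits agree before time `k`
  have hk0 : k ≠ 0 := by
    intro h
    rw [h] at h1
    have : x = 1 := h1
    linarith [hx.2]
  have hag : ∀ j, j < k → (TL T)^[j] x = T^[j] x := by
    intro j hj
    induction j with
    | zero => rfl
    | succ j ih =>
      rw [Function.iterate_succ_apply', Function.iterate_succ_apply', ih (by omega)]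
      unfold TL
      rw [if_neg]
      rintro ⟨m, hm⟩
      have h3 := iter_mem' hT hx' j
      have hm0 : m ≠ 0 := by
        rintro rfl
        rw [Nat.cast_zero, div_zero] at hm
        linarith [h3.1]
      apply hmin (j + 1) hj
      rw [Function.iterate_succ_apply', hm]
      exact T_inv hT (Nat.pos_of_ne_zero hm0)
  obtain ⟨j, hj⟩ := Nat.exists_eq_succ_of_ne_zero hk0
  have h4 := hag j (by omega)
  have h5 := iter_mem' hT hx' j
  -- the point at time `j` is the reciprocal of an integer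
  obtain ⟨m, hm, h6⟩ := digit' h5
  have hm' : (1 : ℝ) ≤ m := by exact_mod_cast hm
  have h7 := hT m hm _ h6
  rw [hj, Function.iterate_succ_apply', h7] at h1
  have h8 : T^[j] x = 1 / (m : ℝ) := by
    rw [eq_div_iff (by linarith)]
    have h9 : ((m : ℝ) + 1) * (T^[j] x * m) = (m + 1) * 1 := by linarith
    exact mul_left_cancel₀ (by positivity) h9
  have h9 := hpos (j + 1)
  rw [Function.iterate_succ_apply', h4] at h9
  unfold TL at h9
  rw [if_pos ⟨m, h8⟩] at h9
  exact lt_irrefl _ h9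

include h0 hT in
/-- **The image of the dimension function for the Lüroth map.** -/
theorem image_right : (fun x => dimH (AS T (Icc 0 1) x)) '' Icc (0 : ℝ) 1 = Icc 0 (1 / 2) := by
  set S := sys (L := TL T) TL_zero (TL_eq hT) with hS
  have hF : S.Fine := fine _ _
  have hST : S.T = TL T := rfl
  have hX : Ioo (0 : ℝ) 1 ⊆ Icc 0 1 := Ioo_subset_Icc_self
  ext t
  constructor
  · rintro ⟨x, hx, rfl⟩
    refine ⟨bot_le, ?_⟩
    show dimH (AS T (Icc 0 1) x) ≤ 1 / 2
    by_cases hZ : x ∈ ZZ T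
    · rw [dimH_AS_ZZ h0 hT hZ]
      exact bot_le
    · rw [dimH_AS_eq_TL h0 hT hx hZ, ← hST]
      refine dimH_AS_le S ⟨hx.1, lt_of_le_of_ne hx.2 ?_⟩ (subset_refl _)
      rintro rfl
      exact hZ ⟨⟨one_pos, le_rfl⟩, 0, rfl⟩
  · rintro ⟨_, ht⟩
    have key : ∀ x ∈ Ioo (0 : ℝ) 1, (∀ n, 0 < S.T^[n] x) → dimH (AS S.T (Icc 0 1) x) = t →
        t ∈ (fun x => dimH (AS T (Icc 0 1) x)) '' Icc (0 : ℝ) 1 := by
      intro x hx hpos h
      refine ⟨x, hX hx, ?_⟩
      show dimH (AS T (Icc 0 1) x) = t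
      rw [dimH_AS_eq_TL h0 hT (hX hx) (not_ZZ hT hx hpos)]
      exact h
    rcases eq_or_ne t 0 with h | h
    · obtain ⟨x, hx, hpos, h2⟩ := exists_AS_zero_pos S hF (subset_refl _)
      exact key x hx hpos (by rw [h]; exact h2)
    rcases ht.lt_or_eq with h2 | h2
    · have htop : t ≠ ⊤ := (h2.trans_le le_top).ne
      have h3 : 0 < t.toReal := ENNReal.toReal_pos h htop
      have h4 : t.toReal < 1 / 2 := by
        have := (ENNReal.toReal_lt_toReal htop (by simp)).2 h2
        simpa using this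
      obtain ⟨x, hx, hpos, h5⟩ := exists_AS_pos S hF hX (subset_refl _) h3 h4
      exact key x hx hpos (by rw [h5, ENNReal.ofReal_toReal htop])
    · obtain ⟨x, hx, hpos, h5⟩ := exists_AS_half_pos S hX (subset_refl _)
      exact key x hx hpos (by rw [h2]; exact h5)

end right

end Pool.Agent.Q187.Exp.Luroth
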